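import Pool.Agent.Lib.E6.Spec

/-! E6 block CJ: twisted conjugacy of tuples. -/

namespace Pool.Agent.Lib.E6

open Equiv Pool.Agent.Lib.helper80 Pool.Agent.Lib.MP_e519cf_lc Polynomial

noncomputable section
open Classical

namespace CJ

/-- The generating triples. -/
def trs (m : ℕ) (ps : List (FP × FP)) (us : List (List FP)) : List TriD :=
  (ps.map fun d => (d.1, List.replicate m d.2, d.2)) ++ us.map fun u => (1, u, 1)

theorem mem_trs {m : ℕ} {ps : List (FP × FP)} {us : List (List FP)} {d : TriD} :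
    d ∈ trs m ps us ↔ (∃ e ∈ ps, (e.1, List.replicate m e.2, e.2) = d) ∨ ∃ u ∈ us, (1, u, 1) = d := by
  simp only [trs, List.mem_append, List.mem_map]

theorem getD_rep {m i : ℕ} (hi : i < m) (l : FP) : (List.replicate m l).getD i 1 = l := by
  simp [List.getD_eq_getElem?_getD, hi]

theorem fst_mem {m : ℕ} {ps : List (FP × FP)} (h : ∀ d ∈ ps, d.1 ∈ Sy m) {d : FP × FP}
    (hd : d ∈ Subgroup.closure {d | d ∈ ps}) : d.1 ∈ Sy m := by
  induction hd using Subgroup.closure_induction with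
  | mem x hx => exact h x hx
  | one => exact one_mem _
  | mul x y _ _ hx hy => exact mul_mem hx hy
  | inv x _ hx => exact inv_mem hx

theorem inv_tri {m : ℕ} {ps : List (FP × FP)} {us : List (List FP)} (h : ∀ d ∈ ps, d.1 ∈ Sy m)
    (hst : ∀ d ∈ Subgroup.closure {d | d ∈ ps}, ∀ u ∈ tupG us, ∃ v ∈ tupG us,
      ∀ i < m, v (d.1 • i) = d.2 * u i * d.2⁻¹) {t : Tri} (ht : t ∈ triG (trs m ps us)) :
    (t.p, t.l) ∈ Subgroup.closure {d | d ∈ ps} ∧
      ∃ u ∈ tupG us, ∀ i < m, t.a i = u (t.p • i) * t.l := by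
  unfold triG at ht
  induction ht using Subgroup.closure_induction with
  | mem x hx =>
    obtain ⟨d, hd, rfl⟩ := hx
    rcases mem_trs.1 hd with ⟨e, he, rfl⟩ | ⟨u, hu, rfl⟩
    · refine ⟨Subgroup.subset_closure he, 1, one_mem _, fun i hi => ?_⟩
      show (List.replicate m e.2).getD i 1 = 1 * e.2
      rw [getD_rep hi, one_mul]
    · refine ⟨one_mem _, fun i => u.getD i 1, Subgroup.subset_closure ⟨u, hu, rfl⟩, fun i _ => ?_⟩
      show u.getD i 1 = u.getD ((1 : FP) • i) 1 * 1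
      rw [one_smul, mul_one]
  | one => exact ⟨one_mem _, 1, one_mem _, fun i _ => by simp⟩
  | mul s t _ _ hs ht =>
    obtain ⟨hs1, u, hu, hs2⟩ := hs
    obtain ⟨ht1, v, hv, ht2⟩ := ht
    obtain ⟨w, hw, hw2⟩ := hst _ hs1 v hv
    refine ⟨mul_mem hs1 ht1, u * w, mul_mem hu hw, fun i hi => ?_⟩
    have hi' : t.p • i < m := (smul_lt (fst_mem h ht1)).2 hi
    have := hw2 _ hi'
    simp only at this
    rw [Tri.mul_a, Tri.mul_p, Tri.mul_l, hs2 _ hi', ht2 _ hi, mul_smul, Pi.mul_apply, this]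
    group
  | inv t _ ht =>
    obtain ⟨ht1, u, hu, ht2⟩ := ht
    obtain ⟨w, hw, hw2⟩ := hst _ (inv_mem ht1) u⁻¹ (inv_mem hu)
    refine ⟨inv_mem ht1, w, hw, fun i hi => ?_⟩
    have hi' : t.p⁻¹ • i < m := (smul_lt (inv_mem (fst_mem h ht1))).2 hi
    have := hw2 _ hi
    simp only [Prod.fst_inv, Prod.snd_inv, Pi.inv_apply] at this
    rw [Tri.inv_a, Tri.inv_p, Tri.inv_l, ht2 _ hi', smul_inv_smul, this]
    group

theorem ex_pair {m : ℕ} {ps : List (FP × FP)} (us : List (List FP)) (h : ∀ d ∈ ps, d.1 ∈ Sy m)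
    {d : FP × FP} (hd : d ∈ Subgroup.closure {d | d ∈ ps}) :
    ∃ t ∈ triG (trs m ps us), t.p = d.1 ∧ t.l = d.2 ∧ ∀ i < m, t.a i = d.2 := by
  induction hd using Subgroup.closure_induction with
  | mem x hx =>
    exact ⟨_, Subgroup.subset_closure ⟨_, mem_trs.2 (Or.inl ⟨x, hx, rfl⟩), rfl⟩, rfl, rfl,
      fun i hi => getD_rep hi _⟩
  | one => exact ⟨1, one_mem _, rfl, rfl, fun _ _ => rfl⟩
  | mul x y _ hy' hx hy =>
    obtain ⟨s, hs, hs1, hs2, hs3⟩ := hx
    obtain ⟨t, ht, ht1, ht2, ht3⟩ := hy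
    refine ⟨s * t, mul_mem hs ht, by simp [hs1, ht1], by simp [hs2, ht2], fun i hi => ?_⟩
    rw [Tri.mul_a, ht3 i hi, hs3 _ (by rw [ht1]; exact (smul_lt (fst_mem h hy')).2 hi)]
    rfl
  | inv x hx' hx =>
    obtain ⟨s, hs, hs1, hs2, hs3⟩ := hx
    refine ⟨s⁻¹, inv_mem hs, by simp [hs1], by simp [hs2], fun i hi => ?_⟩
    rw [Tri.inv_a, hs3 _ (by rw [hs1]; exact (smul_lt (inv_mem (fst_mem h hx'))).2 hi)]
    rfl

theorem ex_tup (m : ℕ) (ps : List (FP × FP)) {us : List (List FP)} {u : ℕ → FP}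
    (hu : u ∈ tupG us) : (⟨1, u, 1⟩ : Tri) ∈ triG (trs m ps us) := by
  unfold tupG at hu
  induction hu using Subgroup.closure_induction with
  | mem x hx =>
    obtain ⟨d, hd, rfl⟩ := hx
    exact Subgroup.subset_closure ⟨_, mem_trs.2 (Or.inr ⟨d, hd, rfl⟩), rfl⟩
  | one => exact one_mem _
  | mul x y _ _ hx hy =>
    have e : (⟨1, x * y, 1⟩ : Tri) = ⟨1, x, 1⟩ * ⟨1, y, 1⟩ :=
      Tri.ext (by simp) (funext fun i => by simp) (by simp)
    rw [e]; exact mul_mem hx hy
  | inv x _ hx =>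
    have e : (⟨1, x⁻¹, 1⟩ : Tri) = ⟨1, x, 1⟩⁻¹ :=
      Tri.ext (by simp) (funext fun i => by simp) (by simp)
    rw [e]; exact inv_mem hx

/-- Generators of the power `K ^ m`. -/
def pw (m : ℕ) (K : Grp) : List (List FP) :=
  (List.range m).flatMap fun b => K.gens.map fun k =>
    (List.range m).map fun i => bif Nat.beq i b then k else 1

theorem getD_map_range {m i : ℕ} (f : ℕ → FP) :
    ((List.range m).map f).getD i 1 = if i < m then f i else 1 := by
  by_cases hi : i < m <;> simp [List.getD_eq_getElem?_getD, hi]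

variable [KA]

theorem pt_pw : PT fun p : ℕ × Grp => pw p.1 p.2 := by unfold pw; fun_prop

theorem pw_entry {m : ℕ} {K : Grp} {u : List FP} (hu : u ∈ pw m K) {a : FP} (ha : a ∈ u) :
    a ∈ K.1 := by
  simp only [pw, List.mem_flatMap, List.mem_map] at hu
  obtain ⟨b, -, k, hk, rfl⟩ := hu
  obtain ⟨i, -, rfl⟩ := List.mem_map.1 ha
  cases Nat.beq i b
  · exact one_mem _
  · exact KG.mem_of_gens hk

theorem pw_le {m : ℕ} {K : Grp} {u : ℕ → FP} (hu : u ∈ tupG (pw m K)) (i : ℕ) : u i ∈ K.1 := by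
  unfold tupG at hu
  induction hu using Subgroup.closure_induction with
  | mem x hx =>
    obtain ⟨d, hd, rfl⟩ := hx
    show d.getD i 1 ∈ K.1
    rw [List.getD_eq_getElem?_getD]
    cases h : d[i]? with
    | none => exact one_mem _
    | some a => exact pw_entry hd (List.mem_of_getElem? h)
  | one => exact one_mem _
  | mul x y _ _ hx hy => exact mul_mem hx hy
  | inv x _ hx => exact inv_mem hx

theorem single_mem {m b : ℕ} (hb : b < m) {K : Grp} {k : FP} (hk : k ∈ K.1) :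
    (fun i => if i = b then k else 1) ∈ tupG (pw m K) := by
  rw [← KG.closure_gens] at hk
  induction hk using Subgroup.closure_induction with
  | mem x hx =>
    refine Subgroup.subset_closure ⟨(List.range m).map fun i => bif Nat.beq i b then x else 1, ?_,
      funext fun i => ?_⟩
    · simp only [pw, List.mem_flatMap, List.mem_map]
      exact ⟨b, List.mem_range.2 hb, x, hx, rfl⟩
    · rw [getD_map_range]
      by_cases h : i = b
      · subst h; simp [hb]
      · have : Nat.beq i b = false := by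
          rw [← Bool.not_eq_true, Nat.beq_eq]; exact h
        simp [h, this]
  | one =>
    have e : (fun i => if i = b then (1 : FP) else 1) = 1 := funext fun i => by simp
    rw [e]; exact one_mem _
  | mul x y _ _ hx hy =>
    have e : (fun i => if i = b then x * y else 1) =
        (fun i => if i = b then x else 1) * fun i => if i = b then y else 1 :=
      funext fun i => by by_cases h : i = b <;> simp [h]
    rw [e]; exact mul_mem hx hy
  | inv x _ hx =>
    have e : (fun i => if i = b then x⁻¹ else 1) = (fun i => if i = b then x else 1)⁻¹ :=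
      funext fun i => by by_cases h : i = b <;> simp [h]
    rw [e]; exact inv_mem hx

theorem pw_ex {m : ℕ} {K : Grp} (u : ℕ → FP) (hu : ∀ i < m, u i ∈ K.1) :
    ∃ v ∈ tupG (pw m K), ∀ i < m, v i = u i := by
  have key : ∀ j ≤ m, (fun i => if i < j then u i else 1) ∈ tupG (pw m K) := by
    intro j
    induction j with
    | zero =>
      intro _
      have e : (fun i => if i < 0 then u i else 1) = 1 := funext fun i => by simp
      rw [e]; exact one_mem _
    | succ j ih =>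
      intro hj
      have e : (fun i => if i < j + 1 then u i else 1) =
          (fun i => if i < j then u i else 1) * fun i => if i = j then u j else 1 := by
        funext i
        rcases lt_trichotomy i j with h | h | h
        · simp [h, h.ne, Nat.lt_succ_of_lt h]
        · subst h; simp
        · simp [h.ne', not_lt.2 h.le, not_lt.2 (Nat.succ_le_of_lt h)]
      rw [e]
      exact mul_mem (ih (by omega)) (single_mem (by omega) (hu j (by omega)))
  exact ⟨_, key m le_rfl, fun i hi => by simp [hi]⟩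

theorem mem_pairs {L : Grp} (φ : FP →* FP) {d : FP × FP} :
    d ∈ Subgroup.closure {d | d ∈ L.gens.map fun l => (φ l, l)} ↔ d.2 ∈ L.1 ∧ d.1 = φ d.2 := by
  constructor
  · intro hd
    induction hd using Subgroup.closure_induction with
    | mem x hx =>
      obtain ⟨l, hl, rfl⟩ := List.mem_map.1 hx
      exact ⟨KG.mem_of_gens hl, rfl⟩
    | one => exact ⟨one_mem _, by simp⟩
    | mul x y _ _ hx hy => exact ⟨mul_mem hx.1 hy.1, by simp [hx.2, hy.2]⟩
    | inv x _ hx => exact ⟨inv_mem hx.1, by simp [hx.2]⟩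
  · obtain ⟨a, l⟩ := d
    rintro ⟨hl, ha⟩
    simp only at hl ha
    subst ha
    rw [← KG.closure_gens] at hl
    induction hl using Subgroup.closure_induction with
    | mem x hx => exact Subgroup.subset_closure (List.mem_map.2 ⟨x, hx, rfl⟩)
    | one => rw [map_one]; exact one_mem _
    | mul x y _ _ hx hy => rw [map_mul]; exact mul_mem hx hy
    | inv x _ hx => rw [map_inv]; exact inv_mem hx

/-- The common core of the two conjugacy filters. -/
theorem core {g : ℕ × ℕ × List (FP × FP) × List (List FP) × List FP × List FP → Cos}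
    (hs : ∀ n m ps us gs hs, (∀ d ∈ ps, d.1 ∈ Sy m ∧ d.2 ∈ Sy n) → (∀ u ∈ us, ∀ a ∈ u, a ∈ Sy n) →
      (∀ a ∈ gs, a ∈ Sy n) → (∀ a ∈ hs, a ∈ Sy n) →
      (∀ d ∈ Subgroup.closure {d | d ∈ ps}, ∀ u ∈ tupG us, ∃ v ∈ tupG us,
        ∀ i < m, v (d.1 • i) = d.2 * u i * d.2⁻¹) →
      ∀ l, l ∈ g (n, m, ps, us, gs, hs) ↔ ∃ π, (π, l) ∈ Subgroup.closure {d | d ∈ ps} ∧
        ∃ u ∈ tupG us, ∀ i < m, l * gs.getD i 1 * l⁻¹ = hs.getD (π • i) 1 * u (π • i))
    (φ : FP →* FP) {n m : ℕ} {L K : Grp} {gs ks : List FP} (hφ : ∀ l ∈ L.1, φ l ∈ Sy m)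
    (hL : L.1 ≤ Sy n) (hK : K.1 ≤ Sy n) (hN : Nm L.1 K.1) (hg : ∀ a ∈ gs, a ∈ Sy n)
    (hk : ∀ a ∈ ks, a ∈ Sy n) (l : FP) :
    l ∈ g (n, m, L.gens.map fun l => (φ l, l), pw m K, gs, ks) ↔
      l ∈ L.1 ∧ ∀ b < m, (ks.getD (φ l • b) 1)⁻¹ * (l * gs.getD b 1 * l⁻¹) ∈ K.1 := by
  rw [hs n m _ _ gs ks ?_ (fun u hu a ha => hK (pw_entry hu ha)) hg hk ?_]
  · constructor
    · rintro ⟨π, hπ, u, hu, h⟩
      obtain ⟨h1, h2⟩ := (mem_pairs φ).1 hπ
      simp only at h1 h2
      subst h2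
      refine ⟨h1, fun b hb => ?_⟩
      rw [h b hb, inv_mul_cancel_left]
      exact pw_le hu _
    · rintro ⟨h1, h2⟩
      obtain ⟨v, hv, hv2⟩ := pw_ex (m := m) (K := K)
        (fun j => (ks.getD j 1)⁻¹ * (l * gs.getD ((φ l)⁻¹ • j) 1 * l⁻¹)) fun j hj => by
          have := h2 _ ((smul_lt (inv_mem (hφ l h1))).2 hj)
          rwa [smul_inv_smul] at this
      refine ⟨φ l, (mem_pairs φ).2 ⟨h1, rfl⟩, v, hv, fun i hi => ?_⟩
      rw [hv2 _ ((smul_lt (hφ l h1)).2 hi), inv_smul_smul, mul_inv_cancel_left]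
  · intro d hd
    obtain ⟨a, ha, rfl⟩ := List.mem_map.1 hd
    exact ⟨hφ a (KG.mem_of_gens ha), hL (KG.mem_of_gens ha)⟩
  · intro d hd u hu
    obtain ⟨h1, h2⟩ := (mem_pairs φ).1 hd
    obtain ⟨v, hv, hv2⟩ := pw_ex (m := m) (K := K) (fun j => d.2 * u (d.1⁻¹ • j) * d.2⁻¹)
      fun j _ => hN _ h1 _ (pw_le hu _)
    refine ⟨v, hv, fun i hi => ?_⟩
    rw [hv2 _ (by rw [h2]; exact (smul_lt (hφ _ h1)).2 hi), inv_smul_smul]

end CJ

theorem b_cjp [KA] (h : S_gf) : S_cjp := by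
  obtain ⟨g, hg, hs⟩ := h
  refine ⟨fun p => g (p.1, p.2.1, CJ.trs p.2.1 p.2.2.1 p.2.2.2.1, Finset.range p.2.1,
    Finset.range p.2.1, p.2.2.2.2.1, p.2.2.2.2.2), ?_, ?_⟩
  · refine OT.comp hg (OT.of_pt ?_)
    unfold CJ.trs
    fun_prop
  · intro n m ps us gs ks hp hu hgs hks hst l
    have hok : OkT n m (CJ.trs m ps us) := by
      intro d hd
      rcases CJ.mem_trs.1 hd with ⟨e, he, rfl⟩ | ⟨u, hu', rfl⟩
      · exact ⟨(hp e he).1, fun a ha => by
          rw [List.eq_of_mem_replicate ha]; exact (hp e he).2, (hp e he).2⟩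
      · exact ⟨one_mem _, hu u hu', one_mem _⟩
    have hp1 : ∀ d ∈ ps, d.1 ∈ Sy m := fun d hd => (hp d hd).1
    show l ∈ g (n, m, CJ.trs m ps us, Finset.range m, Finset.range m, gs, ks) ↔ _
    rw [hs n m _ _ _ gs ks hok (fun i hi => Finset.mem_range.1 hi)
      (fun i hi => Finset.mem_range.1 hi) hgs hks]
    constructor
    · rintro ⟨t, ht, rfl, -, h2⟩
      obtain ⟨h3, u, hu', h4⟩ := CJ.inv_tri hp1 hst ht
      refine ⟨t.p, h3, u, hu', fun i hi => ?_⟩
      rw [h2 i (Finset.mem_range.2 hi), h4 i hi]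
      group
    · rintro ⟨π, hπ, u, hu', h2⟩
      obtain ⟨t, ht, h3, h4, h5⟩ := CJ.ex_pair us hp1 hπ
      simp only at h3 h4 h5
      have hπ' : π ∈ Sy m := CJ.fst_mem hp1 hπ
      refine ⟨⟨1, u, 1⟩ * t, mul_mem (CJ.ex_tup m ps hu') ht, by simp [h4], fun i => ?_,
        fun i hi => ?_⟩
      · simp only [Tri.mul_p, one_mul, h3, Finset.mem_range, smul_lt hπ']
      · have hi' := Finset.mem_range.1 hi
        simp only [Tri.mul_p, Tri.mul_a, one_mul, h3, h5 i hi']
        rw [← mul_assoc, ← h2 i hi']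
        group

theorem b_cf [KA] (h : S_cjp) : S_cf := by
  obtain ⟨g, hg, hs⟩ := h
  refine ⟨fun p => g (p.1, p.1, p.2.1.gens.map fun l => (l, l), CJ.pw p.1 p.2.2.1, p.2.2.2.1,
    p.2.2.2.2), ?_, ?_⟩
  · refine OT.comp hg (OT.of_pt ?_)
    unfold CJ.pw
    fun_prop
  · intro n L K gs ks hL hK hN hgs hks l
    exact CJ.core hs (MonoidHom.id FP) (fun l hl => hL hl) hL hK hN hgs hks l

theorem b_cf0 [KA] (h : S_cjp) : S_cf0 := by
  obtain ⟨g, hg, hs⟩ := h
  refine ⟨fun p => g (p.1, p.2.2.2.1.length, p.2.1.gens.map fun l => (1, l),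
    CJ.pw p.2.2.2.1.length p.2.2.1, p.2.2.2.1, p.2.2.2.2), ?_, ?_⟩
  · refine OT.comp hg (OT.of_pt ?_)
    unfold CJ.pw
    fun_prop
  · intro n L K gs ks hL hK hN hgs hks l
    have := CJ.core hs (1 : FP →* FP) (m := gs.length) (fun l _ => one_mem _) hL hK hN hgs hks l
    simp only [MonoidHom.one_apply, one_smul] at this
    exact this

end

end Pool.Agent.Lib.E6
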