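import Pool.Agent.Lib.E6.Spec

/-! E6 block ROUND: one round of the embedding procedure. -/

namespace Pool.Agent.Lib.E6

open Equiv Pool.Agent.Lib.helper80 Pool.Agent.Lib.MP_e519cf_lc Polynomial

noncomputable section
open Classical

namespace ROUND

set_option linter.unusedSectionVars false

variable [KA]

theorem self_so (M : Grp) : ∀ h ∈ M.1, ∀ x, So M.1 x (h • x) := fun h hh _ => ⟨h, hh, rfl⟩

theorem hat_B {n : ℕ} {M : Grp} (h : M.1 ≤ (symB n).1) : (M.hat M).1 ≤ (symB n).1 := fun _ hx =>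
  M3.mem_symB.2 ⟨M3h.hat_fx (self_so M) (fun _ hx => (M3.mem_symB.1 (h hx)).1) hx,
    M3h.hat_fx (self_so M) (fun _ hx => (M3.mem_symB.1 (h hx)).2) hx⟩

theorem hat_nm {LL : SG} {M : Grp} (h : Nm LL M.1) : Nm LL (M.hat M).1 := M1.nm_of_cj fun g hg => by
  have e := M3h.hat_cj g (self_so M)
  rw [show Grp.cj g M = M from Grp.ext (M1.cj_of_nm h hg)] at e
  exact (congrArg Grp.val e).symm

theorem hat_orb (M : Grp) (x y : ℕ) : So (M.hat M).1 x y ↔ So M.1 x y :=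
  ⟨fun ⟨_, hg, e⟩ => e ▸ M3h.hat_so (self_so M) hg x,
    fun ⟨g, hg, e⟩ => ⟨g, M3h.le_hat (self_so M) hg, e⟩⟩

theorem hat_sst (M : Grp) (a : ℕ) : (M.hat M).1 ≤ sst (M.orb a) := by
  rw [← M3.orb_congr (hat_orb M) a]; exact M3.le_sst_orb _ _

theorem hat_closed (M : Grp) (a : ℕ) : ∀ j ∈ (M.hat M).1, res (M.orb a) j ∈ (M.hat M).1 := by
  intro j hj
  obtain ⟨h, hh, e⟩ := M3h.hat_res a (self_so M) hj
  rw [e, M3h.hat_eq (self_so M)]
  exact Subgroup.subset_closure ⟨a, h, hh, rfl⟩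

/-- If the product of constituents is perfect, so is every constituent. -/
theorem perf {M : Grp} (h : (M.hat M).1 ≤ ⁅(M.hat M).1, (M.hat M).1⁆) (a : ℕ) :
    M.1 ≤ ⁅M.1, M.1⁆ ⊔ (M.fix (M.orb a)).1 := by
  have key : ∀ y ∈ ⁅(M.hat M).1, (M.hat M).1⁆, y ∈ sst (M.orb a) ∧
      ∃ m ∈ ⁅M.1, M.1⁆, res (M.orb a) y = res (M.orb a) m := by
    intro y hy
    have hs := M3.le_sst_orb M a
    have hc := (M1.comm_self_le M.1).trans hs
    rw [Subgroup.commutator_def] at hy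
    induction hy using Subgroup.closure_induction with
    | mem x hx =>
      obtain ⟨u, hu, w, hw, rfl⟩ := hx
      obtain ⟨u', hu', e1⟩ := M3h.hat_res a (self_so M) hu
      obtain ⟨w', hw', e2⟩ := M3h.hat_res a (self_so M) hw
      have h1 := hat_sst M a hu
      have h2 := hat_sst M a hw
      have h3 := hs hu'
      have h4 := hs hw'
      refine ⟨mul_mem (mul_mem (mul_mem h1 h2) (inv_mem h1)) (inv_mem h2), _,
        Subgroup.commutator_mem_commutator hu' hw', ?_⟩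
      rw [commutatorElement_def, commutatorElement_def,
        M3.res_mul (mul_mem (mul_mem h1 h2) (inv_mem h1)) (inv_mem h2),
        M3.res_mul (mul_mem h1 h2) (inv_mem h1), M3.res_mul h1 h2, M3.res_inv h1, M3.res_inv h2,
        M3.res_mul (mul_mem (mul_mem h3 h4) (inv_mem h3)) (inv_mem h4),
        M3.res_mul (mul_mem h3 h4) (inv_mem h3), M3.res_mul h3 h4, M3.res_inv h3, M3.res_inv h4,
        e1, e2]
    | one => exact ⟨one_mem _, 1, one_mem _, rfl⟩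
    | mul x y _ _ hx hy =>
      obtain ⟨h1, u, hu, e1⟩ := hx
      obtain ⟨h2, w, hw, e2⟩ := hy
      exact ⟨mul_mem h1 h2, u * w, mul_mem hu hw, by
        rw [M3.res_mul h1 h2, M3.res_mul (hc hu) (hc hw), e1, e2]⟩
    | inv x _ hx =>
      obtain ⟨h1, u, hu, e1⟩ := hx
      exact ⟨inv_mem h1, u⁻¹, inv_mem hu, by rw [M3.res_inv h1, M3.res_inv (hc hu), e1]⟩
  intro g hg
  obtain ⟨h1, m, hm, e⟩ := key g (h (M3h.le_hat (self_so M) hg))
  have hm' := M1.comm_self_le M.1 hm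
  have : m⁻¹ * g ∈ (M.fix (M.orb a)).1 := ⟨M.1.mul_mem (M.1.inv_mem hm') hg, fun x hx => by
    have e1 := congrArg (· • x) e
    simp only [M3.res_smul h1, M3.res_smul (M3.le_sst_orb M a hm'), if_pos (Finset.mem_coe.1 hx)] at e1
    rw [mul_smul, e1, inv_smul_smul]⟩
  simpa using mul_mem (Subgroup.mem_sup_left hm) (Subgroup.mem_sup_right this)

theorem not_le {M : Grp}
    (h : (Grp.top (M.hat M) Grp.bot) ≠ M.hat M) :
    ¬ M.1 ≤ ((Grp.top (M.hat M) Grp.bot).hat (Grp.top (M.hat M) Grp.bot)).1 := by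
  intro hle
  set Γ := Grp.top (M.hat M) Grp.bot with hΓ
  have h1 : Γ.1 ≤ (M.hat M).1 := M4.yq_le _ bot_le
  have so : ∀ x y, So Γ.1 x y ↔ So M.1 x y := fun x y =>
    ⟨fun ⟨g, hg, e⟩ => (hat_orb M x y).1 ⟨g, h1 hg, e⟩,
      fun ⟨g, hg, e⟩ => (hat_orb Γ x y).1 ⟨g, hle hg, e⟩⟩
  have h2 : ∀ a, ∀ y ∈ Γ.1, res (M.orb a) y ∈ Γ.1 := fun a =>
    M4.yq_res (hat_sst M a) (hat_closed M a)
  have h3 : (Γ.hat Γ).1 ≤ Γ.1 := by
    rw [M3h.hat_eq (self_so Γ), Subgroup.closure_le]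
    rintro _ ⟨a, y, hy, rfl⟩
    rw [M3.orb_congr so a]; exact h2 a y hy
  refine h (Grp.ext (le_antisymm h1 ?_))
  rw [M3h.hat_eq (self_so M), Subgroup.closure_le]
  rintro _ ⟨a, y, hy, rfl⟩
  exact h2 a y (h3 (hle hy))

section
variable {n p : ℕ} {L K1 K2 LL LA : Grp}

theorem lftK (k : Lk n L K1 K2 LL LA) {g : FP} (hg : g ∈ LA.1) : lft n g ∈ K1.1 :=
  k.covK ▸ Subgroup.mem_sup_left ((M3.mem_con (k.ni.1.trans k.pres)).2 ⟨g, hg, rfl⟩)

theorem covers (v : VEmb n p L.1 K1.1 K2.1) (k : Lk n L K1 K2 LL LA) {J : Grp}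
    (hJ : J.1 ≤ (symB n).1) (hN : Nm LL.1 J.1)
    (h : (LA.con (RH n)).1 ≤ ⁅(LA.con (RH n)).1, (LA.con (RH n)).1⁆ ⊔ J.1) :
    ((ovr n LA J).con (Finset.range n)).1 ⊔ K2.1 = K1.1 := by
  obtain ⟨m1, m2, m3⟩ := M7.lk_M k
  have pr : LA.1 ≤ sst (Finset.range n) := k.ni.1.trans k.pres
  have pR : LA.1 ≤ sst (RH n) := fun g hg => M3.sst_RH (k.le (k.ni.1 hg)) (pr hg)
  have key : ∀ y ∈ ⁅(LA.con (RH n)).1, (LA.con (RH n)).1⁆,
      ∃ g ∈ LA.1, rgt n g = y ∧ lft n g ∈ K2.1 := by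
    intro y hy
    rw [Subgroup.commutator_def] at hy
    induction hy using Subgroup.closure_induction with
    | mem x hx =>
      obtain ⟨u0, hu0, w0, hw0, rfl⟩ := hx
      obtain ⟨u, hu, rfl⟩ := (m3 u0).1 hu0
      obtain ⟨w, hw, rfl⟩ := (m3 w0).1 hw0
      refine ⟨u * w * u⁻¹ * w⁻¹, mul_mem (mul_mem (mul_mem hu hw) (inv_mem hu)) (inv_mem hw), ?_, ?_⟩
      · rw [commutatorElement_def, rgt, M3.res_mul (pR (mul_mem (mul_mem hu hw) (inv_mem hu)))
          (pR (inv_mem hw)), M3.res_mul (pR (mul_mem hu hw)) (pR (inv_mem hu)),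
          M3.res_mul (pR hu) (pR hw), M3.res_inv (pR hu), M3.res_inv (pR hw)]
        rfl
      · rw [lft, M3.res_mul (pr (mul_mem (mul_mem hu hw) (inv_mem hu)))
          (pr (inv_mem hw)), M3.res_mul (pr (mul_mem hu hw)) (pr (inv_mem hu)),
          M3.res_mul (pr hu) (pr hw), M3.res_inv (pr hu), M3.res_inv (pr hw)]
        exact v.ea.2.1 _ (lftK k hu) _ (lftK k hw)
    | one => exact ⟨1, one_mem _, M3.res_one _, by rw [lft, M3.res_one]; exact one_mem _⟩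
    | mul x y _ _ hx hy =>
      obtain ⟨u, hu, rfl, e1⟩ := hx
      obtain ⟨w, hw, rfl, e2⟩ := hy
      exact ⟨u * w, mul_mem hu hw, M3.res_mul (pR hu) (pR hw), by
        rw [lft, M3.res_mul (pr hu) (pr hw)]; exact mul_mem e1 e2⟩
    | inv x _ hx =>
      obtain ⟨u, hu, rfl, e1⟩ := hx
      exact ⟨u⁻¹, inv_mem hu, M3.res_inv (pR hu), by
        rw [lft, M3.res_inv (pr hu)]; exact inv_mem e1⟩
  refine le_antisymm (M7.ovr_test v k hJ hN).2 ?_
  rw [← k.covK]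
  refine sup_le (fun x hx => ?_) le_sup_right
  obtain ⟨g, hg, rfl⟩ := (M3.mem_con pr).1 hx
  have nj : Nm ⁅(LA.con (RH n)).1, (LA.con (RH n)).1⁆ J.1 := by
    intro y hy j hj
    obtain ⟨u, hu, rfl, -⟩ := key y hy
    have h1 := k.le (k.ni.1 hu)
    have e : rgt n u * j * (rgt n u)⁻¹ = u * j * u⁻¹ := by
      have h2 := hN u (k.ni.1 hu) j hj
      have h3 := M3.comm_halves (M3.lft_mem (pr hu))
        (mul_mem (mul_mem (M3.rgt_mem h1 (pr hu)) (hJ hj)) (inv_mem (M3.rgt_mem h1 (pr hu))))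
      conv_rhs => rw [← M3.lft_mul_rgt h1 (pr hu)]
      rw [mul_inv_rev, ← mul_assoc, eq_mul_inv_iff_mul_eq, ← h3]
      group
    rw [e]; exact hN u (k.ni.1 hu) j hj
  obtain ⟨y, hy, j, hj, e⟩ := (M1.mem_sup_nm nj).1 (h ((m3 _).2 ⟨g, hg, rfl⟩))
  obtain ⟨u, hu, rfl, e1⟩ := key y hy
  have h1 : u⁻¹ * g ∈ (ovr n LA J).1 := (M7.mem_ovr k hJ).2 ⟨mul_mem (inv_mem hu) hg, by
    rw [rgt, M3.res_mul (pR (inv_mem hu)) (pR hg), M3.res_inv (pR hu)]
    exact (show (rgt n u)⁻¹ * rgt n g ∈ J.1 by rw [e, inv_mul_cancel_left]; exact hj)⟩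
  have h2 := (M3.mem_con (S := Finset.range n) (H := ovr n LA J) (inf_le_left.trans pr)).2
    ⟨_, h1, rfl⟩
  rw [M3.res_mul (pr (inv_mem hu)) (pr hg), M3.res_inv (pr hu)] at h2
  simpa [lft] using mul_mem (Subgroup.mem_sup_right e1) (Subgroup.mem_sup_left h2)

theorem ne_bot (v : VEmb n p L.1 K1.1 K2.1) (k : Lk n L K1 K2 LL LA) {M : Grp}
    (hM : M = LA.con (RH n)) (hn : ¬ EA p M.1 ⊥) (h : Grp.top (M.hat M) Grp.bot ≠ M.hat M) :
    ((Grp.top (M.hat M) Grp.bot).hat (Grp.top (M.hat M) Grp.bot)).1 ≠ ⊥ := by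
  intro e
  obtain ⟨m1, -, m3⟩ := M7.lk_M k
  rw [← hM] at m1 m3
  have h1 : top (M.hat M).1 ⊥ = ⊥ := le_bot_iff.1 ((M3h.le_hat (self_so (Grp.top (M.hat M) Grp.bot))).trans e.le)
  have h2 := M4.yq_ea (pq (M.hat M).1 ⊥) (E := (M.hat M).1) (D := ⊥) bot_le
  rw [show yq (pq (M.hat M).1 ⊥) (M.hat M).1 ⊥ = ⊥ from h1] at h2
  have h3 := M1.ea_mono h2 (M3h.le_hat (self_so M)) le_rfl bot_le
  have hq := (M4.pq_prime (fun x hx => (M3.mem_symB.1 (hat_B m1 hx)).1) bot_le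
    fun e => h (Grp.ext e)).1
  obtain ⟨g, hg, hg'⟩ := M7.lk_ne v k
  have pr := k.pres (k.ni.1 hg)
  refine hg' (M1.mem_of_coprime ((Nat.coprime_primes v.pp hq).2 fun e => hn (e ▸ h3))
    (v.ea.2.2 _ (lftK k hg)) ?_)
  rw [lft, ← M3.res_pow _ pr]
  refine k.ker _ (pow_mem hg _) ?_
  rw [rgt, M3.res_pow _ (M3.sst_RH (k.le (k.ni.1 hg)) pr)]
  exact Subgroup.mem_bot.1 (h3.2.2 _ ((m3 _).2 ⟨g, hg, rfl⟩))

end

def MM (a : CI) : Grp := a.Z.con (RH a.1)
def Ga (a : CI) : Grp := Grp.top ((MM a).hat (MM a)) Grp.bot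
def Jb (a : CI) : Grp := (Ga a).hat (Ga a)
def Kb (a : CI) : Grp := ((ovr a.1 a.Z (Jb a)).con (Finset.range a.1)).sup a.Y

def prog (mp : ℕ × Grp × Grp × List Grp → List Grp) (a : CI) : Bool × Grp × Grp :=
  bif eqb (Ga a) ((MM a).hat (MM a)) then
    (false, a.X, ovr a.1 a.Z (infL (MM a) (mp (2 * a.1, MM a, Grp.bot, kers (MM a) (RH a.1)))))
  else bif eqb (Kb a) a.D then (false, a.X, ovr a.1 a.Z (Jb a))
  else bif eqb (Kb a) a.Y then
    (false, (a.X.sup (Jb a)).stab ((Jb a).reps (2 * a.1)), (a.Z.sup (Jb a)).stab ((Jb a).reps (2 * a.1)))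
  else (true, Kb a, Grp.bot)

@[fun_prop] theorem pt_MM : PT MM := by unfold MM; fun_prop
@[fun_prop] theorem pt_Ga : PT Ga := by unfold Ga; fun_prop
@[fun_prop] theorem pt_Jb : PT Jb := by unfold Jb; fun_prop

theorem ot_prog (h : Prim) {mp : ℕ × Grp × Grp × List Grp → List Grp} (hm : OT mp) :
    OT (prog mp) := by
  have h1 := h.inf
  have h2 := h.infL
  unfold S_inf at h1
  unfold S_infL at h2
  have h3 : OT fun p : ℕ × Grp × Grp => ovr p.1 p.2.1 p.2.2 := by unfold ovr; fun_prop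
  have h4 : OT Kb := by unfold Kb; fun_prop
  unfold prog; fun_prop

end ROUND

open ROUND in
theorem b_round [KA] (h : Prim) (hm : S_maxprod) : S_round := by
  obtain ⟨mp, hmp, hs⟩ := hm
  refine ⟨prog mp, ot_prog h hmp, fun n p L K1 K2 LL LA v k hn r hr => ?_⟩
  obtain ⟨m1, m2, m3⟩ := M7.lk_M k
  set a : CI := (n, p, L, K1, K2, LL, LA) with ha
  have eM : MM a = LA.con (RH n) := rfl
  rw [← eM] at m1 m2 m3 hn
  have M2n : (MM a).1 ≤ Sy (2 * n) := fun x hx => (M3.mem_symB.1 (m1 hx)).1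
  rw [prog] at hr
  cases c1 : eqb (Ga a) ((MM a).hat (MM a))
  · rw [c1, cond_false] at hr
    have c1' : Ga a ≠ (MM a).hat (MM a) := by simpa using c1
    have hG : (Ga a).1 ≤ ((MM a).hat (MM a)).1 := M4.yq_le _ bot_le
    have hJ : (Jb a).1 ≤ (symB n).1 := hat_B (hG.trans (hat_B m1))
    have hN : Nm LL.1 (Jb a).1 := hat_nm (M4.nm_top (hat_nm m2) fun _ _ d hd => by
      rw [Subgroup.mem_bot.1 hd]; simp)
    obtain ⟨t1, t2⟩ := M7.ovr_test v k hJ hN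
    cases c2 : eqb (Kb a) a.D
    · rw [c2, cond_false] at hr
      cases c3 : eqb (Kb a) a.Y
      · rw [c3, cond_false] at hr
        subst hr
        refine ⟨fun _ => ⟨t1, lt_of_le_of_ne le_sup_right fun e => ?_,
          lt_of_le_of_ne t2 fun e => ?_, rfl⟩, fun h => by simp at h⟩
        · exact (eqb_false _ _).1 c3 (Grp.ext e.symm)
        · exact (eqb_false _ _).1 c2 (Grp.ext e)
      · rw [c3, cond_true] at hr
        subst hr
        have e := congrArg Grp.val ((eqb_iff _ _).1 c3)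
        refine ⟨fun h => by simp at h, fun _ => M7.enlarge k hJ hN (le_sup_left.trans e.le)
          (ne_bot v k eM hn c1') (fun j hj b => ?_) fun j hj x => ?_⟩
        · rw [show (Jb a).orb b = (Ga a).orb b from M3.orb_congr (hat_orb _) b]
          exact hat_closed _ b j hj
        · obtain ⟨g, hg, e⟩ := M3h.hat_so (self_so _) hj x
          exact (hat_orb _ _ _).1 ⟨g, hG hg, e⟩
    · rw [c2, cond_true] at hr
      subst hr
      exact ⟨fun h => by simp at h, fun _ => M7.shrink k hJ hN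
        (congrArg Grp.val ((eqb_iff _ _).1 c2)) (not_le c1')⟩
  · rw [c1, cond_true] at hr
    subst hr
    have c1' := congrArg Grp.val ((eqb_iff _ _).1 c1)
    have hp := (M4.top_eq_iff (fun x hx => (M3.mem_symB.1 (hat_B m1 hx)).1) bot_le).1 c1'
    rw [sup_bot_eq] at hp
    have nb : NI (MM a).1 ⊥ := ⟨bot_le, fun _ _ d hd => by rw [Subgroup.mem_bot.1 hd]; simp⟩
    have ok : MPok (2 * n) (MM a).1 Grp.bot.1 (vals (kers (MM a) (RH n))) := by
      refine ⟨M2n, nb, M5.kers_ni _ _, ?_⟩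
      rintro _ ⟨N, hN, rfl⟩
      obtain ⟨w, -, rfl⟩ := List.mem_map.1 hN
      exact (perf hp w).trans le_sup_left
    obtain ⟨-, s2⟩ := hs _ _ _ _ ok
    have eJ : (infL (MM a) (mp (2 * n, MM a, Grp.bot, kers (MM a) (RH n)))).1 =
        JJ (MM a) Grp.bot (RH n) := by
      rw [M6.infL_val, JJ]
      congr 2
      ext P
      constructor
      · rintro ⟨Q, hQ, rfl⟩; exact (s2 Q).1 hQ
      · intro hP
        exact ⟨⟨P, _, (M5.mp_basic ok hP).1.1.trans M2n⟩, (s2 _).2 hP, rfl⟩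
    have hJ : (infL (MM a) (mp (2 * n, MM a, Grp.bot, kers (MM a) (RH n)))).1 ≤ (symB n).1 := by
      rw [eJ]; exact inf_le_left.trans m1
    have hN : Nm LL.1 (infL (MM a) (mp (2 * n, MM a, Grp.bot, kers (MM a) (RH n)))).1 := by
      rw [eJ]
      refine M1.nm_of_cj fun g hg => ?_
      rw [← M5.jj_cj (M3.sst_RH (k.le hg) (k.pres hg)),
        show Grp.cj g (MM a) = MM a from Grp.ext (M1.cj_of_nm m2 hg),
        show Grp.cj g Grp.bot = Grp.bot from Grp.ext (M1.cj_bot g)]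
    refine ⟨fun h => by simp at h, fun _ => M7.shrink k hJ hN
      (covers v k hJ hN (eJ ▸ M5.mp_perf ok)) fun hle => ?_⟩
    have hb : (MM a).1 ≠ ⊥ := fun e => hn (by
      rw [e]
      exact ⟨le_rfl, fun x hx y hy => mul_mem (mul_mem (mul_mem hx hy) (inv_mem hx)) (inv_mem hy),
        fun x hx => pow_mem hx _⟩)
    obtain ⟨g, hg, hg1⟩ := (Subgroup.bot_or_exists_ne_one _).resolve_left hb
    obtain ⟨x, hx⟩ : ∃ x : ℕ, g • x ≠ x := by
      by_contra hc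
      push Not at hc
      exact hg1 (FP.ext fun x => by rw [hc x, one_smul])
    have hx' : x ∈ RH n := by
      obtain ⟨h1, h2⟩ := M3.mem_symB.1 (m1 hg)
      rw [M3.mem_RH]
      exact ⟨not_lt.1 fun h => hx (h2 x (by simpa using h)), not_le.1 fun h => hx (h1 x h)⟩
    obtain ⟨P, hP, -⟩ := M5.mp_exists ok (N := ((MM a).fix ((MM a).orb x)).1)
      ⟨_, List.mem_map.2 ⟨x, mem_els.2 hx', rfl⟩, rfl⟩ fun e => by
        rw [Grp.bot_val, bot_sup_eq] at e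
        rw [← e] at hg
        exact hx (hg.2 x (Grp.mem_orb.2 (M3.so_refl _ _)))
    obtain ⟨b1, -, b3, -⟩ := M5.mp_basic ok hP
    rw [eJ] at hle
    exact b3 (le_antisymm b1.1 (hle.trans (inf_le_right.trans (sInf_le hP))))

end

end Pool.Agent.Lib.E6
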