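import Pool.Agent.Lib.E6.B_HOM
import Pool.Agent.Lib.E6.B_SUB
import Pool.Agent.Lib.E6.B_ROUND

/-! E6 block ENP: normalisers of elementary abelian groups from the case of orbits of size `p`. -/

namespace Pool.Agent.Lib.E6

open Equiv Pool.Agent.Lib.helper80 Pool.Agent.Lib.MP_e519cf_lc Polynomial

noncomputable section
open Classical

namespace ENP

set_option linter.unusedSectionVars false

variable [KA]

/-- Move the blocks of size `p` by `π`, after acting by `τ` on block `c`. -/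
def wr (K p : ℕ) (π : FP) (c : ℕ) (τ : FP) : FP :=
  mkP (K * p) fun x => (π • (x / p)) * p + (bif eqb (x / p) c then τ else 1) • (x % p)

def cy (p : ℕ) : FP := mkP p fun b => (b + 1) % p

def sh (n : ℕ) (y : FP) : FP := sw n * y * (sw n)⁻¹

def nn (m p : ℕ) : ℕ := m + 2 * m * (2 * m) * p

def ee (m p c : ℕ) : FP := wr (2 * m * (2 * m)) p 1 c (cy p)

def rr (m p : ℕ) (g : FP) : FP := wr (2 * m * (2 * m)) p (prP (2 * m) g) 0 1

def LA (m p : ℕ) (A : Grp) : Grp :=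
  Grp.ofL ((List.range (2 * m * (2 * m))).map fun c => HOM.sig m A c * sh (nn m p) (ee m p c))

def LL (m p : ℕ) (A L : Grp) : Grp :=
  (Grp.ofL (L.gens.map fun g => g * sh (nn m p) (rr m p g))).sup (LA m p A)

@[fun_prop] theorem pt_wr : PT fun q : ℕ × ℕ × FP × ℕ × FP =>
    wr q.1 q.2.1 q.2.2.1 q.2.2.2.1 q.2.2.2.2 := by unfold wr; fun_prop
@[fun_prop] theorem pt_cy : PT cy := by unfold cy; fun_prop
@[fun_prop] theorem pt_sh : PT fun q : ℕ × FP => sh q.1 q.2 := by unfold sh; fun_prop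
@[fun_prop] theorem pt_nn : PT fun q : ℕ × ℕ => nn q.1 q.2 := by unfold nn; fun_prop
@[fun_prop] theorem pt_ee : PT fun q : ℕ × ℕ × ℕ => ee q.1 q.2.1 q.2.2 := by unfold ee; fun_prop
@[fun_prop] theorem pt_rr : PT fun q : ℕ × ℕ × FP => rr q.1 q.2.1 q.2.2 := by unfold rr; fun_prop
@[fun_prop] theorem pt_LA : PT fun q : ℕ × ℕ × Grp => LA q.1 q.2.1 q.2.2 := by
  unfold LA; fun_prop
@[fun_prop] theorem pt_LL : PT fun q : ℕ × ℕ × Grp × Grp => LL q.1 q.2.1 q.2.2.1 q.2.2.2 := by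
  unfold LL; fun_prop

omit [KA] in
theorem dv {a b p : ℕ} (hb : b < p) : (a * p + b) / p = a := by
  rw [add_comm, Nat.add_mul_div_right _ _ (by omega), Nat.div_eq_of_lt hb, zero_add]

omit [KA] in
theorem md {a b p : ℕ} (hb : b < p) : (a * p + b) % p = b := by
  rw [add_comm, Nat.add_mul_mod_self_right, Nat.mod_eq_of_lt hb]

omit [KA] in
theorem dec {K p x : ℕ} (hx : x < K * p) : ∃ a < K, ∃ b < p, x = a * p + b := by
  have hp : 0 < p := Nat.pos_of_ne_zero (by rintro rfl; simp at hx)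
  exact ⟨x / p, Nat.div_lt_of_lt_mul (by rwa [mul_comm] at hx), x % p, Nat.mod_lt _ hp, by
    rw [mul_comm]; exact (Nat.div_add_mod x p).symm⟩

omit [KA] in
theorem ext2 {K p : ℕ} {g h : FP} (hg : g ∈ Sy (K * p)) (hh : h ∈ Sy (K * p))
    (e : ∀ a < K, ∀ b < p, g • (a * p + b) = h • (a * p + b)) : g = h := by
  refine FP.ext fun x => ?_
  by_cases hx : x < K * p
  · obtain ⟨a, ha, b, hb, rfl⟩ := dec hx
    exact e a ha b hb
  · rw [hg x (not_lt.1 hx), hh x (not_lt.1 hx)]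

omit [KA] in
theorem wr_mem (K p : ℕ) (π : FP) (c : ℕ) (τ : FP) : wr K p π c τ ∈ Sy (K * p) := mkP_mem _ _

omit [KA] in
theorem wr_smul {K p : ℕ} {π τ : FP} (c : ℕ) (hπ : π ∈ Sy K) (hτ : τ ∈ Sy p) {a b : ℕ} (ha : a < K)
    (hb : b < p) : wr K p π c τ • (a * p + b) = (π • a) * p + (if a = c then τ else 1) • b := by
  have ht : ∀ a, (bif eqb a c then τ else 1) = if a = c then τ else 1 := fun a => by
    by_cases h : a = c <;> simp [h, eqb]
  have hm : ∀ a, (if a = c then τ else 1) ∈ Sy p := fun a => by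
    split_ifs
    · exact hτ
    · exact one_mem _
  rw [wr, mkP_smul, if_pos (by nlinarith), dv hb, md hb, ht]
  constructor
  · intro x hx
    obtain ⟨a, ha, b, hb, rfl⟩ := dec hx
    have h1 := (smul_lt hπ).2 ha
    have h2 := (smul_lt (hm a)).2 hb
    beta_reduce
    rw [dv hb, md hb, ht]
    nlinarith
  · intro x hx y hy e
    obtain ⟨a, ha, b, hb, rfl⟩ := dec hx
    obtain ⟨a', ha', b', hb', rfl⟩ := dec hy
    beta_reduce at e
    rw [dv hb, md hb, dv hb', md hb', ht, ht] at e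
    have e1 := congrArg (· / p) e
    beta_reduce at e1
    rw [dv ((smul_lt (hm a)).2 hb), dv ((smul_lt (hm a')).2 hb'), smul_left_cancel_iff] at e1
    subst e1
    rw [Nat.add_left_cancel_iff, smul_left_cancel_iff] at e
    rw [e]

omit [KA] in
theorem cy_mem (p : ℕ) : cy p ∈ Sy p := mkP_mem _ _

omit [KA] in
theorem cy_smul {p b : ℕ} (hb : b < p) : cy p • b = (b + 1) % p := by
  rw [cy, mkP_smul, if_pos hb]
  refine ⟨fun x _ => Nat.mod_lt _ (by omega), fun x hx y hy e => ?_⟩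
  have : x % p = y % p := Nat.ModEq.add_right_cancel' 1 e
  rwa [Nat.mod_eq_of_lt hx, Nat.mod_eq_of_lt hy] at this

omit [KA] in
theorem cy_pow {p b : ℕ} (hb : b < p) (k : ℕ) : cy p ^ k • b = (b + k) % p := by
  induction k with
  | zero => simp [Nat.mod_eq_of_lt hb]
  | succ k ih =>
    rw [pow_succ', mul_smul, ih, cy_smul (Nat.mod_lt _ (by omega)), Nat.mod_add_mod, add_assoc]

section
variable {m p : ℕ}

omit [KA] in
theorem ee_mem (c : ℕ) : ee m p c ∈ Sy (2 * m * (2 * m) * p) := wr_mem _ _ _ _ _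

omit [KA] in
theorem ee_smul (c : ℕ) {a b : ℕ} (ha : a < 2 * m * (2 * m)) (hb : b < p) :
    ee m p c • (a * p + b) = a * p + (if a = c then cy p else 1) • b := by
  rw [ee, wr_smul c (one_mem _) (cy_mem p) ha hb, one_smul]

omit [KA] in
theorem rr_smul (g : FP) {a b : ℕ} (ha : a < 2 * m * (2 * m)) (hb : b < p) :
    rr m p g • (a * p + b) = (prP (2 * m) g • a) * p + b := by
  rw [rr, wr_smul (π := prP (2 * m) g) 0 (mkP_mem _ _) (one_mem _) ha hb, ite_self, one_smul]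

omit [KA] in
theorem it_lt (a c : ℕ) {b : ℕ} (hb : b < p) : (if a = c then cy p else 1) • b < p := by
  split_ifs
  · exact (smul_lt (cy_mem p)).2 hb
  · rwa [one_smul]

omit [KA] in
theorem ee_comm (c d : ℕ) : ee m p c * ee m p d = ee m p d * ee m p c := by
  refine ext2 (mul_mem (ee_mem c) (ee_mem d)) (mul_mem (ee_mem d) (ee_mem c)) fun a ha b hb => ?_
  rw [mul_smul, mul_smul, ee_smul d ha hb, ee_smul c ha hb, ee_smul c ha (it_lt a d hb),
    ee_smul d ha (it_lt a c hb)]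
  split_ifs <;> simp

omit [KA] in
theorem ee_pow (c : ℕ) : ee m p c ^ p = 1 := by
  have key : ∀ k, ∀ a < 2 * m * (2 * m), ∀ b < p,
      ee m p c ^ k • (a * p + b) = a * p + (if a = c then cy p else 1) ^ k • b := by
    intro k
    induction k with
    | zero => intro a _ b _; simp
    | succ k ih =>
      intro a ha b hb
      rw [pow_succ, pow_succ, mul_smul, mul_smul, ee_smul c ha hb, ih a ha _ (it_lt a c hb)]
  refine ext2 (pow_mem (ee_mem c) p) (one_mem _) fun a ha b hb => ?_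
  rw [key p a ha b hb, one_smul]
  split_ifs
  · rw [cy_pow hb, Nat.add_mod_right, Nat.mod_eq_of_lt hb]
  · simp

omit [KA] in
theorem rr_cj (g : FP) (c : ℕ) :
    rr m p g * ee m p c * (rr m p g)⁻¹ = ee m p (prP (2 * m) g • c) := by
  rw [mul_inv_eq_iff_eq_mul]
  refine ext2 (mul_mem (wr_mem _ _ _ _ _) (ee_mem c)) (mul_mem (ee_mem _) (wr_mem _ _ _ _ _))
    fun a ha b hb => ?_
  rw [mul_smul, mul_smul, ee_smul c ha hb, rr_smul g ha (it_lt a c hb), rr_smul g ha hb,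
    ee_smul _ ((smul_lt (g := prP (2 * m) g) (mkP_mem _ _)).2 ha) hb]
  simp only [smul_left_cancel_iff]

omit [KA] in
theorem ee_div (c x : ℕ) : (ee m p c • x) / p = x / p := by
  by_cases hx : x < 2 * m * (2 * m) * p
  · obtain ⟨a, ha, b, hb, rfl⟩ := dec hx
    rw [ee_smul c ha hb, dv hb, dv (it_lt a c hb)]
  · rw [ee_mem c x (not_lt.1 hx)]

/-- The group generated by the cycles. -/
def CY (m p : ℕ) : Grp := Grp.ofL ((List.range (2 * m * (2 * m))).map fun c => ee m p c)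

omit [KA] in
theorem CY_orb (hp : 0 < p) (x : ℕ) : ((CY m p).orb x).card ≤ p := by
  have key : ∀ g ∈ (CY m p).1, ∀ x : ℕ, (g • x) / p = x / p := by
    intro g hg
    induction hg using Subgroup.closure_induction with
    | mem g hg =>
      obtain ⟨c, -, rfl⟩ := List.mem_map.1 hg
      exact ee_div c
    | one => intro x; rw [one_smul]
    | mul g h _ _ hg hh => intro x; rw [mul_smul, hg, hh]
    | inv g _ hg => intro x; rw [← hg, smul_inv_smul]
  refine le_trans (Finset.card_le_card_of_injOn (t := Finset.range p) (fun y => y % p)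
    (fun y _ => by simpa using Nat.mod_lt y hp) fun y hy z hz e => ?_) (by simp)
  obtain ⟨g, hg, rfl⟩ := Grp.mem_orb.1 hy
  obtain ⟨h, hh, rfl⟩ := Grp.mem_orb.1 hz
  beta_reduce at e
  rw [← Nat.div_add_mod (g • x) p, ← Nat.div_add_mod (h • x) p, key g hg, key h hh, e]

theorem sh_mem {n : ℕ} {y : FP} (hy : y ∈ Sy n) : sh n y ∈ (symB n).1 := by
  show _ ∈ cj (sw n) (Sy n)
  simpa [sh, mul_assoc] using hy

omit [KA] in
theorem le_nn : Sy (2 * m * (2 * m) * p) ≤ Sy (nn m p) := Sy_mono (Nat.le_add_left _ _)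

omit [KA] in
theorem le_nn' : Sy m ≤ Sy (nn m p) := Sy_mono (Nat.le_add_right _ _)

theorem CY_cj : cj (sw (nn m p)) (CY m p).1 =
    Subgroup.closure {s | ∃ c < 2 * m * (2 * m), sh (nn m p) (ee m p c) = s} := by
  rw [CY, Grp.ofL_val, M1.cj_closure]
  congr 1
  ext s
  simp [sh]

theorem CY_ea : EA p (CY m p).1 ⊥ := by
  have := M1.ea_closure (p := p) (D := ⊥)
    (S := {x | x ∈ (List.range (2 * m * (2 * m))).map fun c => ee m p c})
    (fun a _ => M1.cj_bot a) ?_ ?_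
  · rwa [sup_bot_eq] at this
  · intro a ha b hb
    obtain ⟨c, -, rfl⟩ := List.mem_map.1 ha
    obtain ⟨d, -, rfl⟩ := List.mem_map.1 hb
    rw [ee_comm c d]; simp
  · intro a ha
    obtain ⟨c, -, rfl⟩ := List.mem_map.1 ha
    rw [ee_pow]; exact one_mem _

theorem not_mem_Mc (pp : p.Prime) {c : ℕ} (hc : c < 2 * m * (2 * m)) :
    sh (nn m p) (ee m p c) ∉ HOM.Mc ⊥ (fun c => sh (nn m p) (ee m p c)) c := by
  have h2 := pp.two_le
  have key : ∀ d, sh (nn m p) (ee m p d) • sw (nn m p) • (c * p + 0) =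
      sw (nn m p) • (c * p + (if c = d then cy p else 1) • 0) := fun d => by
    rw [sh, mul_smul, mul_smul, inv_smul_smul, ee_smul d hc (by omega)]
  intro h
  have : HOM.Mc ⊥ (fun c => sh (nn m p) (ee m p c)) c ≤ fx {sw (nn m p) • (c * p + 0)} := by
    refine sup_le bot_le ((Subgroup.closure_le _).2 ?_)
    rintro _ ⟨d, hd, rfl⟩ _ rfl
    rw [key, if_neg (by omega), one_smul]
  have e := this h _ rfl
  rw [key, if_pos rfl, smul_left_cancel_iff, cy_smul (by omega), Nat.mod_eq_of_lt (by omega)] at e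
  omega

theorem link (pp : p.Prime) {A L : Grp} (hL : L.1 ≤ Sy m) (nA : NI L.1 A.1) (eA : EA p A.1 ⊥)
    (hA : A.hat A = A) : Lk (nn m p) L A Grp.bot (LL m p A L) (LA m p A) ∧
      ((LA m p A).con (RH (nn m p))).1 ≤ cj (sw (nn m p)) (CY m p).1 := by
  have ab : ∀ u ∈ A.1, ∀ w ∈ A.1, u * w = w * u := fun u hu w hw => by
    have := Subgroup.mem_bot.1 (eA.2.1 u hu w hw)
    rwa [mul_inv_eq_one, mul_inv_eq_iff_eq_mul] at this
  have m2 : Sy m ≤ Sy (2 * m) := Sy_mono (by omega)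
  have Ln : L.1 ≤ Sy (nn m p) := hL.trans le_nn'
  have An : A.1 ≤ Sy (nn m p) := nA.1.trans Ln
  have gA := HOM.hat_gen ((nA.1.trans hL).trans m2) ab
  rw [hA] at gA
  have sA : ∀ c, HOM.sig m A c ∈ A.1 := fun c => by
    unfold HOM.sig
    cases smem (c % (2 * m)) (A.orb (c / (2 * m)))
    · exact one_mem _
    · have := ROUND.hat_closed A (c / (2 * m)) _ (M3h.le_hat (HOM.self_so A)
        (KG.tr_mem A (c / (2 * m)) (c % (2 * m))))
      rwa [hA] at this
  have eB : ∀ c, sh (nn m p) (ee m p c) ∈ (symB (nn m p)).1 := fun c => sh_mem (le_nn (ee_mem c))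
  have rB : ∀ g, sh (nn m p) (rr m p g) ∈ (symB (nn m p)).1 := fun g =>
    sh_mem (le_nn (wr_mem _ _ _ _ _))
  have st : HOM.St (nn m p) p (2 * m * (2 * m)) A.1 ⊥ ⊥ (cj (sw (nn m p)) (CY m p).1)
      fun c => sh (nn m p) (ee m p c) := by
    refine ⟨pp, An, eA, ?_, ?_, bot_le, CY_cj⟩
    · rw [CY_cj]
      refine (Subgroup.closure_le _).2 ?_
      rintro _ ⟨c, -, rfl⟩
      exact eB c
    · have := M1.ea_cj (sw (nn m p)) (CY_ea (m := m) (p := p))
      rwa [M1.cj_bot] at this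
  have vA : (LA m p A).1 = Subgroup.closure
      {g | ∃ c < 2 * m * (2 * m), HOM.sig m A c * sh (nn m p) (ee m p c) = g} := by
    simp [LA]
  have gr := st.gr0.ext st sA le_rfl
  have eF : HOM.Fx (⊥ ⊔ ⊥) ⊥ (fun c => sh (nn m p) (ee m p c)) (HOM.sig m A) (2 * m * (2 * m)) =
      (LA m p A).1 := by
    rw [vA, HOM.Fx, bot_sup_eq, bot_sup_eq]
    congr 1
    ext g
    exact exists_congr fun c => and_congr_right fun hc => and_iff_right (not_mem_Mc pp hc)
  rw [eF, st.Mc_K] at gr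
  have a1 : (LA m p A).1 ≤ A.1 ⊔ (symB (nn m p)).1 := gr.le.trans (sup_le_sup_left st.MB _)
  have l1 : (LL m p A L).1 ≤ L.1 ⊔ (symB (nn m p)).1 := by
    refine sup_le ((Subgroup.closure_le _).2 fun x hx => ?_) (a1.trans (sup_le_sup_right nA.1 _))
    obtain ⟨g, hg, rfl⟩ := List.mem_map.1 hx
    exact mul_mem (Subgroup.mem_sup_left (KG.mem_of_gens hg)) (Subgroup.mem_sup_right (rB g))
  have l2 := fun g (hg : g ∈ (LL m p A L).1) => (M3.mem_prod Ln le_rfl).1 (l1 hg)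
  have a2 := fun g (hg : g ∈ (LA m p A).1) => (M3.mem_prod An le_rfl).1 (a1 hg)
  have k : Lk (nn m p) L A Grp.bot (LL m p A L) (LA m p A) := by
    refine ⟨fun g hg => (l2 g hg).1, fun g hg => (l2 g hg).2.1,
      ⟨le_sup_right, M1.nm_sup_left (M1.nm_closure fun x hx => ?_) (M1.nm_of_le le_rfl)⟩, ?_, ?_,
      fun g hg e => ?_⟩
    · obtain ⟨g, hg, rfl⟩ := List.mem_map.1 hx
      have hg' := KG.mem_of_gens hg
      refine M2.eq_of_cj_le (fun g hg => (a2 g hg).1) ?_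
      rw [vA, M1.cj_closure]
      refine Subgroup.closure_mono ?_
      rintro _ ⟨_, ⟨c, hc, rfl⟩, rfl⟩
      refine ⟨prP (2 * m) g • c, (smul_lt (mkP_mem _ _)).2 hc, ?_⟩
      rw [← HOM.sig_cj ab (m2 (hL hg')) (M1.cj_of_nm nA.2 hg') hc, ← rr_cj]
      have c1 := M3.comm_halves (An (sA c)) (rB g)
      have c2 := M3.comm_halves (inv_mem (Ln hg')) (mul_mem (mul_mem (rB g) (eB c)) (inv_mem (rB g)))
      beta_reduce
      calc _ = g * HOM.sig m A c * (g⁻¹ * (sh (nn m p) (rr m p g) * sh (nn m p) (ee m p c) *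
            (sh (nn m p) (rr m p g))⁻¹)) := by simp only [sh]; group
        _ = g * (HOM.sig m A c * sh (nn m p) (rr m p g)) * sh (nn m p) (ee m p c) *
            (sh (nn m p) (rr m p g))⁻¹ * g⁻¹ := by rw [c2]; group
        _ = _ := by rw [c1]; group
    · rw [Grp.bot_val, sup_bot_eq]
      refine le_antisymm (fun x hx => ?_) ?_
      · obtain ⟨g, hg, rfl⟩ := (M3.mem_con fun g hg => (l2 g hg).2.1).1 hx
        exact (l2 g hg).2.2.1
      · conv_lhs => rw [← KG.closure_gens L]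
        refine (Subgroup.closure_le _).2 fun g hg => (M3.mem_con fun g hg => (l2 g hg).2.1).2
          ⟨_, Subgroup.mem_sup_left (Subgroup.subset_closure (List.mem_map.2 ⟨g, hg, rfl⟩)), ?_⟩
        exact M3.lft_prod (Ln (KG.mem_of_gens hg)) (rB g)
    · rw [Grp.bot_val, sup_bot_eq]
      refine le_antisymm (fun x hx => ?_) ?_
      · obtain ⟨g, hg, rfl⟩ := (M3.mem_con fun g hg => (a2 g hg).2.1).1 hx
        exact (a2 g hg).2.2.1
      · conv_lhs => rw [gA]
        refine (Subgroup.closure_le _).2 ?_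
        rintro _ ⟨c, hc, rfl⟩
        refine (M3.mem_con fun g hg => (a2 g hg).2.1).2 ⟨_, ?_, M3.lft_prod (An (sA c)) (eB c)⟩
        rw [vA]
        exact Subgroup.subset_closure ⟨c, hc, rfl⟩
    · have e1 := M3.lft_mul_rgt (a2 g hg).1 (a2 g hg).2.1
      rw [e, mul_one] at e1
      rw [e1]
      exact gr.ker g (e1 ▸ M3.lft_mem (a2 g hg).2.1) hg
  refine ⟨k, fun x hx => ?_⟩
  obtain ⟨g, hg, rfl⟩ := ((M7.lk_M k).2.2 x).1 hx
  exact gr.rg g hg

theorem pq_eq (pp : p.Prime) {X : SG} (hX : X ≤ Sy m) (eX : EA p X ⊥) (h : ¬ X ≤ ⊥) :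
    pq X ⊥ = p := by
  have t : top X ⊥ ≠ X := fun e => h (((M4.top_eq_iff hX bot_le).1 e).trans (sup_le
    (Subgroup.commutator_le.2 fun a ha b hb => eX.2.1 a ha b hb) le_rfl))
  by_contra hq
  refine t (le_antisymm (M4.yq_le _ bot_le) fun a ha => ?_)
  exact M1.mem_of_coprime ((Nat.coprime_primes (M4.pq_prime hX bot_le t).1 pp).2 hq)
    ((M4.yq_ea _ bot_le).2.2 a ha) (M4.le_yq _ _ _ (eX.2.2 a ha))

theorem stab_bot {A : Grp} (hA : A.1 ≤ Sy m) (eA : EA p A.1 ⊥) : A.stab (A.reps m) = Grp.bot := by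
  have ab : ∀ u ∈ A.1, ∀ w ∈ A.1, u * w = w * u := fun u hu w hw => by
    have := Subgroup.mem_bot.1 (eA.2.1 u hu w hw)
    rwa [mul_inv_eq_one, mul_inv_eq_iff_eq_mul] at this
  refine Grp.ext (le_antisymm (fun g hg => Subgroup.mem_bot.2 (FP.ext fun x => ?_)) bot_le)
  by_cases hx : x < m
  · have s := A.so_rep x
    have r1 : A.rep (A.rep x) = A.rep x := (M3.rep_eq s).symm
    have r2 : A.rep x ∈ A.reps m :=
      Grp.mem_reps.2 ⟨lt_of_le_of_lt (Grp.rep_le (M3.so_refl _ x)) hx, r1⟩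
    have r3 := (Grp.mem_reps.1 ((hg.2 _).2 r2)).2
    rw [← M3.rep_eq ⟨g, hg.1, rfl⟩, r1] at r3
    exact M3.ab_reg ab hg.1 (one_mem _) (by rw [one_smul]; exact r3.symm) (M3.so_symm s)
  · rw [hA hg.1 x (not_lt.1 hx), one_smul]

end

end ENP

open ENP in
theorem b_enorm [KA] (h : Prim) (hu : S_hatup) (hs : S_subP) : S_enorm := by
  obtain ⟨gu, ou, su⟩ := hu
  obtain ⟨gs, os, ss⟩ := hs
  have hp := h.partt
  unfold S_partt at hp
  let fS : ℕ × Grp → Grp := fun q => (partt (Grp.sy q.1) q.2 q.2).grp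
  have oS : OT fS := by fun_prop
  let fL : ℕ × Grp → Grp := fun q =>
    (gu (q.1, fS q, q.2, q.2, Cos.lc 1 ((fS q).stab (q.2.reps q.1)))).grp
  have oL : OT fL := by fun_prop
  refine ⟨fun q => bif q.2.le Grp.bot then Grp.sy q.1 else
    (gs (nn q.1 (q.2.pq Grp.bot), Grp.bot, q.2, q.2,
      LL q.1 (q.2.pq Grp.bot) (q.2.hat q.2) (fL (q.1, q.2.hat q.2)),
      LA q.1 (q.2.pq Grp.bot) (q.2.hat q.2))).grp, by fun_prop, fun m p X pp hX eX l => ?_⟩
  beta_reduce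
  cases hb : X.le Grp.bot
  swap
  · have e : X.1 = ⊥ := le_bot_iff.1 (Grp.le_iff.1 hb)
    rw [cond_true, e, M1.cj_bot]
    simp
  have ne : ∀ L Y : Grp, (TR L Y Y).isE = false := fun L Y =>
    Cos.isE_false.2 ⟨1, mem_TR.2 ⟨one_mem _, M1.cj_one _⟩⟩
  rw [cond_false, show X.pq Grp.bot = p from pq_eq pp hX eX (Grp.le_false.1 hb)]
  have hA : (X.hat X).1 ≤ Sy m := M3h.hat_fx (HOM.self_so X) hX
  have eA : EA p (X.hat X).1 ⊥ := by
    have := M3h.hat_ea (X := X) (D := Grp.bot) (HOM.self_so X) eX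
    rwa [M3h.hat_bot] at this
  have cA : ∀ j ∈ (X.hat X).1, ∀ a, res ((X.hat X).orb a) j ∈ (X.hat X).1 := fun j hj a => by
    rw [M3.orb_congr (ROUND.hat_orb X) a]; exact ROUND.hat_closed X a j hj
  have nX : ∀ l, cj l X.1 = X.1 → cj l (X.hat X).1 = (X.hat X).1 := fun g hg => by
    have e := M3h.hat_cj g (HOM.self_so X)
    rw [show Grp.cj g X = X from Grp.ext hg] at e
    exact (congrArg Grp.val e).symm
  have XA := M3h.le_hat (HOM.self_so X)
  generalize X.hat X = A at hA eA cA nX XA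
  have hh : A.hat A = A := Grp.ext (le_antisymm (by
    rw [M3h.hat_eq (HOM.self_so A)]
    refine (Subgroup.closure_le _).2 ?_
    rintro _ ⟨a, j, hj, rfl⟩
    exact cA j hj a) (M3h.le_hat (HOM.self_so A)))
  have mS : ∀ g, g ∈ (fS (m, A)).1 ↔ g ∈ Sy m ∧ Po A.1 g := fun g =>
    M6.grp_partt (Cos.isE_false.2 ⟨1, mem_partt.2 ⟨one_mem _, fun x y => by simp⟩⟩)
  have eL : fL (m, A) = (TR (fS (m, A)) A A).grp := by
    rw [← su m (fS (m, A)) A A (fun g hg => ((mS g).1 hg).1)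
      (fun g hg => (mS g).2 ⟨hA hg, M3.po_of_nm (M1.cj_of_mem hg)⟩)
      (fun g hg => (mS g).2 ⟨hA hg, M3.po_of_nm (M1.cj_of_mem hg)⟩) (fun g hg => ((mS g).1 hg).2)
      (fun _ _ => Iff.rfl) cA cA, M6.TR_all _ rfl]
    rw [stab_bot hA eA]
    exact M1.nm_of_cj fun l _ => M1.cj_bot l
  have mL : ∀ g, g ∈ (fL (m, A)).1 ↔ g ∈ Sy m ∧ cj g A.1 = A.1 := fun g => by
    rw [eL, M6.grp_TR (ne _ _), mS]
    exact ⟨fun h => ⟨h.1.1, h.2⟩, fun h => ⟨⟨h.1, M3.po_of_nm h.2⟩, h.2⟩⟩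
  generalize fL (m, A) = L at mL
  have hL : L.1 ≤ Sy m := fun g hg => ((mL g).1 hg).1
  have nA : NI L.1 A.1 := ⟨fun g hg => (mL g).2 ⟨hA hg, M1.cj_of_mem hg⟩,
    M1.nm_of_cj fun g hg => ((mL g).1 hg).2⟩
  obtain ⟨k, k'⟩ := link pp hL nA eA hh
  rw [ss _ p L Grp.bot A X X _ _ (hL.trans le_nn') pp
    ⟨bot_le, M1.nm_of_cj fun l _ => M1.cj_bot l⟩ nA bot_le bot_le XA XA k ?_
    (SUB.sp_mono (M := Grp.cj (sw (nn m p)) (CY m p)) k' (SUB.sp_cj _ (CY_orb pp.pos))),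
    M6.grp_TR (ne _ _), mL]
  · exact ⟨fun h => ⟨h.1.1, h.2⟩, fun h => ⟨⟨h.1, nX l h.2⟩, h.2⟩⟩
  · have := M1.ea_cj (sw (nn m p)) (CY_ea (m := m) (p := p))
    rw [M1.cj_bot] at this
    exact M1.ea_mono this k' le_rfl bot_le

end

end Pool.Agent.Lib.E6
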