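import Pool.Agent.Lib.E6.Spec

/-! E6 block GR: transporting a family of subgroups. -/

namespace Pool.Agent.Lib.E6

open Equiv Pool.Agent.Lib.helper80 Pool.Agent.Lib.MP_e519cf_lc Polynomial

noncomputable section
open Classical

namespace GR

set_option linter.unusedSectionVars false

/-- The list with `x` at `i`, `y` at `j` and `1` elsewhere. -/
def atL (m i : ℕ) (x : FP) (j : ℕ) (y : FP) : List FP :=
  (List.range m).map fun k => bif Nat.beq k i then x else bif Nat.beq k j then y else 1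

theorem atL_getD {m i j : ℕ} (x y : FP) (hi : i < m) (hj : j < m) (k : ℕ) :
    (atL m i x j y).getD k 1 = if k = i then x else if k = j then y else 1 := by
  by_cases hk : k < m
  · rw [atL, List.getD_eq_getElem _ _ (by simpa using hk)]
    simp only [List.getElem_map, List.getElem_range, Bool.cond_eq_ite, Nat.beq_eq]
  · rw [atL, List.getD_eq_default _ _ (by simpa using hk), if_neg (by omega), if_neg (by omega)]

theorem mem_atL {m i j : ℕ} {x y z : FP} (h : z ∈ atL m i x j y) : z = x ∨ z = y ∨ z = 1 := by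
  obtain ⟨k, _, rfl⟩ := List.mem_map.1 h
  cases Nat.beq k i <;> cases Nat.beq k j <;> simp

/-- The generators attached to one table entry. -/
def ent (a b i j : ℕ) (C : Cos) : List TriD :=
  bif C.isE then [] else
    (swp i (a + j), atL (a + b) i C.rep (a + j) C.rep⁻¹, (1 : FP)) ::
      C.grp.gens.map fun h => ((1 : FP), atL (a + b) i h i 1, (1 : FP))

/-- All generators. -/
def gens (a b : ℕ) (L : Grp) (Tb : List (List Cos)) : List TriD :=
  (L.gens.map fun l => ((1 : FP), ([] : List FP), l)) ++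
    (List.range a).flatMap fun i => (List.range b).flatMap fun j =>
      ent a b i j ((Tb.getD i []).getD j Cos.emp)

variable [KA]

@[fun_prop] theorem pt_atL : PT fun p : ℕ × ℕ × FP × ℕ × FP =>
    atL p.1 p.2.1 p.2.2.1 p.2.2.2.1 p.2.2.2.2 := by unfold atL; fun_prop

@[fun_prop] theorem pt_ent : PT fun p : ℕ × ℕ × ℕ × ℕ × Cos =>
    ent p.1 p.2.1 p.2.2.1 p.2.2.2.1 p.2.2.2.2 := by unfold ent; fun_prop

@[fun_prop] theorem pt_gens : PT fun p : ℕ × ℕ × Grp × List (List Cos) =>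
    gens p.1 p.2.1 p.2.2.1 p.2.2.2 := by unfold gens; fun_prop

omit [KA] in
theorem mem_gens {a b : ℕ} {L : Grp} {Tb : List (List Cos)} {d : TriD} :
    d ∈ gens a b L Tb ↔ (∃ l ∈ L.gens, ((1 : FP), ([] : List FP), l) = d) ∨
      ∃ i < a, ∃ j < b, d ∈ ent a b i j ((Tb.getD i []).getD j Cos.emp) := by
  simp only [gens, List.mem_append, List.mem_map, List.mem_flatMap, List.mem_range]

omit [KA] in
theorem mem_ent {a b i j : ℕ} {C : Cos} {d : TriD} : d ∈ ent a b i j C ↔ C.isE = false ∧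
    (d = (swp i (a + j), atL (a + b) i C.rep (a + j) C.rep⁻¹, (1 : FP)) ∨
      ∃ h ∈ C.grp.gens, ((1 : FP), atL (a + b) i h i 1, (1 : FP)) = d) := by
  unfold ent
  cases C.isE <;> simp only [Bool.cond_true, Bool.cond_false, List.not_mem_nil, List.mem_cons,
    List.mem_map, true_and, Bool.true_eq_false, false_and]

omit [KA] in
theorem swp_mem {m x y : ℕ} (hx : x < m) (hy : y < m) : swp x y ∈ Sy m := fun z hz => by
  have hz' : m ≤ z := hz
  rw [swp_smul, Equiv.swap_apply_of_ne_of_ne (by omega) (by omega)]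

/-- The invariant of the group of triples. -/
def Inv (L : SG) (Ob : ℕ → SG) : Subgroup Tri where
  carrier := {t | t.l ∈ L ∧ ∀ k, cj (t.a k) (Ob k) = Ob (t.p • k)}
  one_mem' := ⟨one_mem _, fun k => by rw [Tri.one_a, Tri.one_p, M1.cj_one, one_smul]⟩
  mul_mem' := fun {s t} hs ht => ⟨mul_mem hs.1 ht.1, fun k => by
    rw [Tri.mul_a, Tri.mul_p, M1.cj_mul, ht.2, hs.2, mul_smul]⟩
  inv_mem' := fun {t} ht => ⟨inv_mem ht.1, fun k => by
    have h := ht.2 (t.p⁻¹ • k)
    rw [smul_inv_smul] at h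
    rw [Tri.inv_a, Tri.inv_p, ← h, M1.cj_inv_cj]⟩

/-- An element placed at one index. -/
def pl (i : ℕ) : FP →* Tri where
  toFun h := ⟨1, fun k => if k = i then h else 1, 1⟩
  map_one' := Tri.ext rfl (funext fun k => by simp) rfl
  map_mul' x y := Tri.ext (by simp) (funext fun k => by
    rw [Tri.mul_a, one_smul]
    by_cases hk : k = i <;> simp [hk]) (by simp)

/-- An element placed in the last component. -/
def pr : FP →* Tri where
  toFun h := ⟨1, fun _ => 1, h⟩
  map_one' := rfl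
  map_mul' x y := Tri.ext (by simp) (funext fun k => by simp) (by simp)

theorem hom_mem (φ : FP →* Tri) (H : Grp) (T : Subgroup Tri) (h : ∀ x ∈ H.gens, φ x ∈ T) :
    ∀ x ∈ H.1, φ x ∈ T := by
  have : H.1 ≤ T.comap φ := by
    rw [← KG.closure_gens, Subgroup.closure_le]
    exact h
  exact this

section main

variable {n : ℕ} {L : Grp} {As Bs : List Grp} {Tb : List (List Cos)}

/-- The table hypothesis. -/
def Tab (L : Grp) (As Bs : List Grp) (Tb : List (List Cos)) : Prop :=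
  ∀ i < As.length, ∀ j < Bs.length,
    (Tb.getD i []).getD j Cos.emp = TR L (As.getD i Grp.bot) (Bs.getD j Grp.bot)

theorem okT (hL : L.1 ≤ Sy n) (hT : Tab L As Bs Tb) :
    OkT n (As.length + Bs.length) (gens As.length Bs.length L Tb) := by
  intro d hd
  rcases mem_gens.1 hd with ⟨l, hl, rfl⟩ | ⟨i, hi, j, hj, hd⟩
  · exact ⟨one_mem _, fun _ h => absurd h List.not_mem_nil, hL (KG.mem_of_gens hl)⟩
  · rw [hT i hi j hj] at hd
    have hC : ∀ x ∈ TR L (As.getD i Grp.bot) (Bs.getD j Grp.bot), x ∈ Sy n :=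
      fun x hx => hL (mem_TR.1 hx).1
    rcases (mem_ent.1 hd).2 with rfl | ⟨h, hh, rfl⟩
    · refine ⟨swp_mem (by omega) (by omega), fun z hz => ?_, one_mem _⟩
      rcases mem_atL hz with rfl | rfl | rfl
      exacts [KG.rep_mem_of hC, inv_mem (KG.rep_mem_of hC), one_mem _]
    · refine ⟨one_mem _, fun z hz => ?_, one_mem _⟩
      rcases mem_atL hz with rfl | rfl | rfl
      exacts [KG.grp_le hC (KG.mem_of_gens hh), one_mem _, one_mem _]

/-- The groups, indexed consecutively. -/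
def Ob (As Bs : List Grp) (k : ℕ) : SG :=
  if k < As.length then (As.getD k Grp.bot).1 else (Bs.getD (k - As.length) Grp.bot).1

omit [KA] in
theorem Ob_left {k : ℕ} (h : k < As.length) : Ob As Bs k = (As.getD k Grp.bot).1 := if_pos h

omit [KA] in
theorem Ob_right (j : ℕ) : Ob As Bs (As.length + j) = (Bs.getD j Grp.bot).1 := by
  rw [Ob, if_neg (by omega), Nat.add_sub_cancel_left]

theorem le_inv (hT : Tab L As Bs Tb) :
    triG (gens As.length Bs.length L Tb) ≤ Inv L.1 (Ob As Bs) := by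
  rw [triG, Subgroup.closure_le]
  rintro _ ⟨d, hd, rfl⟩
  rcases mem_gens.1 hd with ⟨l, hl, rfl⟩ | ⟨i, hi, j, hj, hd⟩
  · exact ⟨KG.mem_of_gens hl, fun k => by simp [toTri, M1.cj_one]⟩
  · rw [hT i hi j hj] at hd
    obtain ⟨hE, hd⟩ := mem_ent.1 hd
    obtain ⟨x, hx⟩ := Cos.isE_false.1 hE
    rcases hd with rfl | ⟨h, hh, rfl⟩
    · refine ⟨one_mem _, fun k => ?_⟩
      have hr := (mem_TR.1 (KG.rep_mem hx)).2
      simp only [toTri]
      rw [atL_getD _ _ (by omega) (by omega), swp_smul]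
      split_ifs with h1 h2
      · rw [h1, Equiv.swap_apply_left, Ob_left hi, Ob_right, hr]
      · rw [h2, Equiv.swap_apply_right, Ob_left hi, Ob_right, ← hr, M1.cj_inv_cj]
      · rw [Equiv.swap_apply_of_ne_of_ne h1 h2, M1.cj_one]
    · refine ⟨one_mem _, fun k => ?_⟩
      have hr := ((M6.grp_TR hE).1 (KG.mem_of_gens hh)).2
      simp only [toTri]
      rw [atL_getD _ _ (by omega) (by omega), one_smul]
      split_ifs with h1
      · rw [h1, Ob_left hi, hr]
      · rw [M1.cj_one]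

theorem exists_e (hT : Tab L As Bs Tb) {l : FP} {i j : ℕ} (hi : i < As.length)
    (hj : j < Bs.length) (hl : l ∈ TR L (As.getD i Grp.bot) (Bs.getD j Grp.bot)) :
    ∃ e ∈ triG (gens As.length Bs.length L Tb), e.l = 1 ∧ e.p = swp i (As.length + j) ∧
      e.a i = l ∧ ∀ k, k ≠ i → k ≠ As.length + j → e.a k = 1 := by
  have hE : (TR L (As.getD i Grp.bot) (Bs.getD j Grp.bot)).isE = false := Cos.isE_false.2 ⟨l, hl⟩
  set C := TR L (As.getD i Grp.bot) (Bs.getD j Grp.bot) with hC
  have hsub : ∀ d ∈ ent As.length Bs.length i j C,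
      toTri d ∈ triG (gens As.length Bs.length L Tb) := fun d hd =>
    Subgroup.subset_closure ⟨d, mem_gens.2 (Or.inr ⟨i, hi, j, hj, by rw [hT i hi j hj]; exact hd⟩),
      rfl⟩
  have h1 := hsub _ (mem_ent.2 ⟨hE, Or.inl rfl⟩)
  have h2 := hom_mem (pl i) C.grp (triG (gens As.length Bs.length L Tb)) (fun h hh => by
    have h3 := hsub _ (mem_ent.2 ⟨hE, Or.inr ⟨h, hh, rfl⟩⟩)
    have e : toTri ((1 : FP), atL (As.length + Bs.length) i h i 1, (1 : FP)) = pl i h :=
      Tri.ext rfl (funext fun k => by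
        simp only [toTri]
        rw [atL_getD _ _ (by omega) (by omega), ite_self]
        rfl) rfl
    rw [← e]; exact h3) _ ((KG.mem_cos hE).1 hl)
  refine ⟨_, mul_mem h1 h2, ?_, ?_, ?_, fun k h3 h4 => ?_⟩
  · exact mul_one _
  · exact mul_one _
  · rw [Tri.mul_a]
    simp only [toTri, pl, MonoidHom.coe_mk, OneHom.coe_mk, one_smul, if_true]
    rw [atL_getD _ _ (by omega) (by omega), if_pos rfl, mul_inv_cancel_left]
  · rw [Tri.mul_a]
    simp only [toTri, pl, MonoidHom.coe_mk, OneHom.coe_mk, one_smul, if_neg h3]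
    rw [atL_getD _ _ (by omega) (by omega), if_neg h3, if_neg h4, mul_one]

theorem exists_t (hT : Tab L As Bs Tb) {l : FP} (s : ℕ → ℕ)
    (hs : ∀ i < As.length, s i < Bs.length ∧
      l ∈ TR L (As.getD i Grp.bot) (Bs.getD (s i) Grp.bot))
    (hinj : ∀ i < As.length, ∀ i' < As.length, s i = s i' → i = i') (r : ℕ) (hr : r ≤ As.length) :
    ∃ t ∈ triG (gens As.length Bs.length L Tb), t.l = 1 ∧
      (∀ i < r, t.p • i = As.length + s i ∧ t.a i = l) ∧
      ∀ i, r ≤ i → i < As.length → t.p • i = i ∧ t.a i = 1 := by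
  induction r with
  | zero => exact ⟨1, one_mem _, rfl, fun i hi => absurd hi (Nat.not_lt_zero i),
      fun i _ _ => ⟨one_smul _ _, rfl⟩⟩
  | succ r ih =>
    obtain ⟨t, ht, h1, h2, h3⟩ := ih (by omega)
    obtain ⟨e, he, e1, e2, e3, e4⟩ := exists_e hT (i := r) (by omega) (hs r (by omega)).1
      (hs r (by omega)).2
    refine ⟨e * t, mul_mem he ht, by rw [Tri.mul_l, e1, h1, mul_one], fun i hi => ?_,
      fun i hi hi' => ?_⟩
    · rw [Tri.mul_p, Tri.mul_a, mul_smul, e2, swp_smul]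
      rcases Nat.lt_succ_iff_lt_or_eq.1 hi with h | rfl
      · have hne : As.length + s i ≠ As.length + s r := fun h' => by
          have := hinj i (by omega) r (by omega) (by omega)
          omega
        rw [(h2 i h).1, (h2 i h).2, Equiv.swap_apply_of_ne_of_ne (by omega) hne,
          e4 _ (by omega) hne, one_mul]
        exact ⟨rfl, rfl⟩
      · rw [(h3 i le_rfl (by omega)).1, (h3 i le_rfl (by omega)).2, Equiv.swap_apply_left, e3,
          mul_one]
        exact ⟨rfl, rfl⟩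
    · rw [Tri.mul_p, Tri.mul_a, mul_smul, e2, swp_smul, (h3 i (by omega) hi').1,
        (h3 i (by omega) hi').2, Equiv.swap_apply_of_ne_of_ne (by omega) (by omega),
        e4 _ (by omega) (by omega), one_mul]
      exact ⟨rfl, rfl⟩

omit [KA] in
theorem mem_iff_getD {l : List Grp} {A : Grp} :
    A ∈ l ↔ ∃ i < l.length, l.getD i Grp.bot = A := by
  rw [List.mem_iff_getElem]
  constructor
  · rintro ⟨i, hi, rfl⟩
    exact ⟨i, hi, List.getD_eq_getElem _ _ hi⟩
  · rintro ⟨i, hi, rfl⟩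
    exact ⟨i, hi, (List.getD_eq_getElem _ _ hi).symm⟩

omit [KA] in
theorem getD_inj {l : List Grp} (h : l.Nodup) {i j : ℕ} (hi : i < l.length) (hj : j < l.length)
    (e : l.getD i Grp.bot = l.getD j Grp.bot) : i = j := by
  rw [List.getD_eq_getElem _ _ hi, List.getD_eq_getElem _ _ hj] at e
  exact (List.Nodup.getElem_inj_iff h).1 e

theorem key (hA : As.Nodup) (hB : Bs.Nodup) (hT : Tab L As Bs Tb) (l : FP) :
    (∃ t ∈ triG (gens As.length Bs.length L Tb), t.l = l ∧
      (∀ i, i < As.length ↔ t.p • i < As.length + Bs.length ∧ As.length ≤ t.p • i) ∧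
      ∀ i < As.length, l = t.a i) ↔
    l ∈ L.1 ∧ (∀ A ∈ As, Grp.cj l A ∈ Bs) ∧ ∀ B ∈ Bs, Grp.cj l⁻¹ B ∈ As := by
  constructor
  · rintro ⟨t, ht, rfl, h1, h2⟩
    obtain ⟨h3, h4⟩ := le_inv hT ht
    refine ⟨h3, fun A hA' => ?_, fun B hB' => ?_⟩
    · obtain ⟨i, hi, rfl⟩ := mem_iff_getD.1 hA'
      obtain ⟨h5, h6⟩ := (h1 i).1 hi
      obtain ⟨j, hj⟩ := Nat.exists_eq_add_of_le h6
      refine mem_iff_getD.2 ⟨j, by omega, Grp.ext ?_⟩
      rw [Grp.cj_val, ← Ob_left (Bs := Bs) hi, h2 i hi, h4, hj, Ob_right]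
    · obtain ⟨j, hj, rfl⟩ := mem_iff_getD.1 hB'
      have hi : t.p⁻¹ • (As.length + j) < As.length := by
        rw [h1, smul_inv_smul]; omega
      refine mem_iff_getD.2 ⟨_, hi, Grp.ext ?_⟩
      have h5 := h4 (t.p⁻¹ • (As.length + j))
      rw [smul_inv_smul, Ob_right, Ob_left hi, ← h2 _ hi] at h5
      rw [Grp.cj_val, ← h5, M1.cj_inv_cj]
  · rintro ⟨hl, h1, h2⟩
    have h3 : ∀ i, ∃ j, i < As.length → j < Bs.length ∧
        l ∈ TR L (As.getD i Grp.bot) (Bs.getD j Grp.bot) := fun i => by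
      by_cases hi : i < As.length
      · obtain ⟨j, hj, e⟩ := mem_iff_getD.1 (h1 _ (mem_iff_getD.2 ⟨i, hi, rfl⟩))
        exact ⟨j, fun _ => ⟨hj, mem_TR.2 ⟨hl, by rw [e]; rfl⟩⟩⟩
      · exact ⟨0, fun h => absurd h hi⟩
    choose s hs using h3
    have hinj : ∀ i < As.length, ∀ i' < As.length, s i = s i' → i = i' := fun i hi i' hi' e => by
      refine getD_inj hA hi hi' (Grp.ext (M1.cj_inj (g := l) |>.1 ?_))
      rw [(mem_TR.1 (hs i hi).2).2, (mem_TR.1 (hs i' hi').2).2, e]
    have hsurj : ∀ j < Bs.length, ∃ i < As.length, s i = j := fun j hj => by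
      obtain ⟨i, hi, e⟩ := mem_iff_getD.1 (h2 _ (mem_iff_getD.2 ⟨j, hj, rfl⟩))
      refine ⟨i, hi, getD_inj hB (hs i hi).1 hj (Grp.ext ?_)⟩
      rw [← (mem_TR.1 (hs i hi).2).2, e, Grp.cj_val, M1.cj_cj_inv]
    obtain ⟨t, ht, t1, t2, _⟩ := exists_t hT s hs hinj _ le_rfl
    have hp := hom_mem pr L (triG (gens As.length Bs.length L Tb)) (fun x hx =>
      Subgroup.subset_closure ⟨_, mem_gens.2 (Or.inl ⟨x, hx, rfl⟩),
        Tri.ext rfl (funext fun k => by simp [toTri, pr]) rfl⟩) l hl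
    have e1 : (pr l * t).p = t.p := one_mul _
    have e2 : ∀ k, (pr l * t).a k = t.a k := fun k => one_mul _
    refine ⟨pr l * t, mul_mem hp ht, by rw [Tri.mul_l, t1]; exact mul_one _, fun i => ?_,
      fun i hi => by rw [e2, (t2 i hi).2]⟩
    rw [e1]
    constructor
    · intro hi
      have := (hs i hi).1
      rw [(t2 i hi).1]; omega
    · rintro ⟨h4, h5⟩
      obtain ⟨j, hj⟩ := Nat.exists_eq_add_of_le h5
      obtain ⟨i', hi', e⟩ := hsurj j (by omega)
      have h6 : t.p • i = t.p • i' := by rw [hj, (t2 i' hi').1, e]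
      rw [smul_left_cancel_iff] at h6
      rw [h6]; exact hi'

end main

end GR

open GR in
theorem b_gr [KA] (h : S_gf) : S_gr := by
  obtain ⟨g, hg, hs⟩ := h
  refine ⟨fun p => g (p.1, p.2.2.1.length + p.2.2.2.1.length,
    gens p.2.2.1.length p.2.2.2.1.length p.2.1 p.2.2.2.2, Finset.range p.2.2.1.length,
    fil (p.2.2.1.length + p.2.2.2.1.length) (fun x => Nat.ble p.2.2.1.length x), [], []),
    by fun_prop, fun n L As Bs Tb hL hA hB hT l => ?_⟩
  beta_reduce
  rw [hs n _ _ _ _ _ _ (okT hL hT) (fun i hi => Nat.lt_add_right _ (Finset.mem_range.1 hi))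
    (fun i hi => (mem_fil.1 hi).1) (fun _ h => absurd h List.not_mem_nil)
    (fun _ h => absurd h List.not_mem_nil), ← key hA hB hT l]
  simp only [Finset.mem_range, mem_fil, Nat.ble_eq, List.getD_nil, mul_one, one_mul]

end

end Pool.Agent.Lib.E6
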