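import Pool.Agent.Lib.E6.Spec

/-! E6, block KL: Schreier-Sims and normalisation. -/

namespace Pool.Agent.Lib.E6

open Equiv Pool.Agent.Lib.helper80 Pool.Agent.Lib.MP_e519cf_lc Polynomial

noncomputable section
open Classical

namespace KLp

def fixB (k : ℕ) (t : FP) : Bool := (List.range k).all fun i => eqb (t • i) i

@[simp] theorem fixB_iff {k : ℕ} {t : FP} : fixB k t = true ↔ ∀ i < k, t • i = i := by simp [fixB]

/-- `S` is a strong generating list of `H` for the base `0, 1, 2, ...`. -/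
def Strong (S : List FP) (H : SG) : Prop := (∀ t ∈ S, t ∈ H) ∧
  ∀ h ∈ H, ∀ i : ℕ, (∀ k < i, h • k = k) → h • i ≠ i → ∃ t ∈ S, (∀ k < i, t • k = k) ∧ t • i = h • i

def pk (S : List FP) (g : FP) (k : ℕ) : FP :=
  (((1 :: S).filter fun t => fixB k t).filter fun t =>
    ((1 :: S).filter fun t => fixB k t).all fun u => Nat.ble (g • t • k) (g • u • k)).headD 1

def nrm (n : ℕ) (S : List FP) (g : FP) : FP := (List.range n).foldl (fun g k => g * pk S g k) g

theorem headD_mem {α : Type} {l : List α} {a d : α} (h : a ∈ l) : l.headD d ∈ l := by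
  cases l with
  | nil => simp at h
  | cons b t => simp

theorem pk_spec (S : List FP) (g : FP) (k : ℕ) : pk S g k ∈ 1 :: S ∧ (∀ i < k, pk S g k • i = i) ∧
    ∀ u ∈ 1 :: S, (∀ i < k, u • i = i) → g • pk S g k • k ≤ g • u • k := by
  have ex : ∃ m : ℕ, ∃ t ∈ (1 :: S).filter fun t => fixB k t, g • t • k = m :=
    ⟨_, 1, List.mem_filter.2 ⟨by simp, by simp⟩, rfl⟩
  obtain ⟨t, ht, he⟩ := Nat.find_spec ex
  have h1 : t ∈ ((1 :: S).filter fun t => fixB k t).filter fun t =>
      ((1 :: S).filter fun t => fixB k t).all fun u => Nat.ble (g • t • k) (g • u • k) := by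
    refine List.mem_filter.2 ⟨ht, List.all_eq_true.2 fun u hu => Nat.ble_eq.mpr ?_⟩
    rw [he]
    exact Nat.find_min' ex ⟨u, hu, rfl⟩
  obtain ⟨h2, h3⟩ := List.mem_filter.1 (headD_mem (d := 1) h1)
  obtain ⟨h4, h5⟩ := List.mem_filter.1 h2
  exact ⟨h4, fixB_iff.1 h5, fun u hu hf => Nat.ble_eq.mp
    (List.all_eq_true.1 h3 u (List.mem_filter.2 ⟨hu, fixB_iff.2 hf⟩))⟩

theorem fold_mem {K : SG} {S : List FP} (hS : ∀ t ∈ S, t ∈ K) (l : List ℕ) :
    ∀ g, g ∈ K → l.foldl (fun g k => g * pk S g k) g ∈ K := by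
  induction l with
  | nil => exact fun g hg => hg
  | cons k l ih =>
    intro g hg
    refine ih _ (mul_mem hg ?_)
    rcases List.mem_cons.1 (pk_spec S g k).1 with h | h
    · rw [h]; exact one_mem _
    · exact hS _ h

theorem nrm_aux {S : List FP} {H : SG} (hS : Strong S H) (g : FP) (k : ℕ) :
    g⁻¹ * nrm k S g ∈ H ∧
      ∀ j < k, ∀ u ∈ H, (∀ i < j, u • i = i) → nrm k S g • j ≤ nrm k S g • u • j := by
  induction k with
  | zero => exact ⟨by simp [nrm], fun j hj => absurd hj (Nat.not_lt_zero j)⟩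
  | succ k ih =>
    have e : nrm (k + 1) S g = nrm k S g * pk S (nrm k S g) k := by
      simp [nrm, List.range_succ]
    obtain ⟨hh, hm⟩ := ih
    rw [e]
    generalize nrm k S g = h at hh hm
    obtain ⟨p1, hf, p3⟩ := pk_spec S h k
    generalize pk S h k = u0 at p1 hf p3
    have hu0 : u0 ∈ H := by
      rcases List.mem_cons.1 p1 with h0 | h0
      · rw [h0]; exact one_mem _
      · exact hS.1 _ h0
    refine ⟨by rw [← mul_assoc]; exact mul_mem hh hu0, fun j hj u hu hfu => ?_⟩
    have hfix : ∀ i < j, (u0 * u) • i = i := fun i hi => by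
      rw [mul_smul, hfu i hi, hf i (by omega)]
    rcases Nat.lt_succ_iff_lt_or_eq.1 hj with hj | rfl
    · have := hm j hj _ (mul_mem hu0 hu) hfix
      rw [mul_smul h, hf j hj, mul_smul h, ← mul_smul u0]
      exact this
    · rw [mul_smul h, mul_smul h, ← mul_smul u0]
      by_cases h0 : (u0 * u) • j = j
      · have := p3 1 (by simp) fun i _ => one_smul _ i
        rwa [h0, ← one_smul FP j, smul_smul u0, mul_one]
      · obtain ⟨t, ht, t1, t2⟩ := hS.2 _ (mul_mem hu0 hu) j hfix h0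
        rw [← t2]
        exact p3 t (List.mem_cons_of_mem _ ht) t1

theorem nrm_rd {S : List FP} {H : SG} (hS : Strong S H) {n : ℕ} (hn : H ≤ Sy n) (g : FP) :
    Rd H (nrm n S g) := fun k u hu hf => by
  by_cases hk : k < n
  · exact (nrm_aux hS g n).2 k hk u hu hf
  · rw [hn hu k (not_lt.1 hk)]

theorem cm_eq [KG] {T : Set FP} {H : SG} {x : FP} (hx : x ∈ T) (hr : Rd H x)
    (hT : ∀ y ∈ T, x⁻¹ * y ∈ H) : cm T H = x := by
  have ex : ∃ g ∈ T, Rd H g := ⟨x, hx, hr⟩
  rw [cm, dif_pos ex]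
  exact (KG.rd_unique hr ex.choose_spec.2 (hT _ ex.choose_spec.1)).symm

theorem cm_nrm [KG] {S : List FP} {H : SG} (hS : Strong S H) {n : ℕ} (hn : H ≤ Sy n) {T : Set FP}
    {g : FP} (hT : ∀ y, y ∈ T ↔ g⁻¹ * y ∈ H) : cm T H = nrm n S g := by
  have h1 := (nrm_aux hS g n).1
  refine cm_eq ((hT _).2 h1) (nrm_rd hS hn g) fun y hy => ?_
  simpa [mul_assoc] using mul_mem (inv_mem h1) ((hT y).1 hy)

section
variable {α : Type} [Enc α] [K1]

@[fun_prop] theorem pt_fixB {k : α → ℕ} {t : α → FP} (hk : PT k) (ht : PT t) :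
    PT fun a => fixB (k a) (t a) := by unfold fixB; fun_prop

@[fun_prop] theorem pt_pk {S : α → List FP} {g : α → FP} {k : α → ℕ} (hS : PT S) (hg : PT g)
    (hk : PT k) : PT fun a => pk (S a) (g a) (k a) := by unfold pk; fun_prop

@[fun_prop] theorem pt_nrm {n : α → ℕ} {S : α → List FP} {g : α → FP} (hn : PT n) (hS : PT S)
    (hg : PT g) : PT fun a => nrm (n a) (S a) (g a) := by
  have hN : PT fun a => bd (g a) + ((S a).map fun t => bd t).sum := by fun_prop
  obtain ⟨p, hp⟩ := hN.sz_le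
  refine PT.foldl (f := fun a g k => g * pk (S a) g k) (by fun_prop) (by fun_prop) hg
    (p * (2 * p + 1)) fun a m => ?_
  have h1 := hp a
  rw [sz_nat] at h1
  have h2 := fold_mem (K := Sy (p.eval (sz a))) (S := S a) (fun t ht => bd_le.1 (by
    have := List.single_le_sum (l := (S a).map fun t => bd t) (fun _ _ => Nat.zero_le _) _
      (List.mem_map_of_mem ht)
    omega)) ((List.range (n a)).take m) (g a) (bd_le.1 (by omega))
  simpa using K1.sz_FP h2

end

theorem strong_gens [KG] (H : Grp) : Strong H.gens H.1 :=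
  ⟨fun _ ht => KG.mem_of_gens ht, fun _ hh _ hf hi => KG.gens_strong hh hf hi⟩

theorem toL_lc [KG] (g : FP) (H : Grp) : (Cos.lc g H).toL = [(H, nrm H.bd H.gens g)] := by
  have h1 : (Cos.lc g H).isE = false := Cos.isE_false.2 ⟨g, by simp⟩
  have h2 : (Cos.lc g H).rep = nrm H.bd H.gens g := by
    rw [Cos.rep, KG.grp_lc]
    exact cm_nrm (strong_gens H) H.le_bd fun y => Iff.rfl
  rw [Cos.toL, h1, h2, KG.grp_lc]
  rfl

theorem pt_lc [K1] [KG] : PT fun p : FP × Grp => Cos.lc p.1 p.2 := by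
  have h : PT fun p : FP × Grp => [(p.2, nrm p.2.bd p.2.gens p.1)] := by fun_prop
  exact h.congr (g := fun p => (Cos.lc p.1 p.2).toL) fun p => (toL_lc p.1 p.2).symm

/-- Strong generators from the tables. -/
def sg (n : ℕ) (l : List FP) : List FP :=
  (sgsL n (l.map fun g => (List.range n).map fun x => g • x) (List.range n)).map
    fun t => mkP n fun x => app t x

theorem exists_up [K1] {n : ℕ} {l : List FP} (h : ∀ g ∈ l, g ∈ Sy n) :
    ∃ l' : List (Perm (Fin n)), l'.map up = l := by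
  induction l with
  | nil => exact ⟨[], rfl⟩
  | cons g l ih =>
    obtain ⟨l', rfl⟩ := ih fun x hx => h x (List.mem_cons_of_mem _ hx)
    obtain ⟨σ, rfl⟩ := K1.up_surj (h g (by simp))
    exact ⟨σ :: l', rfl⟩

theorem sg_up [K1] {n : ℕ} (l : List (Perm (Fin n))) : sg n (l.map up) = (sgs l []).map up := by
  have e : ((l.map up).map fun g => (List.range n).map fun x => g • x) = l.map tab := by
    rw [List.map_map]
    exact List.map_congr_left fun σ _ => K1.tab_up σ
  have e2 := sgs_tab l []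
  rw [List.map_nil, List.nil_append] at e2
  rw [sg, e, e2, List.map_map]
  rfl

theorem fx_take [K1] {n i : ℕ} (hi : i < n) (σ : Perm (Fin n)) :
    Fx ((List.finRange n).take i) σ ↔ ∀ k < i, up σ • k = k := by
  constructor
  · intro h k hk
    have hk' : k < n := hk.trans hi
    have := h ⟨k, hk'⟩ (List.mem_take_iff_getElem.2 ⟨k, by simp; omega, by simp⟩)
    rw [show k = ((⟨k, hk'⟩ : Fin n) : ℕ) from rfl, K1.up_smul, this]
  · intro h b hb
    obtain ⟨k, hk, rfl⟩ := List.mem_take_iff_getElem.1 hb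
    have hk' : k < i := (lt_min_iff.1 hk).1
    apply Fin.ext
    rw [← K1.up_smul]
    simpa using h k hk'

theorem strong_sg [K1] {n : ℕ} {l : List FP} (h : ∀ g ∈ l, g ∈ Sy n) :
    Strong (sg n l) (Grp.ofL l).1 := by
  have hle : (Grp.ofL l).1 ≤ Sy n := (Subgroup.closure_le _).2 h
  obtain ⟨l, rfl⟩ := exists_up h
  rw [sg_up]
  refine ⟨fun t ht => ?_, fun g hg i hf hi => ?_⟩
  · obtain ⟨σ, hσ, rfl⟩ := List.mem_map.1 ht
    exact (K1.mem_gen_up l σ).1 (sgs_mem _ _ _ _ hσ)
  · have hin : i < n := by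
      by_contra hc
      exact hi (hle hg i (not_lt.1 hc))
    obtain ⟨σ, rfl⟩ := K1.up_surj (hle hg)
    have e : (List.finRange n).take i ++ (⟨i, hin⟩ : Fin n) :: (List.finRange n).drop (i + 1) =
        [] ++ List.finRange n := by
      have := List.getElem_cons_drop (as := List.finRange n) (i := i) (by simpa using hin)
      rw [List.getElem_finRange] at this
      rw [List.nil_append]
      conv_rhs => rw [← List.take_append_drop i (List.finRange n), ← this]
      rfl
    obtain ⟨t, ht, t1, t2⟩ := (sgs_st l []).sgp (by simp) ((K1.mem_gen_up l σ).2 hg) _ _ _ e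
      ((fx_take hin σ).2 hf)
    have t3 : up t • i = up σ • i := by
      rw [show i = ((⟨i, hin⟩ : Fin n) : ℕ) from rfl, K1.up_smul, K1.up_smul, t2]
    rcases List.mem_cons.1 ht with rfl | ht
    · refine absurd ?_ hi
      rw [← t3, show i = ((⟨i, hin⟩ : Fin n) : ℕ) from rfl, K1.up_smul, Perm.one_apply]
    · exact ⟨up t, List.mem_map_of_mem ht, (fx_take hin t).1 t1, t3⟩

/-- The canonical generators from strong generators. -/
def gp (b : ℕ) (S : List FP) : List FP :=
  (List.range b).flatMap fun i =>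
    ((List.range b).filter fun j => Nat.blt i j && S.any fun t => fixB i t && eqb (t • i) j).map
      fun j => nrm b (S.filter fun t => fixB (i + 1) t)
        ((S.filter fun t => fixB i t && eqb (t • i) j).headD 1)

theorem gens_eq [KG] {S : List FP} {H : Grp} (hS : Strong S H.1) : H.gens = gp H.bd S := by
  refine List.flatMap_congr fun i _ => ?_
  have e : ∀ j, decide (i < j ∧ ∃ h ∈ H.1, (∀ k < i, h • k = k) ∧ h • i = j) =
      (Nat.blt i j && S.any fun t => fixB i t && eqb (t • i) j) := fun j => by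
    rw [Bool.eq_iff_iff]
    simp only [decide_eq_true_eq, Bool.and_eq_true, Nat.blt_eq, List.any_eq_true, fixB_iff, eqb_iff]
    refine and_congr_right fun hij => ⟨?_, fun ⟨t, ht, h⟩ => ⟨t, hS.1 t ht, h⟩⟩
    rintro ⟨h, hh, hf, rfl⟩
    exact hS.2 h hh i hf hij.ne'
  simp only [e]
  refine List.map_congr_left fun j hj => ?_
  obtain ⟨t, ht, h1⟩ := List.any_eq_true.1 (Bool.and_eq_true_iff.1 (List.mem_filter.1 hj).2).2
  obtain ⟨h2, h3⟩ := List.mem_filter.1 (headD_mem (d := 1) (List.mem_filter.2 ⟨ht, h1⟩ :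
    t ∈ S.filter fun t => fixB i t && eqb (t • i) j))
  generalize (S.filter fun t => fixB i t && eqb (t • i) j).headD 1 = g at h2 h3
  simp only [Bool.and_eq_true, fixB_iff, eqb_iff] at h3
  refine cm_nrm ⟨fun u hu => ?_, fun h hh m hf hm => ?_⟩ (inf_le_left.trans H.le_bd) fun y => ?_
  · obtain ⟨u1, u2⟩ := List.mem_filter.1 hu
    exact ⟨hS.1 u u1, fun k hk => fixB_iff.1 u2 k (Nat.lt_succ_of_le hk)⟩
  · obtain ⟨u, hu, u1, u2⟩ := hS.2 h hh.1 m hf hm
    have him : i < m := by
      by_contra hc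
      exact hm (hh.2 m (not_lt.1 hc))
    exact ⟨u, List.mem_filter.2 ⟨hu, fixB_iff.2 fun k hk => u1 k (by omega)⟩, u1, u2⟩
  · have hg := hS.1 g h2
    constructor
    · rintro ⟨y1, y2, y3⟩
      refine ⟨H.1.mul_mem (H.1.inv_mem hg) y1, fun k hk => ?_⟩
      rw [mul_smul, inv_smul_eq_iff]
      rcases (show k ≤ i from hk).lt_or_eq with hk | rfl
      · rw [y2 k hk, h3.1 k hk]
      · rw [y3, h3.2]
    · rintro ⟨y1, y2⟩
      have e : ∀ k ≤ i, y • k = g • k := fun k hk => by
        have := y2 k hk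
        rwa [mul_smul, inv_smul_eq_iff] at this
      exact ⟨by simpa using mul_mem hg y1, fun k hk => by rw [e k hk.le, h3.1 k hk],
        by rw [e i le_rfl, h3.2]⟩

theorem bd_ofL (l : List FP) : (Grp.ofL l).bd =
    (fil (l.map fun g => bd g).sum fun x => l.any fun g => Nat.blt x (bd g)).card := by
  rw [← Finset.card_range (Grp.ofL l).bd]
  congr 1
  ext x
  have h3 : (Grp.ofL l).bd ≤ (l.map fun g => bd g).sum := Grp.bd_le.2 (Grp.list_bd l)
  have h4 : x < (Grp.ofL l).bd ↔ ∃ g ∈ l, x < bd g := by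
    rw [← not_le, Grp.bd_le, Grp.ofL_val, Subgroup.closure_le]
    simp only [Set.subset_def, Set.mem_ofPred_eq, SetLike.mem_coe, ← bd_le]
    push Not
    rfl
  simp only [mem_fil, List.any_eq_true, Nat.blt_eq, Finset.mem_range, ← h4]
  omega

theorem pt_bdL [K1] : PT fun l : List FP => (Grp.ofL l).bd :=
  (show PT fun l : List FP =>
    (fil (l.map fun g => bd g).sum fun x => l.any fun g => Nat.blt x (bd g)).card by
      fun_prop).congr fun l => (bd_ofL l).symm

theorem pt_sg [K1] : PT fun p : ℕ × List FP => sg p.1 p.2 := by unfold sg; fun_prop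

theorem pt_gp [K1] : PT fun p : ℕ × List FP => gp p.1 p.2 := by unfold gp; fun_prop

theorem of_gens {α : Type} [Enc α] {F : α → Grp} (h : PT fun a => (F a).gens) : PT F := h

theorem pt_ofL [K1] [KG] : PT Grp.ofL := by
  have h1 : PT fun l : List FP => sg (Grp.ofL l).bd l :=
    PT.comp (g := fun l : List FP => ((Grp.ofL l).bd, l)) pt_sg (pt_bdL.prodMk PT.id')
  have h : PT fun l : List FP => gp (Grp.ofL l).bd (sg (Grp.ofL l).bd l) :=
    PT.comp (g := fun l : List FP => ((Grp.ofL l).bd, sg (Grp.ofL l).bd l)) pt_gp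
      (pt_bdL.prodMk h1)
  exact of_gens (h.congr fun l => (gens_eq (strong_sg fun g hg =>
    (Grp.ofL l).le_bd (Subgroup.subset_closure hg))).symm)

end KLp

theorem b_kl [K1] [KG] : KL := ⟨KLp.pt_ofL, KLp.pt_lc⟩

end

end Pool.Agent.Lib.E6
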