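import Pool.Agent.Lib.E6.Spec

/-! E6, block KO: closure properties of oracle polynomial time. -/

namespace Pool.Agent.Lib.E6

open Equiv Pool.Agent.Lib.helper80 Pool.Agent.Lib.MP_e519cf_lc Polynomial Function

noncomputable section
open Classical

namespace KOb

variable {α β γ σ : Type} [Enc α] [Enc β] [Enc γ] [Enc σ]

/-- Functions computed with exactly one oracle call. -/
def OS {α β : Type} [Enc α] [Enc β] (g : α → β) : Prop :=
  ∃ (qry : α → Qy) (upd : α × Grp → β), PT qry ∧ PT upd ∧ ∀ s, g s = upd (s, orc (qry s))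

theorem OS.pt {f : α → β} (hf : PT f) : OS f :=
  ⟨fun _ => (true, 0, Grp.bot, ∅), fun p => f p.1, PT.const _, PT.comp hf (PT.fst PT.id'),
    fun _ => rfl⟩

theorem OS.ctx {δ : Type} [Enc δ] {g : β → γ} {pre : α → β} {post : α × γ → δ} (hg : OS g)
    (h1 : PT pre) (h2 : PT post) : OS fun a => post (a, g (pre a)) := by
  obtain ⟨q, u, hq, hu, e⟩ := hg
  refine ⟨fun a => q (pre a), fun p => post (p.1, u (pre p.1, p.2)), PT.comp hq h1, ?_,
    fun s => congrArg (fun c => post (s, c)) (e (pre s))⟩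
  exact PT.comp h2 (PT.prodMk (PT.fst PT.id')
    (PT.comp hu (PT.prodMk (PT.comp h1 (PT.fst PT.id')) (PT.snd PT.id'))))

theorem OS.cond {b : α → Bool} {f g : α → β} (hb : PT b) (hf : OS f) (hg : OS g) :
    OS fun a => bif b a then f a else g a := by
  obtain ⟨q, u, hq, hu, e⟩ := hf
  obtain ⟨q', u', hq', hu', e'⟩ := hg
  refine ⟨fun a => bif b a then q a else q' a, fun p => bif b p.1 then u p else u' p,
    PT.cond hb hq hq', PT.cond (PT.comp hb (PT.fst PT.id')) hu hu', fun s => ?_⟩
  cases h : b s <;> simp [h, e, e']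

theorem elim {f : α → β} (h : OT f) :
    ∃ (σ : Type) (_ : Enc σ) (g : σ → σ) (init : α → σ) (out : σ → β) (P : ℕ[X]),
      OS g ∧ PT init ∧ PT out ∧ ∀ a, (∀ k, sz (g^[k] (init a)) ≤ P.eval (sz a)) ∧
        ∀ k, P.eval (sz a) ≤ k → out (g^[k] (init a)) = f a := by
  obtain ⟨σ, _, init, qry, upd, out, P, h1, h2, h3, h4, h5⟩ := h
  exact ⟨σ, _, fun s => upd (s, orc (qry s)), init, out, P, ⟨qry, upd, h2, h3, fun _ => rfl⟩,
    h1, h4, h5⟩

theorem mk {g : σ → σ} {init : α → σ} {out : σ → β} {n : α → ℕ} (q : ℕ[X]) (hg : OS g)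
    (hi : PT init) (ho : PT out) (hn : PT n)
    (hq : ∀ a i, i ≤ n a → sz (g^[i] (init a)) ≤ q.eval (sz a)) :
    OT fun a => out (g^[n a] (init a)) := by
  obtain ⟨r, hr⟩ := hn.sz_le
  have hG : OS fun s : ℕ × σ => bif Nat.beq s.1 0 then s else (s.1.pred, g s.2) :=
    OS.cond (by fun_prop) (OS.pt PT.id')
      (OS.ctx (post := fun p : (ℕ × σ) × σ => (p.1.1.pred, p.2)) hg (PT.snd PT.id') (by fun_prop))
  obtain ⟨Q, U, hQ, hU, e⟩ := hG
  have e' : (fun s => U (s, orc (Q s))) =
      fun s : ℕ × σ => bif Nat.beq s.1 0 then s else (s.1.pred, g s.2) := funext fun s => (e s).symm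
  have key : ∀ (m : ℕ) (s : σ) (k : ℕ),
      (fun s : ℕ × σ => bif Nat.beq s.1 0 then s else (s.1.pred, g s.2))^[k] (m, s) =
        (m - k, g^[min k m] s) := by
    intro m s k
    induction k with
    | zero => simp
    | succ k ih =>
      rw [iterate_succ_apply', ih]
      by_cases h : m ≤ k
      · have h1 : m - k = 0 := by omega
        have h2 : m - (k + 1) = 0 := by omega
        rw [h1, h2, min_eq_right h, min_eq_right (by omega)]; rfl
      · obtain ⟨j, hj⟩ : ∃ j, m - k = j + 1 := ⟨m - k - 1, by omega⟩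
        have h2 : m - (k + 1) = j := by omega
        rw [hj, h2, min_eq_left (by omega), min_eq_left (by omega), iterate_succ_apply']; rfl
  refine ⟨ℕ × σ, inferInstance, fun a => (n a, init a), Q, U, fun s => out s.2,
    2 * r + 1 + q, PT.prodMk hn hi, hQ, hU, PT.comp ho (PT.snd PT.id'), fun a => ?_⟩
  have h1 : n a ≤ r.eval (sz a) := by simpa using hr a
  rw [e']
  refine ⟨fun k => ?_, fun k hk => ?_⟩
  · rw [key]
    have := hq a (min k (n a)) (min_le_right _ _)
    simp only [sz_pair, sz_nat, eval_add, eval_mul, eval_ofNat, eval_one]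
    omega
  · rw [key, min_eq_right]
    simp only [eval_add, eval_mul, eval_ofNat, eval_one] at hk
    omega

theorem ot_pt {f : α → β} (hf : PT f) : OT f := by
  obtain ⟨r, hr⟩ := hf.sz_le
  exact mk (g := fun b : β => b) (n := fun _ => 0) (out := fun b => b) r (OS.pt PT.id') hf PT.id'
    (PT.const 0) fun a i _ => by rw [iterate_fixed rfl]; exact hr a

theorem ot_sz {f : α → β} (h : OT f) : ∃ p : ℕ[X], ∀ a, sz (f a) ≤ p.eval (sz a) := by
  obtain ⟨σ, _, g, init, out, P, -, -, ho, h5⟩ := elim h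
  obtain ⟨r, hr⟩ := ho.sz_le
  refine ⟨r.comp P, fun a => ?_⟩
  rw [← (h5 a).2 _ le_rfl, eval_comp]
  exact (hr _).trans (eval_mono r ((h5 a).1 _))

theorem sz_orc [KG] (q : Qy) : sz (orc q) ≤ SB (sz q) := by
  obtain ⟨b, m, H, S⟩ := q
  refine KG.sz_Grp ?_
  have h1 := KG.gbd_le_sz H
  cases b
  · show (Grp.enorm m H).1 ≤ _
    unfold Grp.enorm
    split_ifs
    · exact inf_le_left.trans (Sy_mono (by simp; omega))
    · exact bot_le
  · exact inf_le_left.trans (H.le_bd.trans (Sy_mono (by simp; omega)))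

theorem ot_orc [KG] : OT orc := by
  have hg : OS fun s : Qy × Grp => (s.1, orc s.1) :=
    ⟨fun s => s.1, fun p => (p.1.1, p.2), by fun_prop, by fun_prop, fun _ => rfl⟩
  refine mk (init := fun q : Qy => (q, Grp.bot)) (out := fun s => s.2) (n := fun _ => 1)
    (2 * X + 1 + SBp) hg (by fun_prop) (by fun_prop) (PT.const 1) fun a i hi => ?_
  have h0 : sz Grp.bot ≤ SB (sz a) := KG.sz_Grp bot_le
  have h1 := sz_orc a
  obtain rfl | rfl : i = 0 ∨ i = 1 := by omega
  · simp; omega
  · simp; omega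

theorem pt_time [K1] (P : ℕ[X]) : PT fun a : α => P.eval (sz a) :=
  PT.comp (K1.pt_eval P) (PT.sz' PT.id')

theorem ot_comp [K1] {f : β → γ} {g : α → β} (hf : OT f) (hg : OT g) : OT fun a => f (g a) := by
  obtain ⟨r, hr⟩ := ot_sz hg
  obtain ⟨σ1, _, g1, i1, o1, P1, a1, a2, a3, a4⟩ := elim hg
  obtain ⟨σ2, _, g2, i2, o2, P2, b1, b2, b3, b4⟩ := elim hf
  let G : ℕ × σ1 × σ2 → ℕ × σ1 × σ2 := fun s =>
    bif Nat.beq s.1 0 then (0, s.2.1, g2 s.2.2) else
      bif Nat.beq s.1 1 then (0, s.2.1, i2 (o1 s.2.1)) else (s.1.pred, g1 s.2.1, s.2.2)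
  have hG : OS G :=
    OS.cond (by fun_prop)
      (OS.ctx (pre := fun s : ℕ × σ1 × σ2 => s.2.2)
        (post := fun p : (ℕ × σ1 × σ2) × σ2 => (0, p.1.2.1, p.2)) b1 (by fun_prop) (by fun_prop))
      (OS.cond (by fun_prop) (OS.pt (by fun_prop))
        (OS.ctx (pre := fun s : ℕ × σ1 × σ2 => s.2.1)
          (post := fun p : (ℕ × σ1 × σ2) × σ1 => (p.1.1.pred, p.2, p.1.2.2)) a1 (by fun_prop)
          (by fun_prop)))
  have k1 : ∀ (m : ℕ) (t : σ1) (u : σ2) (i : ℕ), i ≤ m →
      G^[i] (m + 1, t, u) = (m + 1 - i, g1^[i] t, u) := by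
    intro m t u i
    induction i with
    | zero => simp
    | succ i ih =>
      intro hi
      obtain ⟨j, hj⟩ : ∃ j, m + 1 - i = j + 2 := ⟨m - i - 1, by omega⟩
      have h2 : m + 1 - (i + 1) = j + 1 := by omega
      rw [iterate_succ_apply', ih (by omega), hj, h2, iterate_succ_apply']; rfl
  have k2 : ∀ (m : ℕ) (t : σ1) (u : σ2) (j : ℕ),
      G^[m + 1 + j] (m + 1, t, u) = (0, g1^[m] t, g2^[j] (i2 (o1 (g1^[m] t)))) := by
    intro m t u j
    induction j with
    | zero =>
      rw [add_zero, iterate_succ_apply', k1 m t u m le_rfl, Nat.add_sub_cancel_left]; rfl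
    | succ j ih => rw [← add_assoc, iterate_succ_apply', ih, iterate_succ_apply']; rfl
  have h0 : PT fun a => i2 (o1 (i1 a)) := by fun_prop
  obtain ⟨r0, hr0⟩ := h0.sz_le
  have ht1 := pt_time (α := α) P1
  have ht2 := pt_time (α := α) (P2.comp r)
  have h := mk (g := G) (init := fun a => (P1.eval (sz a) + 1, i1 a, i2 (o1 (i1 a))))
    (out := fun s => o2 s.2.2) (n := fun a => P1.eval (sz a) + 1 + (P2.comp r).eval (sz a))
    (2 * (P1 + 1) + 1 + (2 * P1 + 1 + (r0 + P2.comp r))) hG (by fun_prop) (by fun_prop)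
    (by fun_prop) fun a i _ => by
      simp only [eval_add, eval_mul, eval_ofNat, eval_one, eval_comp]
      by_cases hi : i ≤ P1.eval (sz a)
      · rw [k1 _ _ _ _ hi]
        have := (a4 a).1 i
        have := hr0 a
        simp only [sz_pair, sz_nat]
        omega
      · obtain ⟨j, rfl⟩ : ∃ j, i = P1.eval (sz a) + 1 + j := ⟨i - (P1.eval (sz a) + 1), by omega⟩
        rw [k2, (a4 a).2 _ le_rfl]
        have := (a4 a).1 (P1.eval (sz a))
        have := ((b4 (g a)).1 j).trans (eval_mono P2 (hr a))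
        simp only [sz_pair, sz_nat]
        omega
  refine h.congr fun a => ?_
  rw [k2, (a4 a).2 _ le_rfl]
  exact (b4 (g a)).2 _ (by rw [eval_comp]; exact eval_mono P2 (hr a))

theorem ot_str [K1] {f : α → β} (hf : OT f) : OT fun p : α × γ => (f p.1, p.2) := by
  obtain ⟨σ, _, g, i, o, P, a1, a2, a3, a4⟩ := elim hf
  have hG : OS fun s : σ × γ => (g s.1, s.2) :=
    OS.ctx (pre := fun s : σ × γ => s.1) (post := fun p : (σ × γ) × σ => (p.2, p.1.2)) a1
      (by fun_prop) (by fun_prop)
  have key : ∀ (t : σ) (c : γ) (k : ℕ),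
      (fun s : σ × γ => (g s.1, s.2))^[k] (t, c) = (g^[k] t, c) := by
    intro t c k
    induction k with
    | zero => rfl
    | succ k ih => rw [iterate_succ_apply', ih, iterate_succ_apply']
  have h := mk (init := fun p : α × γ => (i p.1, p.2)) (out := fun s : σ × γ => (o s.1, s.2))
    (n := fun p => P.eval (sz p)) (2 * P + 1 + X) hG (by fun_prop) (by fun_prop) (pt_time P)
    fun p k _ => by
      obtain ⟨a, c⟩ := p
      rw [key]
      have := ((a4 a).1 k).trans (eval_mono P (show sz a ≤ sz (a, c) by simp; omega))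
      simp only [eval_add, eval_mul, eval_ofNat, eval_one, eval_X, sz_pair] at this ⊢
      omega
  refine h.congr fun p => ?_
  obtain ⟨a, c⟩ := p
  rw [key, (a4 a).2 _ (eval_mono P (by simp; omega))]

theorem ot_pair [K1] {f : α → β} {g : α → γ} (hf : OT f) (hg : OT g) : OT fun a => (f a, g a) :=
  ot_comp (f := fun p : γ × β => (p.2, p.1)) (ot_pt (by fun_prop))
    (ot_comp (ot_str (γ := β) hg) (ot_comp (f := fun p : β × α => (p.2, p.1)) (ot_pt (by fun_prop))
      (ot_comp (ot_str (γ := α) hf) (g := fun a => (a, a)) (ot_pt (by fun_prop)))))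

theorem ot_cond [K1] {b : α → Bool} {f g : α → β} (hb : OT b) (hf : OT f) (hg : OT g) :
    OT fun a => bif b a then f a else g a :=
  ot_comp (f := fun p : Bool × β × β => bif p.1 then p.2.1 else p.2.2) (ot_pt (by fun_prop))
    (ot_pair hb (ot_pair hf hg))

/-- Iteration with polynomial time data and total size bounds. -/
theorem iter0 [K1] {step : β → β} {n : α → ℕ} {s : α → β} (q : ℕ[X]) (h : OT step) (hn : PT n)
    (hs : PT s) (hq : ∀ a i, i ≤ n a → sz (step^[i] (s a)) ≤ q.eval (sz a)) :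
    OT fun a => step^[n a] (s a) := by
  obtain ⟨σ, _, g, i0, o, P, a1, a2, a3, a4⟩ := elim h
  let G : ℕ × ℕ × β × σ → ℕ × ℕ × β × σ := fun s =>
    bif Nat.beq s.2.1 0 then (s.1, s.1, o s.2.2.2, i0 (o s.2.2.2))
      else (s.1, s.2.1.pred, s.2.2.1, g s.2.2.2)
  have hG : OS G :=
    OS.cond (by fun_prop) (OS.pt (by fun_prop))
      (OS.ctx (pre := fun s : ℕ × ℕ × β × σ => s.2.2.2)
        (post := fun p : (ℕ × ℕ × β × σ) × σ => (p.1.1, p.1.2.1.pred, p.1.2.2.1, p.2)) a1
        (by fun_prop) (by fun_prop))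
  have k1 : ∀ (M : ℕ) (b : β) (t : σ) (j : ℕ), j ≤ M →
      G^[j] (M, M, b, t) = (M, M - j, b, g^[j] t) := by
    intro M b t j
    induction j with
    | zero => simp
    | succ j ih =>
      intro hj
      obtain ⟨l, hl⟩ : ∃ l, M - j = l + 1 := ⟨M - j - 1, by omega⟩
      have h2 : M - (j + 1) = l := by omega
      rw [iterate_succ_apply', ih (by omega), hl, h2, iterate_succ_apply']; rfl
  have k2 : ∀ a i, i ≤ n a →
      G^[i * ((P.comp q).eval (sz a) + 1)]
        ((P.comp q).eval (sz a), (P.comp q).eval (sz a), s a, i0 (s a)) =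
      ((P.comp q).eval (sz a), (P.comp q).eval (sz a), step^[i] (s a), i0 (step^[i] (s a))) := by
    intro a i
    induction i with
    | zero => simp
    | succ i ih =>
      intro hi
      have e : o (g^[(P.comp q).eval (sz a)] (i0 (step^[i] (s a)))) = step (step^[i] (s a)) :=
        (a4 _).2 _ (by rw [eval_comp]; exact eval_mono P (hq a i (by omega)))
      rw [add_mul, one_mul, add_comm, iterate_add_apply, ih (by omega), iterate_succ_apply',
        k1 _ _ _ _ le_rfl, Nat.sub_self, iterate_succ_apply', ← e]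
      rfl
  have ht := pt_time (α := α) (P.comp q)
  have h := mk (g := G)
    (init := fun a => ((P.comp q).eval (sz a), (P.comp q).eval (sz a), s a, i0 (s a)))
    (out := fun s => s.2.2.1) (n := fun a => n a * ((P.comp q).eval (sz a) + 1))
    (2 * P.comp q + 1 + (2 * P.comp q + 1 + (2 * q + 1 + P.comp q))) hG (by fun_prop)
    (by fun_prop) (by fun_prop) fun a k hk => by
      set M := (P.comp q).eval (sz a) with hM
      have hi : k / (M + 1) ≤ n a := Nat.div_le_of_le_mul (by rw [mul_comm]; exact hk)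
      have hj : k % (M + 1) ≤ M := Nat.le_of_lt_succ (Nat.mod_lt _ (Nat.succ_pos _))
      rw [← Nat.mod_add_div' k (M + 1), iterate_add_apply, k2 a _ hi, k1 _ _ _ _ hj]
      have h1 := hq a _ hi
      have h2 := ((a4 (step^[k / (M + 1)] (s a))).1 (k % (M + 1))).trans (eval_mono P h1)
      rw [← eval_comp, ← hM] at h2
      simp only [eval_add, eval_mul, eval_ofNat, eval_one, sz_pair, sz_nat, ← hM]
      omega
  exact h.congr fun a => by rw [k2 a _ le_rfl]

theorem ot_iter [K1] {step : β → β} {n : α → ℕ} {s : α → β} (V : α → Prop) (q : ℕ[X])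
    (h : OT step) (hn : OT n) (hs : OT s)
    (hq : ∀ a, V a → ∀ i, i ≤ n a → sz (step^[i] (s a)) ≤ q.eval (sz a)) :
    ∃ g, OT g ∧ ∀ a, V a → g a = step^[n a] (s a) := by
  let st : ℕ × β → ℕ × β := fun p => bif Nat.ble (sz (step p.2)) p.1 then (p.1, step p.2) else p
  have hst : OT st :=
    ot_comp (f := fun x : (ℕ × β) × β => bif Nat.ble (sz x.2) x.1.1 then (x.1.1, x.2) else x.1)
      (ot_pt (by fun_prop))
      (ot_pair (ot_pt PT.id') (ot_comp h (g := fun p : ℕ × β => p.2) (ot_pt (by fun_prop))))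
  have b1 : ∀ (Q : ℕ) (b : β) (i : ℕ),
      (st^[i] (Q, b)).1 = Q ∧ sz (st^[i] (Q, b)).2 ≤ Q + sz b := by
    intro Q b i
    induction i with
    | zero => simp
    | succ i ih =>
      rw [iterate_succ_apply']
      generalize st^[i] (Q, b) = x at ih
      simp only [st]
      cases hb : Nat.ble (sz (step x.2)) x.1
      · exact ih
      · have := Nat.le_of_ble_eq_true hb
        exact ⟨ih.1, by simp only [cond_true]; omega⟩
  have h0 : OT fun p : ℕ × ℕ × β => st^[p.1] p.2 :=
    iter0 (2 * X + 1 + (X + X)) hst (by fun_prop) (by fun_prop) fun p i _ => by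
      obtain ⟨m, Q, b⟩ := p
      obtain ⟨e1, e2⟩ := b1 Q b i
      have e3 : st^[i] (Q, b) = (Q, (st^[i] (Q, b)).2) := Prod.ext e1 rfl
      rw [e3]
      simp only [eval_add, eval_mul, eval_ofNat, eval_one, eval_X, sz_pair, sz_nat]
      omega
  refine ⟨fun a => (st^[n a] (q.eval (sz a), s a)).2,
    ot_comp (f := fun p : ℕ × β => p.2) (ot_pt (by fun_prop))
      (ot_comp h0 (ot_pair hn (ot_pair (ot_pt (pt_time q)) hs))), fun a ha => ?_⟩
  have key : ∀ i, i ≤ n a → st^[i] (q.eval (sz a), s a) = (q.eval (sz a), step^[i] (s a)) := by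
    intro i
    induction i with
    | zero => simp
    | succ i ih =>
      intro hi
      have := hq a ha (i + 1) hi
      rw [iterate_succ_apply'] at this
      rw [iterate_succ_apply', ih (by omega), iterate_succ_apply']
      simp only [st, Nat.ble_eq_true_of_le this, cond_true]
  show (st^[n a] (q.eval (sz a), s a)).2 = _
  rw [key _ le_rfl]

theorem ot_foldl [K1] {f : α → γ → β → γ} {l : α → List β} {i : α → γ} (V : α → Prop) (q : ℕ[X])
    (hf : OT fun p : α × γ × β => f p.1 p.2.1 p.2.2) (hl : OT l) (hi : OT i)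
    (hq : ∀ a, V a → ∀ n, sz (((l a).take n).foldl (f a) (i a)) ≤ q.eval (sz a)) :
    ∃ g, OT g ∧ ∀ a, V a → g a = (l a).foldl (f a) (i a) := by
  obtain ⟨r, hr⟩ := ot_sz hl
  have h1 : OT fun s : α × List β × γ => lcases s.2.1 s.2.2 fun b _ => f s.1 s.2.2 b := by
    by_cases hβ : Nonempty β
    · obtain ⟨b0⟩ := hβ
      refine (ot_cond (b := fun s : α × List β × γ => s.2.1.isEmpty) (f := fun s => s.2.2)
        (ot_pt (by fun_prop)) (ot_pt (by fun_prop))
        (ot_comp hf (g := fun s : α × List β × γ => (s.1, s.2.2, s.2.1.headD b0))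
          (ot_pt (by fun_prop)))).congr fun s => ?_
      obtain ⟨a, L, c⟩ := s
      cases L <;> rfl
    · refine (ot_pt (f := fun s : α × List β × γ => s.2.2) (by fun_prop)).congr fun s => ?_
      obtain ⟨a, L, c⟩ := s
      cases L with
      | nil => rfl
      | cons b t => exact absurd ⟨b⟩ hβ
  let step : α × List β × γ → α × List β × γ :=
    fun s => (s.1, s.2.1.tail, lcases s.2.1 s.2.2 fun b _ => f s.1 s.2.2 b)
  have hstep : OT step :=
    ot_pair (ot_pt (by fun_prop)) (ot_pair (ot_pt (by fun_prop)) h1)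
  have key : ∀ a n, step^[n] (a, l a, i a) =
      (a, (l a).drop n, ((l a).take n).foldl (f a) (i a)) := by
    intro a n
    induction n with
    | zero => simp
    | succ n ih =>
      rw [iterate_succ_apply', ih]
      simp only [step, List.tail_drop, Prod.mk.injEq, true_and]
      rw [List.take_add_one, List.foldl_append, ← List.head?_drop]
      cases (l a).drop n <;> simp [lcases]
  obtain ⟨g, hg, e⟩ := ot_iter (s := fun a => (a, l a, i a)) (n := fun a => (l a).length) V
    (2 * X + 1 + (2 * r + 1 + q)) hstep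
    (ot_comp (f := fun L : List β => L.length) (ot_pt (by fun_prop)) hl)
    (ot_pair (ot_pt PT.id') (ot_pair hl hi)) fun a ha n _ => by
      rw [key]
      have := sz_drop_le n (l a)
      have := hr a
      have := hq a ha n
      simp only [eval_add, eval_mul, eval_ofNat, eval_one, eval_X, sz_pair]
      omega
  refine ⟨fun a => (g a).2.2,
    ot_comp (f := fun s : α × List β × γ => s.2.2) (ot_pt (by fun_prop)) hg, fun a ha => ?_⟩
  show (g a).2.2 = _
  rw [e a ha, key, List.take_length]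

theorem ot_map [K1] {f : α → β → γ} {l : α → List β} (hf : OT fun p : α × β => f p.1 p.2)
    (hl : OT l) : OT fun a => (l a).map (f a) := by
  obtain ⟨r, hr⟩ := ot_sz hl
  obtain ⟨p, hp⟩ := ot_sz hf
  have e : ∀ a (l : List β) (acc : List γ),
      l.foldl (fun acc b => acc ++ [f a b]) acc = acc ++ l.map (f a) := by
    intro a l
    induction l with
    | nil => simp
    | cons b l ih => intro acc; simp [ih]
  obtain ⟨g, hg, e'⟩ := ot_foldl (f := fun a (acc : List γ) b => acc ++ [f a b])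
    (i := fun _ => []) (fun _ => True) (r * (2 * p.comp (2 * X + 1 + r) + 1))
    (ot_comp (f := fun x : List γ × γ => x.1 ++ [x.2]) (ot_pt (by fun_prop))
      (ot_pair (f := fun x : α × List γ × β => x.2.1) (ot_pt (by fun_prop))
        (ot_comp hf (g := fun x : α × List γ × β => (x.1, x.2.2)) (ot_pt (by fun_prop)))))
    hl (ot_pt (PT.const _)) fun a _ n => by
      rw [e, List.nil_append]
      refine (sz_le_of_forall (m := p.eval (2 * sz a + 1 + r.eval (sz a))) fun c hc => ?_).trans ?_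
      · obtain ⟨b, hb, rfl⟩ := List.mem_map.1 hc
        have h3 := (sz_le_of_mem (List.mem_of_mem_take hb)).trans (hr a)
        exact (hp (a, b)).trans (eval_mono p (by simp; omega))
      · have h2 : (((l a).take n).map (f a)).length ≤ r.eval (sz a) := by
          rw [List.length_map]
          exact (List.length_take_le' _ _).trans ((length_le_sz _).trans (hr a))
        simp only [eval_mul, eval_comp, eval_add, eval_X, eval_ofNat, eval_one]
        gcongr
  exact hg.congr fun a => by rw [e' a trivial, e, List.nil_append]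

end KOb

theorem b_ko [K1] [KG] : KO where
  ot_pt := KOb.ot_pt
  ot_comp := KOb.ot_comp
  ot_pair := KOb.ot_pair
  ot_orc := KOb.ot_orc
  ot_sz := KOb.ot_sz
  ot_iter := KOb.ot_iter
  ot_foldl := KOb.ot_foldl
  ot_map := KOb.ot_map

end

end Pool.Agent.Lib.E6
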