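import Pool.Agent.Lib.E6.Spec

/-! E6, block M2: finiteness arguments and length. -/

namespace Pool.Agent.Lib.E6

open Equiv Pool.Agent.Lib.helper80 Pool.Agent.Lib.MP_e519cf_lc Polynomial

noncomputable section
open Classical

set_option linter.unusedSectionVars false

namespace BM2

theorem card_cj (g : FP) (H : SG) : Nat.card (cj g H) = Nat.card H := by
  have e : cj g H = H.map (MulAut.conj g).toMonoidHom := by
    ext x
    rw [mem_cj]
    constructor
    · intro h
      exact ⟨_, h, by simp [mul_assoc]⟩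
    · rintro ⟨y, hy, rfl⟩
      simpa [mul_assoc] using hy
  rw [e]
  exact Subgroup.card_map_of_injective (MulAut.conj g).injective

theorem card_ne [K1] {n : ℕ} {H : SG} (h : H ≤ Sy n) : Nat.card H ≠ 0 := by
  have := K1.finite_Sy h
  exact Nat.card_pos.ne'

theorem len_split [K1] {n : ℕ} {A B : SG} (hB : B ≤ Sy n) (h : A ≤ B) :
    ∃ k, Nat.card B = Nat.card A * k ∧ len B = len A + ArithmeticFunction.cardFactors k ∧ k ≠ 0 := by
  obtain ⟨k, hk⟩ := Subgroup.card_dvd_of_le h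
  have h0 : k ≠ 0 := by
    rintro rfl
    exact card_ne hB (by simpa using hk)
  refine ⟨k, hk, ?_, h0⟩
  rw [len, len, hk, ArithmeticFunction.cardFactors_mul (card_ne (h.trans hB)) h0]

theorem len_mono [K1] {n : ℕ} {A B : SG} (hB : B ≤ Sy n) (h : A ≤ B) : len A ≤ len B := by
  obtain ⟨k, -, e, -⟩ := len_split hB h
  omega

theorem eq_of_len [K1] {n : ℕ} {A B : SG} (hB : B ≤ Sy n) (h : A ≤ B) (hl : len B ≤ len A) :
    A = B := by
  obtain ⟨k, hk, e, h0⟩ := len_split hB h
  have h1 : ArithmeticFunction.cardFactors k = 0 := by omega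
  rcases ArithmeticFunction.cardFactors_eq_zero_iff_eq_zero_or_one.1 h1 with h2 | h2
  · exact absurd h2 h0
  · have := K1.finite_Sy hB
    exact Subgroup.eq_of_le_of_card_ge h (by rw [hk, h2, mul_one])

theorem card_rel (A B : SG) : Nat.card A = B.relIndex A * Nat.card (A ⊓ B : SG) := by
  rw [← Subgroup.index_mul_card (B.subgroupOf A), Subgroup.relIndex,
    ← Subgroup.inf_subgroupOf_left B A,
    Nat.card_congr (Subgroup.subgroupOfEquivOfLe (inf_le_left : A ⊓ B ≤ A)).toEquiv]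

theorem card_sup {A B : SG} (h : Nm A B) :
    Nat.card (A ⊔ B : SG) * Nat.card (A ⊓ B : SG) = Nat.card A * Nat.card B := by
  have hle : A ≤ Subgroup.normalizer (B : Set FP) := Subgroup.le_normalizer_iff.2 h
  have e : B.relIndex A = B.relIndex (A ⊔ B) := by
    have := Subgroup.normal_subgroupOf_of_le_normalizer hle
    have := Subgroup.normal_subgroupOf_sup_of_le_normalizer hle
    exact Nat.card_congr (QuotientGroup.quotientInfEquivProdNormalizerQuotient A B hle).toEquiv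
  rw [card_rel (A ⊔ B) B, inf_eq_right.2 (le_sup_right : B ≤ A ⊔ B), ← e]
  conv_rhs => rw [card_rel A B]
  ring

theorem om_le (k : ℕ) : ArithmeticFunction.cardFactors k ≤ k := by
  induction k using Nat.recOnMul with
  | zero => simp
  | one => simp
  | prime p hp => rw [ArithmeticFunction.cardFactors_apply_prime hp]; exact hp.pos
  | mul a b ha hb =>
    rcases Nat.eq_zero_or_pos a with rfl | h1
    · simp
    rcases Nat.eq_zero_or_pos b with rfl | h2
    · simp
    rcases Nat.eq_or_lt_of_le h1 with h3 | h3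
    · have : a = 1 := h3.symm
      subst this; simpa using hb
    rcases Nat.eq_or_lt_of_le h2 with h4 | h4
    · have : b = 1 := h4.symm
      subst this; simpa using ha
    rw [ArithmeticFunction.cardFactors_mul h1.ne' h2.ne']
    nlinarith

theorem om_fact (n : ℕ) : ArithmeticFunction.cardFactors n.factorial ≤ n * n := by
  induction n with
  | zero => simp
  | succ n ih =>
    rw [Nat.factorial_succ, ArithmeticFunction.cardFactors_mul (Nat.succ_ne_zero n)
      (Nat.factorial_ne_zero n)]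
    have := om_le (n + 1)
    nlinarith

theorem sol_le [K1] [M1] {n : ℕ} {E D : SG} (hE : E ≤ Sy n) (hD : NI E D) (hs : Sol E D)
    (_ : E ≤ ⁅E, E⁆ ⊔ D) : ∀ (k : ℕ) (R : SG), len R ≤ k → R ≤ E → E ≤ R ⊔ D → E ≤ D := by
  rename_i hp
  intro k
  induction k using Nat.strong_induction_on with
  | _ k ih =>
    intro R hk hR hER
    by_cases h : R ≤ ⁅R, R⁆
    · exact hER.trans (sup_le (hs R hR h) le_rfl)
    · have h1 : ⁅R, R⁆ ≤ R := M1.comm_self_le R
      have h2 : len ⁅R, R⁆ < len R := by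
        by_contra h3
        exact h (eq_of_len (hR.trans hE) h1 (not_lt.1 h3)).ge
      refine ih _ (h2.trans_le hk) ⁅R, R⁆ le_rfl (h1.trans hR) ?_
      refine hp.trans (sup_le ?_ le_sup_right)
      exact (Subgroup.commutator_mono hER hER).trans (M1.comm_sup_le (M1.nm_mono hR hD.2))

theorem nrm {E D : SG} (h : NI E D) : (D.subgroupOf E).Normal :=
  (Subgroup.normal_subgroupOf_iff h.1).2 fun d e hd he => h.2 e he d hd

section quot

variable {E : SG} {Q : Type} [Group Q] (φ : E →* Q)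

/-- Preimage in the ambient group. -/
def pre (S : Subgroup Q) : SG := (S.comap φ).map E.subtype

theorem mem_pre {S : Subgroup Q} {a : FP} : a ∈ pre φ S ↔ ∃ h : a ∈ E, φ ⟨a, h⟩ ∈ S := by
  constructor
  · rintro ⟨x, hx, rfl⟩
    exact ⟨x.2, hx⟩
  · rintro ⟨h, hx⟩
    exact ⟨⟨a, h⟩, hx, rfl⟩

/-- Image of an ambient subgroup. -/
def bar (K : SG) : Subgroup Q := (K.subgroupOf E).map φ

variable {φ}

theorem mem_bar {K D : SG} (hk : ∀ x : E, φ x = 1 ↔ (x : FP) ∈ D) (hD : D ≤ K) {x : E} :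
    φ x ∈ bar φ K ↔ (x : FP) ∈ K := by
  constructor
  · rintro ⟨y, hy, e⟩
    have h1 : φ (y⁻¹ * x) = 1 := by rw [map_mul, map_inv, e, inv_mul_cancel]
    have h2 := hD ((hk _).1 h1)
    have h3 : (y : FP) ∈ K := hy
    simpa using K.mul_mem h3 h2
  · intro h
    exact ⟨x, h, rfl⟩

theorem pg_bar {p : ℕ} {K D : SG} (hk : ∀ x : E, φ x = 1 ↔ (x : FP) ∈ D) (h : EA p K D) :
    IsPGroup p (bar φ K) := by
  rintro ⟨_, y, hy, rfl⟩
  refine ⟨1, Subtype.ext ?_⟩
  have h3 : (y : FP) ∈ K := hy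
  have : φ (y ^ p) = 1 := (hk _).2 (h.2.2 _ h3)
  simpa using this

theorem nilp {p : ℕ} {Y D : SG} [Finite Q] (hs : Function.Surjective φ)
    (hk : ∀ x : E, φ x = 1 ↔ (x : FP) ∈ D) (hp : p.Prime) (hD : D ≤ E) (hY : Y ≤ E)
    (h : EA p Y D) (he : ∀ e ∈ E, e ^ p ∈ Y) (hc : Y ≤ ⁅Y, E⁆ ⊔ D) : Y ≤ D := by
  have := Fact.mk hp
  have hq : IsPGroup p Q := by
    intro g
    obtain ⟨x, rfl⟩ := hs g
    refine ⟨2, ?_⟩
    rw [← map_pow, hk, pow_two, pow_mul]
    exact h.2.2 _ (he _ x.2)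
  obtain ⟨m, hm⟩ := Subgroup.nilpotent_iff_lowerCentralSeries.1 hq.isNilpotent
  have key : ∀ m, Y ≤ pre φ ((⊤ : Subgroup Q).lowerCentralSeries m) := by
    intro m
    induction m with
    | zero => exact fun y hy => (mem_pre φ).2 ⟨hY hy, Subgroup.mem_top _⟩
    | succ m ih =>
      refine hc.trans (sup_le (Subgroup.commutator_le.2 fun y hy e he => ?_) fun d hd => ?_)
      · obtain ⟨hy', h1⟩ := (mem_pre φ).1 (ih hy)
        have h2 := Subgroup.commutator_mem_commutator h1 (Subgroup.mem_top (φ ⟨e, he⟩))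
        rw [← map_commutatorElement] at h2
        exact ⟨_, h2, rfl⟩
      · refine (mem_pre φ).2 ⟨hD hd, ?_⟩
        rw [(hk ⟨d, hD hd⟩).2 hd]
        exact one_mem _
  intro y hy
  obtain ⟨h1, h2⟩ := (mem_pre φ).1 (key m hy)
  rw [hm, Subgroup.mem_bot] at h2
  exact (hk _).1 h2

/-- A complement to the normal `q`-subgroup is a Sylow subgroup of the quotient. -/
def syl [M1] {p q : ℕ} {X Y D : SG} (hs : Function.Surjective φ)
    (hk : ∀ x : E, φ x = 1 ↔ (x : FP) ∈ D) (hp : p.Prime) (hq : q.Prime) (hne : q ≠ p)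
    (hE : X ⊔ Y = E) (hY : Nm E Y) (hX : EA p X D) (hYq : EA q Y D) : Sylow p Q where
  toSubgroup := bar φ X
  isPGroup' := pg_bar hk hX
  is_maximal' := by
    intro P hP hle
    have := Fact.mk hp
    have := Fact.mk hq
    have hXE : X ≤ E := hE ▸ le_sup_left
    have hYE : Y ≤ E := hE ▸ le_sup_right
    refine le_antisymm (fun g hg => ?_) hle
    obtain ⟨e, rfl⟩ := hs g
    obtain ⟨x, hx, y, hy, exy⟩ := (M1.mem_sup_nm (M1.nm_mono hXE hY)).1 (hE.ge e.2)
    have e1 : e = ⟨x, hXE hx⟩ * ⟨y, hYE hy⟩ := Subtype.ext exy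
    have h1 : φ ⟨x, hXE hx⟩ ∈ bar φ X := (mem_bar hk hX.1).2 hx
    have h2 : φ ⟨y, hYE hy⟩ ∈ P := by
      have := P.mul_mem (P.inv_mem (hle h1)) hg
      rwa [e1, map_mul, inv_mul_cancel_left] at this
    have h3 : φ ⟨y, hYE hy⟩ ∈ bar φ Y := (mem_bar hk hYq.1).2 hy
    have h4 := Subgroup.disjoint_def.1
      (IsPGroup.disjoint_of_ne p q hne.symm P (bar φ Y) hP (pg_bar hk hYq)) h2 h3
    rw [e1, map_mul, h4, mul_one]
    exact h1

open Pointwise in
theorem sylow [M1] {p q : ℕ} {X Z Y D : SG} [Finite Q] (hs : Function.Surjective φ)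
    (hk : ∀ x : E, φ x = 1 ↔ (x : FP) ∈ D) (hp : p.Prime) (hq : q.Prime) (hne : q ≠ p)
    (hE : X ⊔ Y = E) (hZ : Z ⊔ Y = E) (hY : Nm E Y) (hX : EA p X D) (hZp : EA p Z D)
    (hYq : EA q Y D) : ∃ y ∈ Y, cj y X = Z := by
  have := Fact.mk hp
  have hXE : X ≤ E := hE ▸ le_sup_left
  have hZE : Z ≤ E := hZ ▸ le_sup_left
  obtain ⟨g, hg⟩ := MulAction.exists_smul_eq Q (syl hs hk hp hq hne hE hY hX hYq)
    (syl hs hk hp hq hne hZ hY hZp hYq)
  have h1 : MulAut.conj g • bar φ X = bar φ Z := by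
    exact congrArg (fun P : Sylow p Q => (P : Subgroup Q)) hg
  obtain ⟨e, rfl⟩ := hs g
  have h2 : cj e X = Z := by
    ext a
    rw [mem_cj]
    by_cases ha : a ∈ E
    · have h3 := mem_bar (K := Z) hk hZp.1 (x := ⟨a, ha⟩)
      have h4 := mem_bar (K := X) hk hX.1 (x := e⁻¹ * ⟨a, ha⟩ * e)
      rw [← h1, Subgroup.mem_pointwise_smul_iff_inv_smul_mem] at h3
      simp only [map_mul, map_inv] at h4
      refine h4.symm.trans (Iff.trans ?_ h3)
      simp [mul_assoc]
    · refine iff_of_false (fun h => ha ?_) fun h => ha (hZE h)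
      simpa [mul_assoc] using E.mul_mem (E.mul_mem e.2 (hXE h)) (E.inv_mem e.2)
  have h5 : (e : FP) ∈ Y ⊔ X := by rw [sup_comm, hE]; exact e.2
  obtain ⟨y, hy, x, hx, exy⟩ := (M1.mem_sup_nm' (M1.nm_mono hXE hY)).1 h5
  exact ⟨y, hy, by rw [← h2, exy, M1.cj_mul, M1.cj_of_mem hx]⟩

end quot

theorem mk_ker {E D : SG} [(D.subgroupOf E).Normal] (x : E) :
    QuotientGroup.mk' (D.subgroupOf E) x = 1 ↔ (x : FP) ∈ D := by
  rw [QuotientGroup.mk'_apply, QuotientGroup.eq_one_iff, Subgroup.mem_subgroupOf]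

end BM2

open BM2 in
theorem b_m2 [K1] [M1] : M2 where
  sol_le := fun hE hD hs hp => sol_le hE hD hs hp _ _ le_rfl le_rfl le_sup_left
  eq_of_cj_le := fun {n X g} hX h => by
    have := K1.finite_Sy hX
    exact Subgroup.eq_of_le_of_card_ge h (card_cj g X).ge
  len_lt := fun hB h => by
    by_contra h1
    exact h.ne (eq_of_len hB h.le (not_lt.1 h1))
  len_mono := len_mono
  eq_of_len := eq_of_len
  len_sup := fun {n A B} hA hB h => by
    rw [len, len, len, len,
      ← ArithmeticFunction.cardFactors_mul (card_ne (sup_le hA hB)) (card_ne (inf_le_left.trans hA)),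
      ← ArithmeticFunction.cardFactors_mul (card_ne hA) (card_ne hB), card_sup h]
  len_le := fun {n H} h => (len_mono le_rfl h).trans (by rw [len, K1.card_Sy]; exact om_fact n)
  len_cj := fun g H => by rw [len, len, card_cj]
  len_bot := by simp [len]
  nilp := fun {n p E Y D} hE hp hD hY h he hc => by
    have := K1.finite_Sy hE
    have := nrm hD
    exact nilp (QuotientGroup.mk'_surjective (D.subgroupOf E)) mk_ker hp hD.1 hY.1 h he hc
  sylow := fun {n p q X Z Y D} hE hp hq hne hD hY hZ _ _ hX hZp hYq => by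
    have := K1.finite_Sy hE
    have := nrm hD
    exact sylow (QuotientGroup.mk'_surjective (D.subgroupOf (X ⊔ Y))) mk_ker hp hq hne rfl hZ
      hY.2 hX hZp hYq

end

end Pool.Agent.Lib.E6
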