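import Pool.Agent.Lib.E6.Spec

namespace Pool.Agent.Lib.E6

open Equiv Pool.Agent.Lib.helper80 Pool.Agent.Lib.MP_e519cf_lc Polynomial

noncomputable section
open Classical

set_option linter.unusedSectionVars false

namespace BM3h

/-- `y` and `h` agree on the orbit of `a`. -/
def Ag (X : SG) (a : ℕ) (y h : FP) : Prop := ∀ x, So X a x → y • x = h • x

/-- `g` preserves every orbit of `X`. -/
def Pr (X : SG) (g : FP) : Prop := ∀ x, So X x (g • x)

theorem ag_mul [M3] {X : SG} {a : ℕ} {y z h k : FP} (hk : Pr X k) (h1 : Ag X a y h)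
    (h2 : Ag X a z k) : Ag X a (y * z) (h * k) := fun x hx => by
  rw [mul_smul, mul_smul, h2 x hx, h1 _ (M3.so_trans hx (hk x))]

theorem ag_inv [M3] {X : SG} {a : ℕ} {y h : FP} (hk : Pr X h⁻¹) (h1 : Ag X a y h) :
    Ag X a y⁻¹ h⁻¹ := fun x hx => by
  rw [inv_smul_eq_iff, h1 _ (M3.so_trans hx (hk x)), smul_inv_smul]

theorem ag_pow [M3] {X H : SG} {a : ℕ} {y h : FP} (hH : ∀ h ∈ H, Pr X h) (hh : h ∈ H)
    (h1 : Ag X a y h) (k : ℕ) : Ag X a (y ^ k) (h ^ k) := by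
  induction k with
  | zero => intro x _; rw [pow_zero, pow_zero]
  | succ k ih => rw [pow_succ, pow_succ]; exact ag_mul (hH h hh) ih h1

theorem pr_sst [M3] {X : Grp} {g : FP} (hg : Pr X.1 g) (a : ℕ) : g ∈ sst (X.orb a : Set ℕ) := by
  intro x
  rw [Finset.mem_coe, Finset.mem_coe, Grp.mem_orb, Grp.mem_orb]
  exact ⟨fun h => M3.so_trans h (M3.so_symm (hg x)), fun h => M3.so_trans h (hg x)⟩

theorem res_in [M3] {X : Grp} {g : FP} (hg : Pr X.1 g) {a x : ℕ} (h : So X.1 a x) :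
    res (X.orb a) g • x = g • x := by
  rw [M3.res_smul (pr_sst hg a), if_pos (Grp.mem_orb.2 h)]

theorem res_out [M3] {X : Grp} {g : FP} (hg : Pr X.1 g) {a x : ℕ} (h : ¬ So X.1 a x) :
    res (X.orb a) g • x = x := by
  rw [M3.res_smul (pr_sst hg a), if_neg fun h1 => h (Grp.mem_orb.1 h1)]

theorem rep_rep [M3] (X : Grp) (x : ℕ) : X.rep (X.rep x) = X.rep x :=
  (M3.rep_eq (X.so_rep x)).symm

theorem res_mem [KG] [M3] {X H : Grp} (hH : ∀ h ∈ H.1, Pr X.1 h) (a : ℕ) {h : FP}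
    (hh : h ∈ H.1) : res (X.orb a) h ∈ (X.hat H).1 := by
  by_cases ha : a < X.bd
  · let T : SG :=
      { carrier := {g | g ∈ H.1 ∧ res (X.orb a) g ∈ (X.hat H).1}
        one_mem' := ⟨one_mem _, by rw [M3.res_one]; exact one_mem _⟩
        mul_mem' := fun h1 h2 => ⟨mul_mem h1.1 h2.1, by
          rw [M3.res_mul (pr_sst (hH _ h1.1) a) (pr_sst (hH _ h2.1) a)]
          exact mul_mem h1.2 h2.2⟩
        inv_mem' := fun h1 => ⟨inv_mem h1.1, by
          rw [M3.res_inv (pr_sst (hH _ h1.1) a)]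
          exact inv_mem h1.2⟩ }
    have h1 : Subgroup.closure {x | x ∈ H.gens} ≤ T := by
      rw [Subgroup.closure_le]
      intro g hg
      refine ⟨KG.mem_of_gens hg, Subgroup.subset_closure ?_⟩
      exact List.mem_flatMap.2 ⟨a, List.mem_range.2 ha, List.mem_map.2 ⟨g, hg, rfl⟩⟩
    rw [KG.closure_gens] at h1
    exact (h1 hh).2
  · have h0 : ∀ x, So X.1 a x → x = a := by
      rintro x ⟨g, hg, rfl⟩
      exact X.le_bd hg a (not_lt.1 ha)
    have e : res (X.orb a) h = 1 := by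
      refine FP.ext fun x => ?_
      rw [one_smul]
      by_cases hx : So X.1 a x
      · rw [res_in (hH h hh) hx, h0 x hx]
        exact h0 _ (hH h hh a)
      · exact res_out (hH h hh) hx
    rw [e]
    exact one_mem _

theorem mem_hat [KG] [M3] {X H : Grp} (hH : ∀ h ∈ H.1, Pr X.1 h) {y : FP} :
    y ∈ (X.hat H).1 ↔ ∀ a, ∃ h ∈ H.1, Ag X.1 a y h := by
  constructor
  · let T : SG :=
      { carrier := {g | ∀ a, ∃ h ∈ H.1, Ag X.1 a g h}
        one_mem' := fun _ => ⟨1, one_mem _, fun _ _ => rfl⟩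
        mul_mem' := fun h1 h2 a => by
          obtain ⟨h, hh, e1⟩ := h1 a
          obtain ⟨k, hk, e2⟩ := h2 a
          exact ⟨h * k, mul_mem hh hk, ag_mul (hH k hk) e1 e2⟩
        inv_mem' := fun h1 a => by
          obtain ⟨h, hh, e1⟩ := h1 a
          exact ⟨h⁻¹, inv_mem hh, ag_inv (hH _ (inv_mem hh)) e1⟩ }
    have h1 : (X.hat H).1 ≤ T := by
      refine (Subgroup.closure_le _).2 fun g hg => ?_
      obtain ⟨b, _, hg⟩ := List.mem_flatMap.1 hg
      obtain ⟨k, hk, rfl⟩ := List.mem_map.1 hg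
      have hk' := KG.mem_of_gens hk
      intro a
      by_cases hab : So X.1 b a
      · exact ⟨k, hk', fun x hx => res_in (hH k hk') (M3.so_trans hab hx)⟩
      · refine ⟨1, one_mem _, fun x hx => ?_⟩
        rw [one_smul]
        exact res_out (hH k hk') fun h2 => hab (M3.so_trans h2 (M3.so_symm hx))
    exact fun hy => h1 hy
  · intro hy
    have hr : ∀ x, X.rep (y • x) = X.rep x := fun x => by
      obtain ⟨h, hh, e⟩ := hy x
      rw [e x (M3.so_refl _ _)]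
      exact (M3.rep_eq (hH h hh x)).symm
    have key : ∀ m : ℕ, ∃ z ∈ (X.hat H).1, ∀ x, z • x = if X.rep x < m then y • x else x := by
      intro m
      induction m with
      | zero => exact ⟨1, one_mem _, fun x => by rw [one_smul, if_neg (Nat.not_lt_zero _)]⟩
      | succ m ih =>
        obtain ⟨z, hz, e⟩ := ih
        by_cases hm : X.rep m = m
        · obtain ⟨h, hh, e1⟩ := hy m
          have hs : ∀ x, So X.1 m x ↔ X.rep x = m := fun x =>
            ⟨fun h2 => (M3.rep_eq h2).symm.trans hm, fun h2 => M3.so_symm (h2 ▸ X.so_rep x)⟩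
          refine ⟨res (X.orb m) h * z, mul_mem (res_mem hH m hh) hz, fun x => ?_⟩
          rw [mul_smul, e]
          by_cases h1 : X.rep x < m
          · rw [if_pos h1, if_pos (Nat.lt_succ_of_lt h1)]
            refine res_out (hH h hh) fun h2 => ?_
            have := (hs _).1 h2
            rw [hr] at this
            omega
          · rw [if_neg h1]
            by_cases h2 : X.rep x = m
            · rw [if_pos (by omega), res_in (hH h hh) ((hs x).2 h2), e1 x ((hs x).2 h2)]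
            · rw [if_neg (by omega)]
              exact res_out (hH h hh) fun h3 => h2 ((hs x).1 h3)
        · refine ⟨z, hz, fun x => ?_⟩
          have h2 : X.rep x ≠ m := fun h3 => hm (by rw [← h3, rep_rep])
          rw [e]
          by_cases h1 : X.rep x < m
          · rw [if_pos h1, if_pos (Nat.lt_succ_of_lt h1)]
          · rw [if_neg h1, if_neg (by omega)]
    obtain ⟨z, hz, e⟩ := key (bd y)
    have : z = y := by
      refine FP.ext fun x => ?_
      rw [e]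
      by_cases h1 : X.rep x < bd y
      · rw [if_pos h1]
      · rw [if_neg h1]
        have := Grp.rep_le (M3.so_refl X.1 x)
        exact (mem_Sy_bd y x (show bd y ≤ x by omega)).symm
    exact this ▸ hz

theorem hat_eq [KG] [M3] {X H : Grp} (hH : ∀ h ∈ H.1, Pr X.1 h) :
    (X.hat H).1 = Subgroup.closure {y | ∃ a, ∃ h ∈ H.1, res (X.orb a) h = y} := by
  apply le_antisymm
  · refine Subgroup.closure_mono fun g hg => ?_
    obtain ⟨b, _, hg⟩ := List.mem_flatMap.1 hg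
    obtain ⟨k, hk, rfl⟩ := List.mem_map.1 hg
    exact ⟨b, k, KG.mem_of_gens hk, rfl⟩
  · rw [Subgroup.closure_le]
    rintro _ ⟨a, h, hh, rfl⟩
    exact res_mem hH a hh

theorem le_hat [KG] [M3] {X H : Grp} (hH : ∀ h ∈ H.1, Pr X.1 h) : H.1 ≤ (X.hat H).1 :=
  fun h hh => (mem_hat hH).2 fun _ => ⟨h, hh, fun _ _ => rfl⟩

theorem hat_so [KG] [M3] {X H : Grp} {y : FP} (hH : ∀ h ∈ H.1, Pr X.1 h) (hy : y ∈ (X.hat H).1)
    (x : ℕ) : So H.1 x (y • x) := by
  obtain ⟨h, hh, e⟩ := (mem_hat hH).1 hy x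
  exact ⟨h, hh, (e x (M3.so_refl _ _)).symm⟩

theorem hat_res [KG] [M3] {X H : Grp} {y : FP} (a : ℕ) (hH : ∀ h ∈ H.1, Pr X.1 h)
    (hy : y ∈ (X.hat H).1) : ∃ h ∈ H.1, res (X.orb a) y = res (X.orb a) h := by
  obtain ⟨h, hh, e⟩ := (mem_hat hH).1 hy a
  have hp : Pr X.1 y := fun x => by
    obtain ⟨k, hk, e1⟩ := hat_so hH hy x
    exact e1 ▸ hH k hk x
  refine ⟨h, hh, FP.ext fun x => ?_⟩
  by_cases hx : So X.1 a x
  · rw [res_in hp hx, res_in (hH h hh) hx, e x hx]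
  · rw [res_out hp hx, res_out (hH h hh) hx]

theorem hat_mono [KG] [M3] {X H K : Grp} (hH : ∀ h ∈ H.1, Pr X.1 h) (hK : K.1 ≤ H.1) :
    (X.hat K).1 ≤ (X.hat H).1 := fun _ hy => (mem_hat hH).2 fun a => by
  obtain ⟨h, hh, e⟩ := (mem_hat fun h hh => hH h (hK hh)).1 hy a
  exact ⟨h, hK hh, e⟩

theorem hat_congr [KG] [M3] {X Z H : Grp} (hH : ∀ h ∈ H.1, Pr X.1 h)
    (e : ∀ x y, So X.1 x y ↔ So Z.1 x y) : X.hat H = Z.hat H := by
  refine Grp.ext (Subgroup.ext fun y => ?_)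
  rw [mem_hat hH, mem_hat fun h hh x => (e _ _).1 (hH h hh x)]
  refine forall_congr' fun a => exists_congr fun h => and_congr_right fun _ => ?_
  exact ⟨fun h1 x hx => h1 x ((e _ _).2 hx), fun h1 x hx => h1 x ((e _ _).1 hx)⟩

theorem so_cj' [M3] (g : FP) (H : SG) (x y : ℕ) :
    So (cj g H) x y ↔ So H (g⁻¹ • x) (g⁻¹ • y) := by
  rw [← M3.so_cj g H, smul_inv_smul, smul_inv_smul]

theorem hat_cj [KG] [M3] (g : FP) {X H : Grp} (hH : ∀ h ∈ H.1, Pr X.1 h) :
    (Grp.cj g X).hat (Grp.cj g H) = Grp.cj g (X.hat H) := by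
  have hH' : ∀ h ∈ (Grp.cj g H).1, Pr (Grp.cj g X).1 h := fun h hh x => by
    rw [Grp.cj_val, so_cj']
    have := hH _ (mem_cj.1 hh) (g⁻¹ • x)
    rwa [mul_smul, mul_smul, smul_inv_smul] at this
  refine Grp.ext (Subgroup.ext fun y => ?_)
  rw [mem_hat hH', Grp.cj_val g (X.hat H), mem_cj, mem_hat hH]
  constructor
  · intro h1 a
    obtain ⟨h, hh, e⟩ := h1 (g • a)
    refine ⟨_, mem_cj.1 hh, fun x hx => ?_⟩
    rw [mul_smul, mul_smul, mul_smul, mul_smul, e _ ((M3.so_cj g X.1 a x).2 hx)]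
  · intro h1 a
    obtain ⟨h, hh, e⟩ := h1 (g⁻¹ • a)
    refine ⟨g * h * g⁻¹, mem_cj.2 (by simpa [mul_assoc] using hh), fun x hx => ?_⟩
    have := e _ ((so_cj' g X.1 a x).1 hx)
    rw [mul_smul, mul_smul, smul_inv_smul, inv_smul_eq_iff] at this
    rw [this, mul_smul, mul_smul]

theorem hat_ea [KG] [M3] {p : ℕ} {X H D : Grp} (hH : ∀ h ∈ H.1, Pr X.1 h) (hE : EA p H.1 D.1) :
    EA p (X.hat H).1 (X.hat D).1 := by
  have hD : ∀ h ∈ D.1, Pr X.1 h := fun h hh => hH h (hE.1 hh)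
  refine ⟨hat_mono hH hE.1, fun y hy z hz => (mem_hat hD).2 fun a => ?_,
    fun y hy => (mem_hat hD).2 fun a => ?_⟩
  · obtain ⟨h, hh, e1⟩ := (mem_hat hH).1 hy a
    obtain ⟨k, hk, e2⟩ := (mem_hat hH).1 hz a
    exact ⟨_, hE.2.1 h hh k hk, ag_mul (hH _ (inv_mem hk))
      (ag_mul (hH _ (inv_mem hh)) (ag_mul (hH k hk) e1 e2) (ag_inv (hH _ (inv_mem hh)) e1))
      (ag_inv (hH _ (inv_mem hk)) e2)⟩
  · obtain ⟨h, hh, e1⟩ := (mem_hat hH).1 hy a
    exact ⟨_, hE.2.2 h hh, ag_pow hH hh e1 p⟩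

theorem hat_fx [KG] [M3] {X H : Grp} {S : Set ℕ} (hH : ∀ h ∈ H.1, Pr X.1 h) (hS : H.1 ≤ fx S) :
    (X.hat H).1 ≤ fx S := fun _ hy x hx => by
  obtain ⟨h, hh, e⟩ := hat_so hH hy x
  rw [← e]
  exact hS hh x hx

theorem hat_bot [KG] [M3] (X : Grp) : X.hat Grp.bot = Grp.bot := by
  have hH : ∀ h ∈ Grp.bot.1, Pr X.1 h := fun h hh x => by
    rw [Grp.bot_val, Subgroup.mem_bot] at hh
    rw [hh, one_smul]
    exact M3.so_refl _ _
  refine Grp.ext (le_antisymm (fun y hy => ?_) bot_le)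
  rw [Grp.bot_val, Subgroup.mem_bot]
  refine FP.ext fun x => ?_
  rw [one_smul]
  exact hat_fx (S := Set.univ) hH bot_le hy x trivial

theorem pr_tr [KG] (J : Grp) (x y : ℕ) : Pr J.1 (tr J x y) :=
  fun _ => ⟨_, KG.tr_mem J x y, rfl⟩

theorem gb_mem [KG] {J : Grp} (h : ∀ j ∈ J.1, ∀ a, res (J.orb a) j ∈ J.1) (b : ℕ) :
    gb J b ∈ J.1 := h _ (KG.tr_mem _ _ _) b

theorem gb_smul [KG] [M3] (J : Grp) (b : ℕ) : gb J b • J.rep b = b := by
  unfold gb
  rw [res_in (pr_tr J _ _) (J.so_rep b), KG.tr_smul (M3.so_symm (J.so_rep b))]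

theorem gb_fix [KG] [M3] (J : Grp) {b x : ℕ} (h : ¬ So J.1 b x) : gb J b • x = x :=
  res_out (pr_tr J _ _) h

theorem sst_of_maps {S : Finset ℕ} {g : FP} (h : ∀ x ∈ S, g • x ∈ S) : g ∈ sst (S : Set ℕ) := by
  have e : S.image (fun x => g • x) = S := by
    refine Finset.eq_of_subset_of_card_le (Finset.image_subset_iff.2 h) ?_
    rw [Finset.card_image_of_injective _ (MulAction.injective g)]
  intro x
  rw [Finset.mem_coe, Finset.mem_coe]
  refine ⟨fun hx => ?_, h x⟩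
  rw [← e] at hx
  obtain ⟨y, hy, e1⟩ := Finset.mem_image.1 hx
  exact MulAction.injective g e1 ▸ hy

theorem frat [KG] [M3] {n : ℕ} {J : Grp} {s : FP} (hs : s ∈ Sy n) (hP : Po J.1 s) :
    ∃ j ∈ Subgroup.closure {y | ∃ b < n, gb J b = y}, j⁻¹ * s ∈ sst (J.reps n : Set ℕ) := by
  have hinj : ∀ t ∈ J.reps n, ∀ u ∈ J.reps n, So J.1 (s • t) (s • u) → t = u := by
    intro t ht u hu h
    rw [← (Grp.mem_reps.1 ht).2, ← (Grp.mem_reps.1 hu).2]
    exact M3.rep_eq ((hP t u).2 h)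
  have key : ∀ m : ℕ, ∃ j ∈ Subgroup.closure {y | ∃ b < n, gb J b = y},
      (∀ t < m, t ∈ J.reps n → j • J.rep (s • t) = s • t) ∧
      ∀ x, (∀ t < m, t ∈ J.reps n → ¬ So J.1 (s • t) x) → j • x = x := by
    intro m
    induction m with
    | zero => exact ⟨1, one_mem _, fun t ht => absurd ht (Nat.not_lt_zero _), fun x _ => one_smul _ _⟩
    | succ m ih =>
      obtain ⟨j, hj, h1, h2⟩ := ih
      by_cases hm : m ∈ J.reps n
      · refine ⟨j * gb J (s • m), mul_mem hj (Subgroup.subset_closure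
          ⟨_, (smul_lt hs).2 (Grp.mem_reps.1 hm).1, rfl⟩), fun t ht htr => ?_, fun x hx => ?_⟩
        · rw [mul_smul]
          rcases Nat.lt_succ_iff_lt_or_eq.1 ht with ht | rfl
          · rw [gb_fix J fun h3 => ?_, h1 t ht htr]
            have := hinj m hm t htr (M3.so_trans h3 (M3.so_symm (J.so_rep _)))
            omega
          · rw [gb_smul]
            refine h2 _ fun u hu hur h3 => ?_
            have := hinj u hur t htr h3
            omega
        · rw [mul_smul, gb_fix J (hx m (Nat.lt_succ_self m) hm)]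
          exact h2 x fun t ht => hx t (Nat.lt_succ_of_lt ht)
      · refine ⟨j, hj, fun t ht htr => ?_, fun x hx => h2 x fun t ht => hx t (Nat.lt_succ_of_lt ht)⟩
        rcases Nat.lt_succ_iff_lt_or_eq.1 ht with ht | rfl
        · exact h1 t ht htr
        · exact absurd htr hm
  obtain ⟨j, hj, h1, _⟩ := key n
  refine ⟨j, hj, sst_of_maps fun t ht => ?_⟩
  have h3 := (Grp.mem_reps.1 ht).1
  have e : (j⁻¹ * s) • t = J.rep (s • t) := by
    rw [mul_smul, inv_smul_eq_iff, h1 t h3 ht]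
  rw [e]
  exact Grp.mem_reps.2 ⟨(Grp.rep_le (M3.so_refl J.1 _)).trans_lt ((smul_lt hs).2 h3), rep_rep J _⟩

end BM3h

theorem b_m3h [K1] [KG] [M1] [M3] : M3h where
  hat_eq := BM3h.hat_eq
  le_hat := BM3h.le_hat
  hat_so := BM3h.hat_so
  hat_res := BM3h.hat_res
  hat_mono := BM3h.hat_mono
  hat_congr := BM3h.hat_congr
  hat_cj := BM3h.hat_cj
  hat_ea := BM3h.hat_ea
  hat_bot := BM3h.hat_bot
  hat_fx := BM3h.hat_fx
  gb_mem := BM3h.gb_mem
  gb_smul := BM3h.gb_smul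
  gb_fix := BM3h.gb_fix
  frat := fun _ hs hP => BM3h.frat hs hP

end

end Pool.Agent.Lib.E6
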