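import Pool.Agent.Lib.E6.Spec

namespace Pool.Agent.Lib.E6

open Equiv Pool.Agent.Lib.helper80 Pool.Agent.Lib.MP_e519cf_lc Polynomial

noncomputable section
open Classical

set_option linter.unusedSectionVars false

namespace BM4

theorem comm_mem {E : SG} {a b : FP} (ha : a ∈ E) (hb : b ∈ E) :
    a * b * a⁻¹ * b⁻¹ ∈ ⁅E, E⁆ := Subgroup.commutator_mem_commutator ha hb

theorem le_yq (q : ℕ) (E D : SG) : D ≤ yq q E D := le_sup_right

theorem comm_le_yq (q : ℕ) (E D : SG) : ⁅E, E⁆ ≤ yq q E D := le_sup_left.trans le_sup_left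

theorem pow_mem_yq (q : ℕ) {E : SG} (D : SG) {e : FP} (he : e ∈ E) : e ^ q ∈ yq q E D :=
  (le_sup_right.trans le_sup_left : Subgroup.closure {x | ∃ e ∈ E, e ^ q = x} ≤ yq q E D)
    (Subgroup.subset_closure ⟨e, he, rfl⟩)

theorem yq_le_of {q : ℕ} {E D K : SG} (h1 : ∀ a ∈ E, ∀ b ∈ E, a * b * a⁻¹ * b⁻¹ ∈ K)
    (h2 : ∀ a ∈ E, a ^ q ∈ K) (h3 : D ≤ K) : yq q E D ≤ K := by
  refine sup_le (sup_le (Subgroup.commutator_le.2 h1) ((Subgroup.closure_le _).2 ?_)) h3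
  rintro _ ⟨e, he, rfl⟩
  exact h2 e he

theorem yq_le (q : ℕ) {E D : SG} (h : D ≤ E) : yq q E D ≤ E :=
  yq_le_of (fun _ ha _ hb => mul_mem (mul_mem (mul_mem ha hb) (inv_mem ha)) (inv_mem hb))
    (fun _ ha => pow_mem ha q) h

theorem yq_ea (q : ℕ) {E D : SG} (h : D ≤ E) : EA q E (yq q E D) :=
  ⟨yq_le q h, fun _ ha _ hb => comm_le_yq q E D (comm_mem ha hb), fun _ ha => pow_mem_yq q D ha⟩

theorem yq_min {q : ℕ} {E D K : SG} (h : EA q E K) (hD : D ≤ K) : yq q E D ≤ K :=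
  yq_le_of h.2.1 h.2.2 hD

theorem cj_yq [M1] (g : FP) (q : ℕ) (E D : SG) :
    cj g (yq q E D) = yq q (cj g E) (cj g D) := by
  have e : (fun x => g * x * g⁻¹) '' {x | ∃ e ∈ E, e ^ q = x} = {x | ∃ e ∈ cj g E, e ^ q = x} := by
    ext x
    constructor
    · rintro ⟨_, ⟨e, he, rfl⟩, rfl⟩
      refine ⟨g * e * g⁻¹, ?_, by rw [conj_pow]⟩
      rw [mem_cj]
      simpa [mul_assoc] using he
    · rintro ⟨e, he, rfl⟩
      refine ⟨(g⁻¹ * e * g) ^ q, ⟨_, mem_cj.1 he, rfl⟩, ?_⟩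
      show g * (g⁻¹ * e * g) ^ q * g⁻¹ = e ^ q
      rw [← conj_pow]
      simp [mul_assoc]
  unfold yq
  rw [M1.cj_sup, M1.cj_sup, M1.cj_comm, M1.cj_closure, e]

theorem pq_cj [M1] (g : FP) (E D : SG) : pq (cj g E) (cj g D) = pq E D := by
  have e : ∀ q, (2 ≤ q ∧ yq q (cj g E) (cj g D) ≠ cj g E) ↔ (2 ≤ q ∧ yq q E D ≠ E) := fun q => by
    rw [← cj_yq, Ne, M1.cj_inj]
  unfold pq
  by_cases h : ∃ q, 2 ≤ q ∧ yq q E D ≠ E
  · have h' : ∃ q, 2 ≤ q ∧ yq q (cj g E) (cj g D) ≠ cj g E := by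
      obtain ⟨q, hq⟩ := h
      exact ⟨q, (e q).2 hq⟩
    rw [dif_pos h, dif_pos h']
    apply le_antisymm
    · exact Nat.find_min' _ ((e _).2 (Nat.find_spec h))
    · exact Nat.find_min' _ ((e _).1 (Nat.find_spec h'))
  · have h' : ¬ ∃ q, 2 ≤ q ∧ yq q (cj g E) (cj g D) ≠ cj g E := by
      rintro ⟨q, hq⟩
      exact h ⟨q, (e q).1 hq⟩
    rw [dif_neg h, dif_neg h']

theorem cj_top [M1] (g : FP) (E D : SG) : cj g (top E D) = top (cj g E) (cj g D) := by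
  unfold top
  rw [cj_yq, pq_cj]

theorem nm_top [M1] {L E D : SG} (hE : Nm L E) (hD : Nm L D) : Nm L (top E D) :=
  M1.nm_of_cj fun l hl => by rw [cj_top, M1.cj_of_nm hE hl, M1.cj_of_nm hD hl]

theorem pow_fact [K1] {n : ℕ} {e : FP} (he : e ∈ Sy n) : e ^ n.factorial = 1 := by
  have h : (⟨e, he⟩ : Sy n) ^ Nat.card (Sy n) = 1 := pow_card_eq_one'
  rw [K1.card_Sy] at h
  exact congrArg Subtype.val h

theorem yq_big [K1] {n : ℕ} {E : SG} (D : SG) (h : E ≤ Sy n) :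
    yq (n.factorial * 2) E D ≤ ⁅E, E⁆ ⊔ D :=
  yq_le_of (fun _ ha _ hb => (le_sup_left : ⁅E, E⁆ ≤ ⁅E, E⁆ ⊔ D) (comm_mem ha hb))
    (fun a ha => by rw [pow_mul, pow_fact (h ha), one_pow]; exact one_mem _) le_sup_right

theorem two_le (n : ℕ) : 2 ≤ n.factorial * 2 := by
  have := Nat.factorial_pos n
  omega

theorem pq_spec {E D : SG} (h : ∃ q, 2 ≤ q ∧ yq q E D ≠ E) :
    2 ≤ pq E D ∧ yq (pq E D) E D ≠ E ∧ ∀ q, 2 ≤ q → yq q E D ≠ E → pq E D ≤ q := by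
  unfold pq
  rw [dif_pos h]
  exact ⟨(Nat.find_spec h).1, (Nat.find_spec h).2, fun q h1 h2 => Nat.find_min' _ ⟨h1, h2⟩⟩

theorem yq_eq_of {q : ℕ} {E D : SG} (hD : D ≤ E) (h : E ≤ ⁅E, E⁆ ⊔ D) : yq q E D = E :=
  le_antisymm (yq_le q hD) (h.trans (sup_le (comm_le_yq q E D) (le_yq q E D)))

theorem top_eq_iff [K1] {n : ℕ} {E D : SG} (hE : E ≤ Sy n) (hD : D ≤ E) :
    top E D = E ↔ E ≤ ⁅E, E⁆ ⊔ D := by
  refine ⟨fun h => ?_, fun h => yq_eq_of hD h⟩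
  by_cases hq : ∃ q, 2 ≤ q ∧ yq q E D ≠ E
  · exact absurd h (pq_spec hq).2.1
  · have h1 : yq (n.factorial * 2) E D = E := by
      by_contra h2
      exact hq ⟨_, two_le n, h2⟩
    exact h1.symm.le.trans (yq_big D hE)

theorem yq_mul [M1] {a b : ℕ} {E D : SG} (hD : D ≤ E) (ha : yq a E D = E) (hb : yq b E D = E) :
    yq (b * a) E D = E := by
  have hK := yq_ea (b * a) hD
  have hN : Nm E (yq (b * a) E D) := M1.ea_nm hK le_rfl hK.1
  have h1 : EA a (Subgroup.closure {x | ∃ e ∈ E, e ^ b = x} ⊔ yq (b * a) E D) (yq (b * a) E D) := by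
    refine M1.ea_closure ?_ ?_ ?_
    · rintro _ ⟨e, he, rfl⟩
      exact M1.cj_of_nm hN (pow_mem he b)
    · rintro _ ⟨e, he, rfl⟩ _ ⟨f, hf, rfl⟩
      exact hK.2.1 _ (pow_mem he b) _ (pow_mem hf b)
    · rintro _ ⟨e, he, rfl⟩
      rw [← pow_mul]
      exact hK.2.2 e he
  have h2 : E ≤ Subgroup.closure {x | ∃ e ∈ E, e ^ b = x} ⊔ yq (b * a) E D := by
    refine hb.symm.le.trans (sup_le (sup_le ?_ le_sup_left) ?_)
    · exact (comm_le_yq _ E D).trans le_sup_right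
    · exact (le_yq _ E D).trans le_sup_right
  refine le_antisymm hK.1 (ha.symm.le.trans (yq_le_of hK.2.1 (fun e he => h1.2.2 e (h2 he))
    (le_yq _ E D)))

theorem pq_prime [K1] [M1] {n : ℕ} {E D : SG} (hE : E ≤ Sy n) (hD : D ≤ E) (h : top E D ≠ E) :
    (pq E D).Prime ∧ pq E D ≤ n := by
  have hq : ∃ q, 2 ≤ q ∧ yq q E D ≠ E := by
    refine ⟨_, two_le n, fun h2 => h ((top_eq_iff hE hD).2 (h2.symm.le.trans (yq_big D hE)))⟩
  obtain ⟨h1, h2, h3⟩ := pq_spec hq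
  have hp : (pq E D).Prime := by
    by_contra hp
    obtain ⟨a, b, ha, hb, e⟩ := (Nat.not_prime_iff_exists_mul_eq h1).1 hp
    have ha2 : 2 ≤ a := by
      by_contra h4
      have : a = 0 ∨ a = 1 := by omega
      rcases this with rfl | rfl <;> omega
    have hb2 : 2 ≤ b := by
      by_contra h4
      have : b = 0 ∨ b = 1 := by omega
      rcases this with rfl | rfl <;> omega
    have e1 : yq a E D = E := by
      by_contra h4
      have := h3 a ha2 h4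
      omega
    have e2 : yq b E D = E := by
      by_contra h4
      have := h3 b hb2 h4
      omega
    exact h2 (e ▸ yq_mul hD e2 e1)
  refine ⟨hp, ?_⟩
  by_contra hn
  have hc : (pq E D).Coprime n.factorial := by
    rw [Nat.Prime.coprime_iff_not_dvd hp, hp.dvd_factorial]
    exact hn
  refine h2 (le_antisymm (yq_le _ hD) fun e he => M1.mem_of_coprime hc (pow_mem_yq _ D he) ?_)
  rw [pow_fact (hE he)]
  exact one_mem _

theorem pq_le [K1] [M1] {n : ℕ} {E D : SG} (hE : E ≤ Sy n) : pq E D ≤ n + 2 := by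
  by_cases hq : ∃ q, 2 ≤ q ∧ yq q E D ≠ E
  · obtain ⟨_, h2, h3⟩ := pq_spec hq
    by_cases hD : D ≤ E
    · have := (pq_prime hE hD h2).2
      omega
    · have := h3 2 le_rfl fun h4 => hD ((le_yq 2 E D).trans h4.le)
      omega
  · unfold pq
    rw [dif_neg hq]
    omega

theorem yq_res [M3] {q : ℕ} {S : Finset ℕ} {E : SG} (hS : E ≤ sst S) (hr : ∀ e ∈ E, res S e ∈ E) :
    ∀ y ∈ yq q E ⊥, res S y ∈ yq q E ⊥ := by
  let T : SG :=
    { carrier := {y | y ∈ E ∧ res S y ∈ yq q E ⊥}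
      one_mem' := ⟨one_mem _, by rw [M3.res_one]; exact one_mem _⟩
      mul_mem' := fun ha hb => ⟨mul_mem ha.1 hb.1, by
        rw [M3.res_mul (hS ha.1) (hS hb.1)]; exact mul_mem ha.2 hb.2⟩
      inv_mem' := fun ha => ⟨inv_mem ha.1, by rw [M3.res_inv (hS ha.1)]; exact inv_mem ha.2⟩ }
  have h : yq q E ⊥ ≤ T := by
    refine yq_le_of (fun a ha b hb => ⟨mul_mem (mul_mem (mul_mem ha hb) (inv_mem ha)) (inv_mem hb),
      ?_⟩) (fun a ha => ⟨pow_mem ha q, ?_⟩) bot_le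
    · rw [M3.res_mul (hS (mul_mem (mul_mem ha hb) (inv_mem ha))) (hS (inv_mem hb)),
        M3.res_mul (hS (mul_mem ha hb)) (hS (inv_mem ha)), M3.res_mul (hS ha) (hS hb),
        M3.res_inv (hS ha), M3.res_inv (hS hb)]
      exact comm_le_yq q E ⊥ (comm_mem (hr a ha) (hr b hb))
    · rw [M3.res_pow q (hS ha)]
      exact pow_mem_yq q ⊥ (hr a ha)
  exact fun y hy => (h hy).2

end BM4

theorem b_m4 [K1] [M1] [M3] : M4 where
  le_yq := BM4.le_yq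
  yq_le := BM4.yq_le
  yq_ea := BM4.yq_ea
  yq_min := BM4.yq_min
  cj_yq := BM4.cj_yq
  pq_cj := BM4.pq_cj
  cj_top := BM4.cj_top
  nm_top := BM4.nm_top
  top_eq_iff := BM4.top_eq_iff
  pq_prime := BM4.pq_prime
  pq_le := BM4.pq_le
  yq_res := BM4.yq_res

end

end Pool.Agent.Lib.E6
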