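import Pool.Agent.Lib.E6.Spec

namespace Pool.Agent.Lib.E6

open Equiv Pool.Agent.Lib.helper80 Pool.Agent.Lib.MP_e519cf_lc Polynomial

noncomputable section
open Classical

set_option linter.unusedSectionVars false

namespace BM5

theorem fin_le [K1] {n : ℕ} {B : SG} (h : B ≤ Sy n) : {P : SG | P ≤ B}.Finite := by
  have h1 : (B : Set FP).Finite := Set.finite_coe_iff.1 (K1.finite_Sy h)
  exact (h1.finite_subsets.preimage SetLike.coe_injective.injOn).subset fun P hP => hP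

theorem nm_sSup [M1] {B : SG} {K : Set SG} (h : ∀ N ∈ K, Nm B N) : Nm B (sSup K) := by
  refine M1.nm_of_cj fun l hl => ?_
  rw [M1.cj_sSup]
  congr 1
  ext N
  constructor
  · rintro ⟨N', h1, rfl⟩
    rw [M1.cj_of_nm (h N' h1) hl]; exact h1
  · intro h1
    exact ⟨N, h1, M1.cj_of_nm (h N h1) hl⟩

theorem ni_sup [M1] {B P Q : SG} (h1 : NI B P) (h2 : NI B Q) : NI B (P ⊔ Q) :=
  ⟨sup_le h1.1 h2.1, M1.nm_sup h1.2 h2.2⟩

theorem ni_sSup [M1] {B : SG} {K : Set SG} (h : ∀ N ∈ K, NI B N) : NI B (sSup K) :=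
  ⟨sSup_le fun N hN => (h N hN).1, nm_sSup fun N hN => (h N hN).2⟩

theorem ni_sInf {B : SG} {S : Set SG} (h : ∀ N ∈ S, NI B N) : NI B (B ⊓ sInf S) := by
  refine ⟨inf_le_left, fun l hl d hd => ?_⟩
  rw [Subgroup.mem_inf, Subgroup.mem_sInf] at hd ⊢
  exact ⟨B.mul_mem (B.mul_mem hl hd.1) (B.inv_mem hl),
    fun N hN => (h N hN).2 l hl d (hd.2 N hN)⟩

theorem isPr_basic [M1] {n : ℕ} {B D P : SG} {Ns : Set SG} (h : MPok n B D Ns)
    (hP : IsPr D Ns P) : NI B P ∧ D ≤ P ∧ B ≤ ⁅B, B⁆ ⊔ P ∧ ∃ N ∈ Ns, N ≤ P := by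
  obtain ⟨K, hK, ⟨N, hN⟩, rfl⟩ := hP
  have h1 : N ≤ D ⊔ sSup K := (le_sSup hN).trans le_sup_right
  refine ⟨ni_sup h.nD (ni_sSup fun N hN => h.nN N (hK hN)), le_sup_left, ?_, N, hK hN, h1⟩
  exact (h.perf N (hK hN)).trans (sup_le (sup_le le_sup_left (h1.trans le_sup_right))
    (le_sup_left.trans le_sup_right))

theorem isPr_sup {D P Q : SG} {Ns : Set SG} (hP : IsPr D Ns P) (hQ : IsPr D Ns Q) :
    IsPr D Ns (P ⊔ Q) := by
  obtain ⟨K, hK, hne, rfl⟩ := hP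
  obtain ⟨K', hK', _, rfl⟩ := hQ
  refine ⟨K ∪ K', Set.union_subset hK hK', hne.mono Set.subset_union_left, ?_⟩
  rw [sSup_union, sup_sup_sup_comm, sup_idem]

theorem mp_basic [M1] {n : ℕ} {B D P : SG} {Ns : Set SG} (h : MPok n B D Ns)
    (hP : P ∈ MP B D Ns) : NI B P ∧ D ≤ P ∧ P ≠ B ∧ B ≤ ⁅B, B⁆ ⊔ P ∧ ∃ N ∈ Ns, N ≤ P := by
  obtain ⟨h1, h2, h3, h4⟩ := isPr_basic h hP.1
  exact ⟨h1, h2, hP.2.1, h3, h4⟩

theorem mp_fin [K1] [M1] {n : ℕ} {B D : SG} {Ns : Set SG} (h : MPok n B D Ns) :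
    (MP B D Ns).Finite := (fin_le h.le).subset fun _ hP => (mp_basic h hP).1.1

theorem mp_exists [K1] [M1] {n : ℕ} {B D N : SG} {Ns : Set SG} (h : MPok n B D Ns)
    (hN : N ∈ Ns) (hne : D ⊔ N ≠ B) : ∃ P ∈ MP B D Ns, N ≤ P := by
  have hfin : {P : SG | IsPr D Ns P ∧ P ≠ B}.Finite :=
    (fin_le h.le).subset fun _ hP => (isPr_basic h hP.1).1.1
  have hmem : D ⊔ N ∈ {P : SG | IsPr D Ns P ∧ P ≠ B} :=
    ⟨⟨{N}, Set.singleton_subset_iff.2 hN, Set.singleton_nonempty N, by rw [sSup_singleton]⟩, hne⟩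
  obtain ⟨P, h1, h2⟩ := hfin.exists_le_maximal hmem
  exact ⟨P, ⟨h2.1.1, h2.1.2, fun P' h3 h4 h5 => le_antisymm (h2.2 ⟨h3, h4⟩ h5) h5⟩,
    le_sup_right.trans h1⟩

theorem mp_sup {B D P Q : SG} {Ns : Set SG} (hP : P ∈ MP B D Ns) (hQ : Q ∈ MP B D Ns)
    (hne : Q ≠ P) : Q ⊔ P = B := by
  by_contra hc
  have h1 := isPr_sup hQ.1 hP.1
  exact hne ((hQ.2.2 _ h1 hc le_sup_left).symm.trans (hP.2.2 _ h1 hc le_sup_right))

theorem comax_of [M1] {B P : SG} (hP : NI B P) (hB : B ≤ ⁅B, B⁆ ⊔ P) {S : Set SG}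
    (hS : S.Finite) (h : ∀ Q ∈ S, NI B Q ∧ Q ⊔ P = B) : (B ⊓ sInf S) ⊔ P = B := by
  induction S, hS using Set.Finite.induction_on with
  | empty => rw [sInf_empty, inf_top_eq]; exact sup_eq_left.2 hP.1
  | @insert Q S _ _ ih =>
    have h1 := ih fun Q' hQ' => h Q' (Set.mem_insert_of_mem _ hQ')
    have h2 := h Q (Set.mem_insert _ _)
    have h3 := ni_sInf (B := B) (S := S) fun Q' hQ' => (h Q' (Set.mem_insert_of_mem _ hQ')).1
    have h4 := M1.comm_le hP h3 h2.1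
    rw [sup_comm P (B ⊓ sInf S), h1, sup_comm P Q, h2.2] at h4
    rw [sInf_insert, inf_comm Q, ← inf_assoc]
    refine le_antisymm (sup_le (inf_le_left.trans inf_le_left) hP.1) (hB.trans ?_)
    exact sup_le (h4.trans (sup_comm _ _).le) le_sup_right

theorem mp_comax [K1] [M1] {n : ℕ} {B D P : SG} {Ns S : Set SG} (h : MPok n B D Ns)
    (hS : S ⊆ MP B D Ns) (hP : P ∈ MP B D Ns) (hn : P ∉ S) : (B ⊓ sInf S) ⊔ P = B :=
  comax_of (mp_basic h hP).1 (mp_basic h hP).2.2.2.1 ((mp_fin h).subset hS) fun _ hQ =>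
    ⟨(mp_basic h (hS hQ)).1, mp_sup hP (hS hQ) fun e => hn (e ▸ hQ)⟩

theorem perf_inf [M1] {B I P : SG} (hI : NI B I) (hP : NI B P) (h : I ⊔ P = B)
    (h1 : B ≤ ⁅B, B⁆ ⊔ I) (h2 : B ≤ ⁅B, B⁆ ⊔ P) : B ≤ ⁅B, B⁆ ⊔ (I ⊓ P) := by
  have h3 := M1.comm_sup_le (M1.nm_mono hI.1 hP.2)
  rw [h] at h3
  have h4 : B ≤ ⁅I, I⁆ ⊔ P := h2.trans (sup_le h3 le_sup_right)
  have h5 := M1.dedekind (M1.nm_mono ((M1.comm_self_le I).trans hI.1) hP.2) (M1.comm_self_le I)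
  have h6 : I ≤ ⁅I, I⁆ ⊔ (P ⊓ I) := by
    rw [← h5]; exact le_inf (hI.1.trans h4) le_rfl
  refine h1.trans (sup_le le_sup_left (h6.trans (sup_le_sup ?_ (inf_comm _ _).le)))
  exact Subgroup.commutator_mono hI.1 hI.1

theorem mp_perf [K1] [M1] {n : ℕ} {B D : SG} {Ns : Set SG} (h : MPok n B D Ns) :
    B ≤ ⁅B, B⁆ ⊔ (B ⊓ sInf (MP B D Ns)) := by
  have key : ∀ S : Set SG, S.Finite → S ⊆ MP B D Ns → B ≤ ⁅B, B⁆ ⊔ (B ⊓ sInf S) := by
    intro S hS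
    induction S, hS using Set.Finite.induction_on with
    | empty => intro _; rw [sInf_empty, inf_top_eq]; exact le_sup_right
    | @insert Q S hQ _ ih =>
      intro hs
      have hs' : S ⊆ MP B D Ns := (Set.subset_insert _ _).trans hs
      have hQm := hs (Set.mem_insert _ _)
      rw [sInf_insert, inf_comm Q, ← inf_assoc]
      exact perf_inf (ni_sInf fun N hN => (mp_basic h (hs' hN)).1) (mp_basic h hQm).1
        (mp_comax h hs' hQm hQ) (ih hs') (mp_basic h hQm).2.2.2.1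
  exact key _ (mp_fin h) le_rfl

theorem vals_eq {l : List Grp} {S : Set SG} {n : ℕ} (hS : ∀ P ∈ S, P ≤ Sy n)
    (h : ∀ Q, Q ∈ l ↔ Q.1 ∈ S) : vals l = S := by
  ext P
  constructor
  · rintro ⟨A, hA, rfl⟩
    exact (h A).1 hA
  · intro hP
    exact ⟨⟨P, n, hS P hP⟩, (h _).2 hP, rfl⟩

section ap

variable [K1] [M1] [M6] {n : ℕ} {B D P : Grp} {Ns : Set SG} {l : List Grp}

theorem infL_eq (h : MPok n B.1 D.1 Ns) (hl : ∀ Q, Q ∈ l ↔ Q.1 ∈ MP B.1 D.1 Ns) :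
    (infL B l).1 = B.1 ⊓ sInf (MP B.1 D.1 Ns) := by
  rw [M6.infL_val, vals_eq (fun P hP => (mp_basic h hP).1.1.trans h.le) hl]

theorem aP_eq (h : MPok n B.1 D.1 Ns) (hl : ∀ Q, Q ∈ l ↔ Q.1 ∈ MP B.1 D.1 Ns) (P : Grp) :
    (aP B l P).1 = B.1 ⊓ sInf (MP B.1 D.1 Ns \ {P.1}) := by
  rw [aP, M6.infL_val, vals_eq (n := n) (S := MP B.1 D.1 Ns \ {P.1})
    (fun P hP => (mp_basic h hP.1).1.1.trans h.le)]
  intro Q
  rw [List.mem_filter, hl]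
  refine and_congr_right fun _ => ?_
  constructor
  · intro h1 h2
    have h3 : Q = P := Grp.ext h2
    simp [h3, eqb] at h1
  · intro h1
    have h3 : Q ≠ P := fun e => h1 (by rw [e]; rfl)
    simp [h3, eqb]

theorem ap_basic (h : MPok n B.1 D.1 Ns) (hl : ∀ Q, Q ∈ l ↔ Q.1 ∈ MP B.1 D.1 Ns) (hP : P ∈ l) :
    NI B.1 (aP B l P).1 ∧ (aP B l P).1 ⊔ P.1 = B.1 ∧ (aP B l P).1 ⊓ P.1 = (infL B l).1 ∧
      ∀ Q ∈ l, Q ≠ P → (aP B l P).1 ≤ Q.1 := by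
  have hP' := (hl P).1 hP
  rw [aP_eq h hl, infL_eq h hl]
  refine ⟨ni_sInf fun N hN => (mp_basic h hN.1).1,
    mp_comax h Set.sdiff_subset hP' fun h1 => h1.2 rfl, ?_, fun Q hQ hne => ?_⟩
  · have e : insert P.1 (MP B.1 D.1 Ns \ {P.1}) = MP B.1 D.1 Ns := by
      rw [Set.insert_sdiff_singleton, Set.insert_eq_of_mem hP']
    conv_rhs => rw [← e]
    rw [sInf_insert, inf_comm P.1, inf_assoc]
  · exact inf_le_right.trans (sInf_le ⟨(hl Q).1 hQ, fun e => hne (Grp.ext e)⟩)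

theorem ap_nodup (h : MPok n B.1 D.1 Ns) (hl : ∀ Q, Q ∈ l ↔ Q.1 ∈ MP B.1 D.1 Ns)
    (hn : l.Nodup) : (l.map (aP B l)).Nodup := by
  refine hn.map_on fun P hP Q hQ e => ?_
  by_contra hne
  have h1 := (ap_basic h hl hQ).2.2.2 P hP hne
  have h2 := (ap_basic h hl hP).2.1
  rw [← e] at h1
  exact (mp_basic h ((hl P).1 hP)).2.2.1 ((sup_eq_right.2 h1).symm.trans h2)

theorem ap_len [M2] (h : MPok n B.1 D.1 Ns) (hl : ∀ Q, Q ∈ l ↔ Q.1 ∈ MP B.1 D.1 Ns)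
    (hn : l.Nodup) :
    (l.map fun P => (aP B l P).len - (infL B l).len).sum ≤ B.len - (infL B l).len := by
  have hJ : NI B.1 (infL B l).1 := by
    rw [infL_eq h hl]; exact ni_sInf fun N hN => (mp_basic h hN).1
  have hJP : ∀ P ∈ l, (infL B l).1 ≤ P.1 := fun P hP => by
    rw [← (ap_basic h hl hP).2.2.1]; exact inf_le_right
  have key : ∀ s : List Grp, s.Nodup → (∀ P ∈ s, P ∈ l) → ∃ U : SG, NI B.1 U ∧
      (infL B l).1 ≤ U ∧ (∀ P ∈ l, P ∉ s → U ≤ P.1) ∧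
      (s.map fun P => (aP B l P).len - (infL B l).len).sum + (infL B l).len ≤ len U := by
    intro s
    induction s with
    | nil => exact fun _ _ => ⟨_, hJ, le_rfl, fun P hP _ => hJP P hP, by simp [Grp.len]⟩
    | cons P s ih =>
      intro hs hsl
      obtain ⟨hPs, hs'⟩ := List.nodup_cons.1 hs
      obtain ⟨U, h1, h2, h3, h4⟩ := ih hs' fun Q hQ => hsl Q (List.mem_cons_of_mem _ hQ)
      have hP := hsl P List.mem_cons_self
      obtain ⟨a1, _, a3, a4⟩ := ap_basic h hl hP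
      have hJA : (infL B l).1 ≤ (aP B l P).1 := by rw [← a3]; exact inf_le_left
      refine ⟨(aP B l P).1 ⊔ U, ni_sup a1 h1, h2.trans le_sup_right, fun Q hQ hQs => ?_, ?_⟩
      · rw [List.mem_cons, not_or] at hQs
        exact sup_le (a4 Q hQ hQs.1) (h3 Q hQ hQs.2)
      · have e : (aP B l P).1 ⊓ U = (infL B l).1 :=
          le_antisymm (by rw [← a3]; exact inf_le_inf_left _ (h3 P hP hPs)) (le_inf hJA h2)
        have h5 := M2.len_sup (a1.1.trans h.le) (h1.1.trans h.le) (M1.nm_mono a1.1 h1.2)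
        have h6 := M2.len_mono (a1.1.trans h.le) hJA
        rw [e] at h5
        rw [List.map_cons, List.sum_cons]
        simp only [Grp.len] at h4 ⊢
        omega
  obtain ⟨U, h1, _, _, h4⟩ := key l hn fun _ hP => hP
  have h5 := M2.len_mono h.le h1.1
  simp only [Grp.len] at h4 ⊢
  omega

theorem ap_gen (h : MPok n B.1 D.1 Ns) (hl : ∀ Q, Q ∈ l ↔ Q.1 ∈ MP B.1 D.1 Ns)
    (hB : B.1 ≤ ⁅B.1, B.1⁆ ⊔ D.1) (hD : infL B l = D) :
    B.1 = D.1 ⊔ sSup (vals (l.map (aP B l))) := by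
  have hU : NI B.1 (D.1 ⊔ sSup (vals (l.map (aP B l)))) := by
    refine ni_sup h.nD (ni_sSup ?_)
    rintro _ ⟨A, hA, rfl⟩
    obtain ⟨P, hP, rfl⟩ := List.mem_map.1 hA
    exact (ap_basic h hl hP).1
  have h1 := comax_of hU (hB.trans (sup_le_sup_left le_sup_left _)) (mp_fin h) fun Q hQ => by
    have hb := mp_basic h hQ
    refine ⟨hb.1, le_antisymm (sup_le hb.1.1 hU.1) ?_⟩
    have hQl : (⟨Q, n, hb.1.1.trans h.le⟩ : Grp) ∈ l := (hl _).2 hQ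
    rw [← (ap_basic h hl hQl).2.1]
    refine sup_le (le_trans ?_ (le_sup_right.trans le_sup_right)) le_sup_left
    exact le_sSup ⟨_, List.mem_map_of_mem hQl, rfl⟩
  rw [← infL_eq h hl, hD, ← sup_assoc, sup_idem] at h1
  exact h1.symm

end ap

theorem img_inv [M1] (g : FP) (S : Set SG) : cj g⁻¹ '' (cj g '' S) = S := by
  rw [Set.image_image]
  simp only [M1.cj_inv_cj, Set.image_id']

theorem isPr_cj [M1] (g : FP) {D P : SG} {Ns : Set SG} (h : IsPr D Ns P) :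
    IsPr (cj g D) (cj g '' Ns) (cj g P) := by
  obtain ⟨K, hK, hne, rfl⟩ := h
  exact ⟨cj g '' K, Set.image_mono hK, hne.image _, by rw [M1.cj_sup, M1.cj_sSup]⟩

theorem mp_cj_mem [M1] (g : FP) {B D P : SG} {Ns : Set SG} (h : P ∈ MP B D Ns) :
    cj g P ∈ MP (cj g B) (cj g D) (cj g '' Ns) := by
  refine ⟨isPr_cj g h.1, fun e => h.2.1 (M1.cj_inj.1 e), fun P' h1 h2 h3 => ?_⟩
  have h4 := isPr_cj g⁻¹ h1
  rw [M1.cj_inv_cj, img_inv] at h4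
  have h5 := h.2.2 _ h4 (fun e => h2 (by rw [← e, M1.cj_cj_inv]))
    (by rw [← M1.cj_le_cj (g := g), M1.cj_cj_inv]; exact h3)
  rw [← h5, M1.cj_cj_inv]

theorem mp_cj [M1] (g : FP) (B D : SG) (Ns : Set SG) :
    MP (cj g B) (cj g D) (cj g '' Ns) = cj g '' MP B D Ns := by
  ext P
  constructor
  · intro h
    have h1 := mp_cj_mem g⁻¹ h
    rw [M1.cj_inv_cj, M1.cj_inv_cj, img_inv] at h1
    exact ⟨_, h1, M1.cj_cj_inv g P⟩
  · rintro ⟨Q, hQ, rfl⟩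
    exact mp_cj_mem g hQ

theorem mem_kers {G : Grp} {W : Finset ℕ} {N : SG} :
    N ∈ vals (kers G W) ↔ ∃ w ∈ W, G.1 ⊓ fx (G.orb w) = N := by
  constructor
  · rintro ⟨A, hA, rfl⟩
    obtain ⟨w, hw, rfl⟩ := List.mem_map.1 hA
    exact ⟨w, mem_els.1 hw, rfl⟩
  · rintro ⟨w, hw, rfl⟩
    exact ⟨_, List.mem_map_of_mem (mem_els.2 hw), rfl⟩

theorem ker_cj [M1] [M3] (g : FP) (G : Grp) (w : ℕ) :
    cj g (G.1 ⊓ fx (G.orb w)) = (Grp.cj g G).1 ⊓ fx ((Grp.cj g G).orb (g • w)) := by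
  rw [M1.cj_inf, M1.cj_fx, Grp.cj_val]
  congr 2
  ext y
  simp only [Set.mem_image, Finset.mem_coe, Grp.mem_orb, Grp.cj_val]
  constructor
  · rintro ⟨x, hx, rfl⟩
    exact (M3.so_cj g G.1 w x).2 hx
  · intro hy
    refine ⟨g⁻¹ • y, (M3.so_cj g G.1 w _).1 ?_, smul_inv_smul g y⟩
    rw [smul_inv_smul]; exact hy

theorem kers_cj [M1] [M3] {g : FP} {G : Grp} {W : Finset ℕ} (hg : g ∈ sst W) :
    vals (kers (Grp.cj g G) W) = cj g '' vals (kers G W) := by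
  ext N
  rw [mem_kers]
  constructor
  · rintro ⟨w, hw, rfl⟩
    refine ⟨_, mem_kers.2 ⟨g⁻¹ • w, ?_, rfl⟩, by rw [ker_cj, smul_inv_smul]⟩
    exact (inv_mem hg w).2 hw
  · rintro ⟨_, h, rfl⟩
    obtain ⟨w, hw, rfl⟩ := mem_kers.1 h
    exact ⟨g • w, (hg w).2 hw, (ker_cj g G w).symm⟩

theorem kers_ni [M3] (G : Grp) (W : Finset ℕ) : ∀ N ∈ vals (kers G W), NI G.1 N := by
  intro N hN
  obtain ⟨w, _, rfl⟩ := mem_kers.1 hN
  refine ⟨inf_le_left, fun l hl d hd => ?_⟩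
  rw [Subgroup.mem_inf] at hd ⊢
  refine ⟨G.1.mul_mem (G.1.mul_mem hl hd.1) (G.1.inv_mem hl), fun x hx => ?_⟩
  have h1 : l⁻¹ • x ∈ (G.orb w : Set ℕ) := (M3.le_sst_orb G w (inv_mem hl) x).2 hx
  rw [mul_smul, mul_smul, hd.2 _ h1, smul_inv_smul]

theorem kers_ok [M3] {n : ℕ} {G D : Grp} (W : Finset ℕ) (h1 : G.1 ≤ Sy n) (h2 : NI G.1 D.1)
    (h3 : G.1 ≤ ⁅G.1, G.1⁆ ⊔ D.1) : MPok n G.1 D.1 (vals (kers G W)) :=
  ⟨h1, h2, kers_ni G W, fun _ _ => h3.trans (sup_le_sup_right le_sup_left _)⟩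

theorem jj_ne [K1] [M1] [M3] {n : ℕ} {G D : Grp} {W : Finset ℕ} (h1 : G.1 ≤ Sy n)
    (h2 : NI G.1 D.1) (h3 : G.1 ≤ ⁅G.1, G.1⁆ ⊔ D.1) (h4 : G.1 ⊓ fx W ≤ D.1) (h5 : ¬ G.1 ≤ D.1) :
    JJ G D W ≠ G.1 := by
  intro e
  have hok := kers_ok W h1 h2 h3
  have h6 : G.1 ≤ sInf (MP G.1 D.1 (vals (kers G W))) := inf_eq_left.1 e
  have h7 := comax_of h2 h3 (S := vals (kers G W))
    ((fin_le h1).subset fun N hN => (kers_ni G W N hN).1) fun N hN => by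
      refine ⟨kers_ni G W N hN, ?_⟩
      by_contra hc
      obtain ⟨P, hP, _⟩ := mp_exists hok hN (by rw [sup_comm]; exact hc)
      have hb := mp_basic hok hP
      exact hb.2.2.1 (le_antisymm hb.1.1 (h6.trans (sInf_le hP)))
  refine h5 (h7.symm.le.trans (sup_le (le_trans ?_ h4) le_rfl))
  refine inf_le_inf_left _ fun g hg w hw => ?_
  have h8 : g ∈ G.1 ⊓ fx (G.orb w) :=
    Subgroup.mem_sInf.1 hg _ (mem_kers.2 ⟨w, hw, rfl⟩)
  exact h8.2 w (Finset.mem_coe.2 (Grp.mem_orb.2 (M3.so_refl _ _)))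

end BM5

theorem b_m5 [K1] [KG] [M1] [M2] [M3] [M6] : M5 where
  mp_cj := BM5.mp_cj
  kers_cj := BM5.kers_cj
  kers_ni := BM5.kers_ni
  mp_basic := BM5.mp_basic
  mp_exists := BM5.mp_exists
  mp_comax := BM5.mp_comax
  mp_perf := BM5.mp_perf
  ap_basic := BM5.ap_basic
  ap_nodup := BM5.ap_nodup
  ap_len := BM5.ap_len
  ap_gen := BM5.ap_gen
  jj_cj := fun {g G D W} hg => by
    rw [JJ, JJ, BM5.kers_cj hg, Grp.cj_val, Grp.cj_val, BM5.mp_cj, M1.cj_inf, M1.cj_sInf]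
  kers_ok := BM5.kers_ok
  jj_ne := BM5.jj_ne

end

end Pool.Agent.Lib.E6
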