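import Pool.Agent.Lib.E6.Spec

namespace Pool.Agent.Lib.E6

open Equiv Pool.Agent.Lib.helper80 Pool.Agent.Lib.MP_e519cf_lc Polynomial

noncomputable section
open Classical

set_option linter.unusedSectionVars false

namespace BM6

theorem rep_mem' [KG] {C : Cos} (h : C.isE = false) : C.rep ∈ C := by
  obtain ⟨x, hx⟩ := Cos.isE_false.1 h
  exact KG.rep_mem hx

theorem isE_of_mem {C : Cos} {x : FP} (h : x ∈ C) : C.isE = false := Cos.isE_false.2 ⟨x, h⟩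

theorem mem_grp_iff [KG] {C : Cos} {h : FP} (hC : C.isE = false) :
    h ∈ C.grp.1 ↔ C.rep * h ∈ C := by
  rw [KG.mem_cos hC, inv_mul_cancel_left]

theorem mul_mem_cos {C : Cos} {x h : FP} (hx : x ∈ C) (hh : h ∈ C.grp.1) : x * h ∈ C := by
  rcases Cos.mem_grp.1 hh with rfl | ⟨a, ha, b, hb, rfl⟩
  · rw [mul_one]; exact hx
  · rw [← mul_assoc]; exact C.2.2 x hx a ha b hb

theorem grp_mono {C U : Cos} (h : ∀ x ∈ C, x ∈ U) : C.grp.1 ≤ U.grp.1 := by
  intro g hg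
  rcases Cos.mem_grp.1 hg with rfl | ⟨a, ha, b, hb, rfl⟩
  · exact one_mem _
  · exact Cos.mem_grp.2 (Or.inr ⟨a, h a ha, b, h b hb, rfl⟩)

theorem mem_lmul [KG] {g x : FP} {C : Cos} : x ∈ Cos.lmul g C ↔ g⁻¹ * x ∈ C := by
  unfold Cos.lmul
  cases h : C.isE
  · rw [cond_false, Cos.mem_lc, KG.mem_cos h, mul_inv_rev, mul_assoc]
  · rw [cond_true]
    exact ⟨fun h1 => (Cos.not_mem_emp _ h1).elim, fun h1 => (Cos.isE_iff.1 h _ h1).elim⟩

theorem mem_rmul [KG] [M1] {C : Cos} {A : Grp} {x : FP} (hN : Nm C.grp.1 A.1) :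
    x ∈ C.rmul A ↔ ∃ c ∈ C, ∃ a ∈ A.1, x = c * a := by
  unfold Cos.rmul
  cases h : C.isE
  · rw [cond_false, Cos.mem_lc, Grp.sup_val, M1.mem_sup_nm hN]
    constructor
    · rintro ⟨g, hg, a, ha, e⟩
      refine ⟨C.rep * g, (mem_grp_iff h).1 hg, a, ha, ?_⟩
      rw [mul_assoc, ← e, mul_inv_cancel_left]
    · rintro ⟨c, hc, a, ha, rfl⟩
      exact ⟨C.rep⁻¹ * c, (KG.mem_cos h).1 hc, a, ha, (mul_assoc _ _ _).symm⟩
  · rw [cond_true]
    exact ⟨fun h1 => (Cos.not_mem_emp _ h1).elim, fun ⟨c, hc, _⟩ => (Cos.isE_iff.1 h _ hc).elim⟩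

theorem mem_ccon [KG] [M3] {S : Finset ℕ} {C : Cos} {x : FP} (hS : ∀ c ∈ C, c ∈ sst S) :
    x ∈ C.con S ↔ ∃ c ∈ C, res S c = x := by
  unfold Cos.con
  cases h : C.isE
  · have hg : C.grp.1 ≤ sst S := KG.grp_le hS
    have hr : C.rep ∈ sst (S : Set ℕ) := hS _ (rep_mem' h)
    rw [cond_false, Cos.mem_lc, M3.mem_con hg]
    constructor
    · rintro ⟨g, hg1, e⟩
      refine ⟨C.rep * g, (mem_grp_iff h).1 hg1, ?_⟩
      rw [M3.res_mul hr (hg hg1), e, mul_inv_cancel_left]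
    · rintro ⟨c, hc, rfl⟩
      refine ⟨C.rep⁻¹ * c, (KG.mem_cos h).1 hc, ?_⟩
      rw [M3.res_mul (inv_mem hr) (hS c hc), M3.res_inv hr]
  · rw [cond_true]
    exact ⟨fun h1 => (Cos.not_mem_emp _ h1).elim, fun ⟨c, hc, _⟩ => (Cos.isE_iff.1 h _ hc).elim⟩

theorem union_eq [KG] {l : List Cos} {U : Cos} (hU : ∀ x, x ∈ U ↔ ∃ C ∈ l, x ∈ C) :
    Cos.union l = U := by
  unfold Cos.union
  have hf : ∀ B, B ∈ l.filter (fun C => !C.isE) ↔ B ∈ l ∧ B.isE = false := fun B => by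
    rw [List.mem_filter, Bool.not_eq_true']
  generalize l.filter (fun C => !C.isE) = m at hf
  cases m with
  | nil =>
    rw [lcases_nil]
    refine Cos.ext fun x => ⟨fun h => (Cos.not_mem_emp _ h).elim, fun h => ?_⟩
    obtain ⟨C, hC, hx⟩ := (hU x).1 h
    exact absurd ((hf C).2 ⟨hC, isE_of_mem hx⟩) List.not_mem_nil
  | cons C t =>
    rw [lcases_cons]
    have hC := (hf C).1 List.mem_cons_self
    have hsub : ∀ B ∈ C :: t, ∀ x ∈ B, x ∈ U := fun B hB x hx =>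
      (hU x).2 ⟨B, ((hf B).1 hB).1, hx⟩
    have hr : C.rep ∈ U := hsub C List.mem_cons_self _ (rep_mem' hC.2)
    refine Cos.ext fun x => ?_
    rw [Cos.mem_lc, Grp.ofL_val]
    constructor
    · intro hx
      have h1 : Subgroup.closure {x | x ∈ C.grp.gens ++
          t.flatMap fun B => (C.rep⁻¹ * B.rep) :: B.grp.gens} ≤ U.grp.1 := by
        rw [Subgroup.closure_le]
        intro g hg
        rcases List.mem_append.1 hg with hg | hg
        · exact grp_mono (hsub C List.mem_cons_self) (KG.mem_of_gens hg)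
        · obtain ⟨B, hB, hg⟩ := List.mem_flatMap.1 hg
          have hB' : B ∈ C :: t := List.mem_cons_of_mem _ hB
          rcases List.mem_cons.1 hg with rfl | hg
          · exact Cos.mem_grp.2 (Or.inr ⟨_, hr, _, hsub B hB' _ (rep_mem' ((hf B).1 hB').2), rfl⟩)
          · exact grp_mono (hsub B hB') (KG.mem_of_gens hg)
      have := mul_mem_cos hr (h1 hx)
      rwa [mul_inv_cancel_left] at this
    · intro hx
      obtain ⟨B, hB, hxB⟩ := (hU x).1 hx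
      have hBe := isE_of_mem hxB
      have h2 := (KG.mem_cos hBe).1 hxB
      rw [← KG.closure_gens] at h2
      rcases List.mem_cons.1 ((hf B).2 ⟨hB, hBe⟩) with rfl | hBt
      · exact Subgroup.closure_mono (fun g hg => List.mem_append_left _ hg) h2
      · have e : C.rep⁻¹ * x = (C.rep⁻¹ * B.rep) * (B.rep⁻¹ * x) := by group
        rw [e]
        refine mul_mem (Subgroup.subset_closure ?_) (Subgroup.closure_mono (fun g hg => ?_) h2)
        · exact List.mem_append_right _ (List.mem_flatMap.2 ⟨B, hBt, List.mem_cons_self⟩)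
        · exact List.mem_append_right _ (List.mem_flatMap.2 ⟨B, hBt, List.mem_cons_of_mem _ hg⟩)

theorem grp_TR [KG] [M1] {L X Z : Grp} {h : FP} (hE : (TR L X Z).isE = false) :
    h ∈ (TR L X Z).grp.1 ↔ h ∈ L.1 ∧ cj h X.1 = X.1 := by
  obtain ⟨h1, h2⟩ := mem_TR.1 (rep_mem' hE)
  rw [mem_grp_iff hE, mem_TR, M1.cj_mul, ← h2, M1.cj_inj, mul_mem_cancel_left h1]

theorem grp_stt [KG] {L : Grp} {S T : Finset ℕ} (hE : (stt L S T).isE = false) :
    (stt L S T).grp = L.stab S := by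
  obtain ⟨h1, h2⟩ := mem_stt.1 (rep_mem' hE)
  refine Grp.ext (Subgroup.ext fun h => ?_)
  rw [mem_grp_iff hE, mem_stt, mul_mem_cancel_left h1, Grp.stab_val, Subgroup.mem_inf, mem_sst]
  refine and_congr_right fun _ => forall_congr' fun x => ?_
  rw [mul_smul, ← h2, Finset.mem_coe, Finset.mem_coe]
  exact Iff.comm

theorem grp_partt [KG] {L X Z : Grp} {h : FP} (hE : (partt L X Z).isE = false) :
    h ∈ (partt L X Z).grp.1 ↔ h ∈ L.1 ∧ Po X.1 h := by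
  obtain ⟨h1, h2⟩ := mem_partt.1 (rep_mem' hE)
  rw [mem_grp_iff hE, mem_partt, mul_mem_cancel_left h1]
  refine and_congr_right fun _ => forall_congr' fun x => forall_congr' fun y => ?_
  rw [mul_smul, mul_smul, ← h2]

theorem ref_emp {L X Z : Grp} {C : Cos} (h : ∀ x ∈ TR L X Z, x ∈ C) (hE : C.isE = true) :
    TR L X Z = Cos.emp :=
  Cos.ext fun x => ⟨fun hx => (Cos.isE_iff.1 hE x (h x hx)).elim,
    fun hx => (Cos.not_mem_emp _ hx).elim⟩

theorem ref [KG] [M1] {L X Z : Grp} {C : Cos} (h : ∀ x ∈ TR L X Z, x ∈ C)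
    (hL : ∀ x ∈ C, x ∈ L.1) (hE : C.isE = false) :
    TR L X Z = Cos.lmul C.rep (TR C.grp X (Grp.cj C.rep⁻¹ Z)) := by
  refine Cos.ext fun x => ?_
  rw [mem_lmul, mem_TR (L := C.grp), ← KG.mem_cos hE, Grp.cj_val, M1.cj_mul, M1.cj_inj]
  exact ⟨fun hx => ⟨h x hx, (mem_TR.1 hx).2⟩, fun hx => mem_TR.2 ⟨hL x hx.1, hx.2⟩⟩

theorem up_TR [KG] [M1] {S S' X Z Y : Grp} (h1 : S'.1 ≤ S.1) (h2 : Y.1 ≤ S.1) (h3 : Nm Y.1 X.1)
    (h4 : ∀ s ∈ S'.1, cj s X.1 = X.1 → ∀ y ∈ Y.1, s * y * s⁻¹ ∈ Y.1)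
    (h5 : ∀ s ∈ TR S X Z, ∃ s' ∈ S'.1, ∃ y ∈ Y.1, s = s' * y) :
    TR S X Z = (TR S' X Z).rmul Y := by
  have hN : Nm (TR S' X Z).grp.1 Y.1 := by
    cases hE : (TR S' X Z).isE
    · intro l hl
      obtain ⟨a, b⟩ := (grp_TR hE).1 hl
      exact h4 l a b
    · rw [KG.grp_emp hE]
      intro l hl d hd
      rw [Grp.bot_val, Subgroup.mem_bot] at hl
      subst hl
      simpa using hd
  refine Cos.ext fun x => ?_
  rw [mem_rmul hN]
  constructor
  · intro hx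
    obtain ⟨s, hs, y, hy, rfl⟩ := h5 x hx
    refine ⟨s, mem_TR.2 ⟨hs, ?_⟩, y, hy, rfl⟩
    rw [← (mem_TR.1 hx).2, M1.cj_mul, M1.cj_of_nm h3 hy]
  · rintro ⟨c, hc, a, ha, rfl⟩
    obtain ⟨hc1, hc2⟩ := mem_TR.1 hc
    exact mem_TR.2 ⟨mul_mem (h1 hc1) (h2 ha), by rw [M1.cj_mul, M1.cj_of_nm h3 ha, hc2]⟩

theorem TR_all [M1] {L X Z : Grp} (h : Nm L.1 X.1) (e : Z = X) : TR L X Z = Cos.lc 1 L := by
  subst e
  refine Cos.ext fun x => ?_
  rw [mem_TR, Cos.mem_lc, inv_one, one_mul]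
  exact ⟨fun hx => hx.1, fun hx => ⟨hx, M1.cj_of_nm h hx⟩⟩

theorem climb [M1] {n : ℕ} {L K A Z : SG} {g h : ℕ → FP} (hL : L ≤ Sy n) (hN : Nm L K)
    (hA : A = K ⊔ Subgroup.closure {y | ∃ b < n, g b = y})
    (hZ : Z = K ⊔ Subgroup.closure {y | ∃ b < n, h b = y}) (l : FP) (hl : l ∈ L)
    (hk : ∀ b < n, (h (l • b))⁻¹ * (l * g b * l⁻¹) ∈ K) : cj l A = Z := by
  subst hA hZ
  rw [M1.cj_sup, M1.cj_of_nm hN hl, M1.cj_closure]
  apply le_antisymm
  · refine sup_le le_sup_left ((Subgroup.closure_le _).2 ?_)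
    rintro _ ⟨_, ⟨b, hb, rfl⟩, rfl⟩
    have e : l * g b * l⁻¹ = h (l • b) * ((h (l • b))⁻¹ * (l * g b * l⁻¹)) :=
      (mul_inv_cancel_left _ _).symm
    show l * g b * l⁻¹ ∈ K ⊔ Subgroup.closure {y | ∃ b < n, h b = y}
    rw [e]
    exact mul_mem (Subgroup.mem_sup_right (Subgroup.subset_closure
      ⟨l • b, (smul_lt (hL hl)).2 hb, rfl⟩)) (Subgroup.mem_sup_left (hk b hb))
  · refine sup_le le_sup_left ((Subgroup.closure_le _).2 ?_)
    rintro _ ⟨c, hc, rfl⟩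
    have hb : l⁻¹ • c < n := (smul_lt (hL (inv_mem hl))).2 hc
    have h1 := hk _ hb
    rw [smul_inv_smul] at h1
    have e : h c = (l * g (l⁻¹ • c) * l⁻¹) * ((h c)⁻¹ * (l * g (l⁻¹ • c) * l⁻¹))⁻¹ := by group
    show h c ∈ K ⊔ Subgroup.closure ((fun x => l * x * l⁻¹) '' {y | ∃ b < n, g b = y})
    rw [e]
    exact mul_mem (Subgroup.mem_sup_right (Subgroup.subset_closure ⟨_, ⟨_, hb, rfl⟩, rfl⟩))
      (Subgroup.mem_sup_left (inv_mem h1))

theorem infL_val (B : Grp) (l : List Grp) : (infL B l).1 = B.1 ⊓ sInf (vals l) := by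
  induction l generalizing B with
  | nil =>
    have e : vals [] = ∅ := by
      ext H
      simp [vals]
    rw [e, sInf_empty, inf_top_eq]
    rfl
  | cons A t ih =>
    have e : vals (A :: t) = insert A.1 (vals t) := by
      ext H
      simp only [vals, List.mem_cons, Set.mem_ofPred_eq, Set.mem_insert_iff]
      constructor
      · rintro ⟨C, rfl | hC, rfl⟩
        · exact Or.inl rfl
        · exact Or.inr ⟨C, hC, rfl⟩
      · rintro (rfl | ⟨C, hC, rfl⟩)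
        · exact ⟨A, Or.inl rfl, rfl⟩
        · exact ⟨C, Or.inr hC, rfl⟩
    rw [e, sInf_insert, ← inf_assoc, ← Grp.inf_val, ← ih]
    rfl

end BM6

theorem b_m6 [K1] [KG] [M1] [M3] : M6 where
  mem_lmul := BM6.mem_lmul
  mem_rmul := BM6.mem_rmul
  mem_ccon := BM6.mem_ccon
  union_eq := BM6.union_eq
  grp_TR := BM6.grp_TR
  grp_stt := BM6.grp_stt
  grp_partt := BM6.grp_partt
  ref_emp := BM6.ref_emp
  ref := BM6.ref
  up_TR := BM6.up_TR
  TR_all := BM6.TR_all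
  climb := BM6.climb
  infL_val := BM6.infL_val

end

end Pool.Agent.Lib.E6
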