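import Pool.Agent.Lib.E6.Spec

/-! Block M7: links. -/

namespace Pool.Agent.Lib.E6

open Equiv Pool.Agent.Lib.helper80 Pool.Agent.Lib.MP_e519cf_lc Polynomial

noncomputable section
open Classical

namespace BM7

variable [K1] [KG] [M1] [M2] [M3] [M3h] {n : ℕ} {L K₁ K₂ LL LA J : Grp}

omit [K1] [KG] [M1] [M2] [M3h] in
theorem sstR (h : Lk n L K₁ K₂ LL LA) {g : FP} (hg : g ∈ LL.1) : g ∈ sst (RH n) :=
  M3.sst_RH (h.le hg) (h.pres hg)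

omit [K1] [KG] [M1] [M2] [M3h] in
theorem res_conj {S : Finset ℕ} {l g : FP} (hl : l ∈ sst S) (hg : g ∈ sst S) :
    l * res S g * l⁻¹ = res S (l * g * l⁻¹) := M3.res_cj hg fun x => (hl x).symm

omit [K1] [KG] [M1] [M2] [M3h] in
theorem memM (h : Lk n L K₁ K₂ LL LA) {A : Grp} (hA : A.1 ≤ LL.1) {m : FP} :
    m ∈ (A.con (RH n)).1 ↔ ∃ g ∈ A.1, rgt n g = m := M3.mem_con fun _ hg => sstR h (hA hg)

omit [K1] [KG] [M1] [M2] [M3h] in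
theorem mem_ovr (h : Lk n L K₁ K₂ LL LA) (hJ : J.1 ≤ (symB n).1) {g : FP} :
    g ∈ (ovr n LA J).1 ↔ g ∈ LA.1 ∧ rgt n g ∈ J.1 := by
  have e : g ∈ (ovr n LA J).1 ↔ g ∈ LA.1 ∧ g ∈ Sy n ⊔ J.1 := Iff.rfl
  rw [e, M3.mem_prod le_rfl hJ]
  exact ⟨fun a => ⟨a.1, a.2.2.2.2⟩, fun a => ⟨a.1, h.le (h.ni.1 a.1), h.pres (h.ni.1 a.1),
    M3.lft_mem (h.pres (h.ni.1 a.1)), a.2⟩⟩

omit [K1] [KG] [M1] [M2] [M3h] in
theorem ovr_ni (h : Lk n L K₁ K₂ LL LA) (hJ : J.1 ≤ (symB n).1) (hN : Nm LL.1 J.1) :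
    NI LL.1 (ovr n LA J).1 := by
  refine ⟨fun g hg => h.ni.1 ((mem_ovr h hJ).1 hg).1, fun l hl g hg => ?_⟩
  obtain ⟨h1, h2⟩ := (mem_ovr h hJ).1 hg
  refine (mem_ovr h hJ).2 ⟨h.ni.2 l hl g h1, ?_⟩
  rw [rgt, ← res_conj (sstR h hl) (sstR h (h.ni.1 h1))]
  exact hN l hl _ h2

omit [K1] [KG] [M1] [M2] [M3h] in
theorem symB_le {j : FP} (hj : j ∈ (symB n).1) :
    j ∈ Sy (2 * n) ∧ j ∈ sst (Finset.range n) ∧ j ∈ sst (RH n) ∧ lft n j = 1 ∧ rgt n j = j := by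
  obtain ⟨h1, h2⟩ := M3.mem_symB.1 hj
  have h3 : j ∈ sst (Finset.range n) := fun x => ⟨fun hx => by
    have := h2 _ hx
    rw [smul_left_cancel_iff] at this
    exact this ▸ hx, fun hx => by rw [h2 x hx]; exact hx⟩
  have h4 := M3.lft_prod (one_mem (Sy n)) hj
  have h5 := M3.rgt_prod (one_mem (Sy n)) hj
  rw [one_mul] at h4 h5
  exact ⟨h1, h3, M3.sst_RH h1 h3, h4, h5⟩

omit [K1] [KG] [M1] [M2] [M3] [M3h] in
theorem orb_sub {M M' : Grp} (h : ∀ m ∈ M'.1, ∀ x, So M.1 x (m • x)) (x : ℕ) :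
    M'.orb x ⊆ M.orb x := fun y hy => by
  obtain ⟨m, hm, rfl⟩ := Grp.mem_orb.1 hy
  exact Grp.mem_orb.2 (h m hm x)

omit [K1] [KG] [M2] in
theorem con_enl (h : Lk n L K₁ K₂ LL LA) (hJ : J.1 ≤ (symB n).1) (hN : Nm LL.1 J.1)
    (hr : ∀ j ∈ J.1, ∀ a, res (J.orb a) j ∈ J.1) {A : Grp} (hA : A.1 ≤ LL.1) :
    (((A.sup J).stab (J.reps (2 * n))).con (Finset.range n)).1 = (A.con (Finset.range n)).1 := by
  have h1 : A.1 ≤ sst (Finset.range n) := hA.trans h.pres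
  have h2 : A.1 ⊔ J.1 ≤ sst (Finset.range n) := sup_le h1 fun j hj => (symB_le (hJ hj)).2.1
  ext x
  rw [M3.mem_con (H := (A.sup J).stab (J.reps (2 * n))) (inf_le_left.trans h2), M3.mem_con h1]
  constructor
  · rintro ⟨g, hg, rfl⟩
    obtain ⟨a, ha, j, hj, rfl⟩ := (M1.mem_sup_nm (M1.nm_mono hA hN)).1 hg.1
    refine ⟨a, ha, ?_⟩
    obtain ⟨-, b2, -, b4, -⟩ := symB_le (hJ hj)
    rw [M3.res_mul (h1 ha) b2, show res (Finset.range n) j = 1 from b4, mul_one]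
  · rintro ⟨s, hs, rfl⟩
    obtain ⟨j, hj, hjs⟩ := M3h.frat (J := J) (fun j hj => (symB_le (hJ hj)).1) (h.le (hA hs))
      (M3.po_of_nm (M1.cj_of_nm hN (hA hs)))
    have hj' : j ∈ J.1 := (Subgroup.closure_le _).2 (by
      rintro _ ⟨b, -, rfl⟩
      exact M3h.gb_mem hr b) hj
    refine ⟨j⁻¹ * s, ⟨mul_mem (Subgroup.mem_sup_right (inv_mem hj')) (Subgroup.mem_sup_left hs),
      hjs⟩, ?_⟩
    obtain ⟨-, b2, -, b4, -⟩ := symB_le (hJ (inv_mem hj'))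
    rw [M3.res_mul b2 (h1 hs), show res (Finset.range n) j⁻¹ = 1 from b4, one_mul]

omit [K1] [KG] [M2] [M3h] in
theorem ovr_test {p : ℕ} (hv : VEmb n p L.1 K₁.1 K₂.1) (h : Lk n L K₁ K₂ LL LA)
    (hJ : J.1 ≤ (symB n).1) (hN : Nm LL.1 J.1) :
    NI L.1 (((ovr n LA J).con (Finset.range n)).1 ⊔ K₂.1) ∧
      ((ovr n LA J).con (Finset.range n)).1 ⊔ K₂.1 ≤ K₁.1 := by
  have ho := ovr_ni h hJ hN
  have h0 : (ovr n LA J).1 ≤ sst (Finset.range n) := ho.1.trans h.pres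
  have h1 : ((ovr n LA J).con (Finset.range n)).1 ⊔ K₂.1 ≤ K₁.1 := by
    rw [← h.covK]
    refine sup_le_sup_right (fun x hx => ?_) _
    obtain ⟨g, hg, rfl⟩ := (M3.mem_con h0).1 hx
    exact (M3.mem_con (h.ni.1.trans h.pres)).2 ⟨g, ((mem_ovr h hJ).1 hg).1, rfl⟩
  refine ⟨⟨h1.trans hv.n1.1, ?_⟩, h1⟩
  have h2 : Nm (LL.con (Finset.range n)).1 K₂.1 :=
    M1.nm_mono (le_sup_left.trans h.covL.le) hv.n2.2
  rw [← h.covL]
  refine M1.nm_sup_left (M1.nm_sup (fun a ha x hx => ?_) h2) (M1.nm_of_le le_sup_right)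
  obtain ⟨l, hl, rfl⟩ := (M3.mem_con h.pres).1 ha
  obtain ⟨g, hg, rfl⟩ := (M3.mem_con h0).1 hx
  refine (M3.mem_con h0).2 ⟨l * g * l⁻¹, ho.2 l hl g hg, ?_⟩
  rw [M3.res_mul (mul_mem (h.pres hl) (h0 hg)) (inv_mem (h.pres hl)),
    M3.res_mul (h.pres hl) (h0 hg), M3.res_inv (h.pres hl)]

omit [K1] [KG] [M1] [M3h] in
theorem shrink (h : Lk n L K₁ K₂ LL LA) (hJ : J.1 ≤ (symB n).1) (hN : Nm LL.1 J.1)
    (hK : ((ovr n LA J).con (Finset.range n)).1 ⊔ K₂.1 = K₁.1) (hM : ¬ (LA.con (RH n)).1 ≤ J.1) :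
    Lk n L K₁ K₂ LL (ovr n LA J) ∧ pot n ((ovr n LA J).con (RH n)) < pot n (LA.con (RH n)) := by
  have ho := ovr_ni h hJ hN
  refine ⟨⟨h.le, h.pres, ho, h.covL, hK, fun g hg => h.ker g ((mem_ovr h hJ).1 hg).1⟩, ?_⟩
  have h1 : ((ovr n LA J).con (RH n)).1 ≤ (LA.con (RH n)).1 := fun x hx => by
    obtain ⟨g, hg, rfl⟩ := (memM h ho.1).1 hx
    exact (memM h h.ni.1).2 ⟨g, ((mem_ovr h hJ).1 hg).1, rfl⟩
  have h2 : ((ovr n LA J).con (RH n)).1 ≤ J.1 := fun x hx => by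
    obtain ⟨g, hg, rfl⟩ := (memM h ho.1).1 hx
    exact ((mem_ovr h hJ).1 hg).2
  have h3 := M2.len_lt (M3.con_le (RH n) (h.ni.1.trans h.le))
    (lt_of_le_of_ne h1 fun e => hM (e ▸ h2))
  refine Nat.add_lt_add_of_le_of_lt (Nat.mul_le_mul_right _ (Finset.sum_le_sum fun x _ =>
    Finset.card_le_card (orb_sub (fun m hm x => ⟨m, h1 hm, rfl⟩) x))) h3

omit [K1] [KG] in
theorem enlarge (h : Lk n L K₁ K₂ LL LA) (hJ : J.1 ≤ (symB n).1) (hN : Nm LL.1 J.1)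
    (hK : ((ovr n LA J).con (Finset.range n)).1 ≤ K₂.1) (hb : J.1 ≠ ⊥)
    (hr : ∀ j ∈ J.1, ∀ a, res (J.orb a) j ∈ J.1)
    (hso : ∀ j ∈ J.1, ∀ x, So (LA.con (RH n)).1 x (j • x)) :
    Lk n L K₁ K₂ ((LL.sup J).stab (J.reps (2 * n))) ((LA.sup J).stab (J.reps (2 * n))) ∧
      pot n (((LA.sup J).stab (J.reps (2 * n))).con (RH n)) < pot n (LA.con (RH n)) := by
  have hJ1 : J.1 ≤ Sy (2 * n) := fun j hj => (symB_le (hJ hj)).1
  have hdec : ∀ g ∈ ((LA.sup J).stab (J.reps (2 * n))).1, ∃ a ∈ LA.1, ∃ j ∈ J.1,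
      lft n g = lft n a ∧ rgt n g = rgt n a * j := fun g hg => by
    obtain ⟨a, ha, j, hj, rfl⟩ := (M1.mem_sup_nm (M1.nm_mono h.ni.1 hN)).1 hg.1
    obtain ⟨-, b2, b3, b4, b5⟩ := symB_le (hJ hj)
    refine ⟨a, ha, j, hj, ?_, ?_⟩
    · rw [lft, M3.res_mul (h.pres (h.ni.1 ha)) b2, show res (Finset.range n) j = 1 from b4, mul_one,
        lft]
    · rw [rgt, M3.res_mul (sstR h (h.ni.1 ha)) b3, show res (RH n) j = j from b5, rgt]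
  have hlk : Lk n L K₁ K₂ ((LL.sup J).stab (J.reps (2 * n)))
      ((LA.sup J).stab (J.reps (2 * n))) := by
    refine ⟨inf_le_left.trans (sup_le h.le hJ1),
      inf_le_left.trans (sup_le h.pres fun j hj => (symB_le (hJ hj)).2.1),
      ⟨inf_le_inf_right _ (sup_le_sup_right h.ni.1 _), M1.nm_inf (M1.nm_mono inf_le_left
        (M1.nm_sup_left (M1.nm_sup h.ni.2 hN) (M1.nm_of_le le_sup_right)))
        (M1.nm_of_le inf_le_right)⟩, ?_, ?_, fun g hg h1 => ?_⟩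
    · rw [con_enl h hJ hN hr le_rfl, h.covL]
    · rw [con_enl h hJ hN hr h.ni.1, h.covK]
    · obtain ⟨a, ha, j, hj, e1, e2⟩ := hdec g hg
      rw [e1]
      refine hK ((M3.mem_con ((ovr_ni h hJ hN).1.trans h.pres)).2
        ⟨a, (mem_ovr h hJ).2 ⟨ha, ?_⟩, rfl⟩)
      rw [h1] at e2
      rw [eq_inv_of_mul_eq_one_left e2.symm]
      exact inv_mem hj
  refine ⟨hlk, ?_⟩
  set M' := ((LA.sup J).stab (J.reps (2 * n))).con (RH n) with hM'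
  have hsub : ∀ x, M'.orb x ⊆ (LA.con (RH n)).orb x := orb_sub fun m hm x => by
    obtain ⟨g, hg, rfl⟩ := (memM hlk hlk.ni.1).1 hm
    obtain ⟨a, ha, j, hj, -, e2⟩ := hdec g hg
    rw [e2, mul_smul]
    exact M3.so_trans (hso j hj x) ⟨_, (memM h h.ni.1).2 ⟨a, ha, rfl⟩, rfl⟩
  obtain ⟨j, hj, x, hx⟩ : ∃ j ∈ J.1, ∃ x : ℕ, j • x ≠ x := by
    by_contra hc
    refine hb (eq_bot_iff.2 fun j hj => Subgroup.mem_bot.2 (FP.ext fun x => ?_))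
    by_contra hx
    exact hc ⟨j, hj, x, by simpa using hx⟩
  have hx2 : x < 2 * n := by
    by_contra hc
    exact hx (hJ1 hj x (not_lt.1 hc))
  have ht1 : J.rep x < 2 * n := (Grp.rep_le (M3.so_refl J.1 x)).trans_lt hx2
  have ht2 : J.rep x ∈ J.reps (2 * n) :=
    Grp.mem_reps.2 ⟨ht1, (M3.rep_eq (J.so_rep x)).symm⟩
  obtain ⟨b, hb1, hb2⟩ : ∃ b, So J.1 x b ∧ b ≠ J.rep x := by
    by_cases e : x = J.rep x
    · exact ⟨j • x, ⟨j, hj, rfl⟩, fun e' => hx (e'.trans e.symm)⟩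
    · exact ⟨x, M3.so_refl _ _, e⟩
  have hb3 : b ∈ (LA.con (RH n)).orb (J.rep x) := by
    obtain ⟨j', hj', e⟩ := M3.so_trans (M3.so_symm (J.so_rep x)) hb1
    exact Grp.mem_orb.2 (e ▸ hso j' hj' _)
  have hb4 : b ∉ M'.orb (J.rep x) := fun hc => by
    obtain ⟨m, hm, e⟩ := Grp.mem_orb.1 hc
    obtain ⟨g, hg, rfl⟩ := (memM hlk hlk.ni.1).1 hm
    have h1 : b ∈ J.reps (2 * n) := by
      rw [← e, rgt, M3.res_smul (sstR hlk (hlk.ni.1 hg))]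
      split_ifs
      · exact (hg.2 _).2 ht2
      · exact ht2
    exact hb2 ((Grp.mem_reps.1 h1).2.symm.trans (M3.rep_eq hb1).symm)
  have hlt : ((Finset.range (2 * n)).sum fun x => (M'.orb x).card) <
      (Finset.range (2 * n)).sum fun x => ((LA.con (RH n)).orb x).card :=
    Finset.sum_lt_sum (fun x _ => Finset.card_le_card (hsub x)) ⟨J.rep x, Finset.mem_range.2 ht1,
      Finset.card_lt_card ⟨hsub _, fun hc => hb4 (hc hb3)⟩⟩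
  have hlen : M'.len ≤ 2 * n * (2 * n) := M2.len_le (M3.con_le (RH n) (hlk.ni.1.trans hlk.le))
  have := Nat.mul_le_mul_right (4 * n * n + 1) (Nat.succ_le_of_lt hlt)
  unfold pot
  nlinarith [Nat.zero_le (LA.con (RH n)).len]

omit [K1] [KG] [M1] [M3] [M3h] in
theorem pot_le {M : Grp} (h : M.1 ≤ Sy (2 * n)) : pot n M ≤ (4 * n * n + 1) * (4 * n * n + 1) := by
  have h1 : ((Finset.range (2 * n)).sum fun x => (M.orb x).card) ≤ 2 * n * (2 * n) := by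
    refine (Finset.sum_le_card_nsmul _ _ (2 * n) fun x hx => ?_).trans (by simp)
    refine (Finset.card_le_card fun y hy => ?_).trans (Finset.card_range _).le
    obtain ⟨m, hm, rfl⟩ := Grp.mem_orb.1 hy
    exact Finset.mem_range.2 ((smul_lt (h hm)).2 (Finset.mem_range.1 hx))
  have h2 : M.len ≤ 2 * n * (2 * n) := M2.len_le h
  have := Nat.mul_le_mul_right (4 * n * n + 1) h1
  unfold pot
  nlinarith

end BM7

theorem b_m7 [K1] [KG] [M1] [M2] [M3] [M3h] : M7 where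
  lk_M h := ⟨fun x hx => by
      obtain ⟨g, hg, rfl⟩ := (BM7.memM h h.ni.1).1 hx
      exact M3.rgt_mem (h.le (h.ni.1 hg)) (h.pres (h.ni.1 hg)),
    fun l hl x hx => by
      obtain ⟨g, hg, rfl⟩ := (BM7.memM h h.ni.1).1 hx
      exact (BM7.memM h h.ni.1).2 ⟨_, h.ni.2 l hl g hg,
        (BM7.res_conj (BM7.sstR h hl) (BM7.sstR h (h.ni.1 hg))).symm⟩,
    fun _ => BM7.memM h h.ni.1⟩
  lk_ne hv h := by
    by_contra hc
    refine hv.ne ?_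
    rw [← h.covK]
    refine sup_le (fun x hx => ?_) le_rfl
    obtain ⟨g, hg, rfl⟩ := (M3.mem_con (h.ni.1.trans h.pres)).1 hx
    by_contra h1
    exact hc ⟨g, hg, h1⟩
  mem_ovr h hJ := BM7.mem_ovr h hJ
  ovr_test hv h hJ hN := BM7.ovr_test hv h hJ hN
  shrink h hJ hN hK hM := BM7.shrink h hJ hN hK hM
  enlarge h hJ hN hK hb hr hso := BM7.enlarge h hJ hN hK hb hr hso
  pot_le h := BM7.pot_le h

end

end Pool.Agent.Lib.E6
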