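import Pool.Agent.Lib.E6.Spec

/-! E6, block MAX: the maximal proper products are computed with the oracles. -/

namespace Pool.Agent.Lib.E6

open Equiv Pool.Agent.Lib.helper80 Pool.Agent.Lib.MP_e519cf_lc Polynomial

noncomputable section
open Classical

namespace MAX

/-- One step of the greedy product. -/
def gstep (H P N : Grp) : Grp := bif Grp.le H (P.sup N) then P else P.sup N

/-- The greedy product not containing `H`. -/
def gr (D : Grp) (Ns : List Grp) (H : Grp) : Grp := Ns.foldl (gstep H) D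

abbrev St : Type := (Grp × List Grp) × Grp × List Grp

/-- One round of the loop. -/
def step (s : St) : St :=
  bif Grp.le s.2.1 s.1.1 then s
  else (s.1, s.2.1.inf (gr s.1.1 s.1.2 s.2.1), gr s.1.1 s.1.2 s.2.1 :: s.2.2)

def cand (Ns R : List Grp) : List Grp := R.filter fun P => Ns.any fun N => Grp.le N P

def outp (Ns R : List Grp) : List Grp :=
  dedupB ((cand Ns R).filter fun P => (cand Ns R).all fun Q => !Grp.le P Q || eqb Q P)

theorem gstep_cases (H P N : Grp) :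
    (H.1 ≤ P.1 ⊔ N.1 ∧ gstep H P N = P) ∨ (¬ H.1 ≤ P.1 ⊔ N.1 ∧ gstep H P N = P.sup N) := by
  unfold gstep
  cases h : Grp.le H (P.sup N)
  · exact Or.inr ⟨by simpa using h, rfl⟩
  · exact Or.inl ⟨by simpa using h, rfl⟩

theorem fold_spec (H : Grp) (Ns : List Grp) : ∀ P : Grp,
    (¬ H.1 ≤ P.1 → ¬ H.1 ≤ (Ns.foldl (gstep H) P).1) ∧
    (∃ K : Set SG, K ⊆ vals Ns ∧ (Ns.foldl (gstep H) P).1 = P.1 ⊔ sSup K) ∧
    ∀ N ∈ Ns, N.1 ≤ (Ns.foldl (gstep H) P).1 ∨ H.1 ≤ (Ns.foldl (gstep H) P).1 ⊔ N.1 := by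
  induction Ns with
  | nil => intro P; exact ⟨id, ⟨∅, Set.empty_subset _, by simp⟩, by simp⟩
  | cons M t ih =>
    intro P
    rw [List.foldl_cons]
    obtain ⟨h1, ⟨K, hK, e⟩, h3⟩ := ih (gstep H P M)
    have sub : K ⊆ vals (M :: t) := fun X hX => by
      obtain ⟨A, hA, eA⟩ := hK hX
      exact ⟨A, List.mem_cons_of_mem _ hA, eA⟩
    rcases gstep_cases H P M with ⟨c, e2⟩ | ⟨c, e2⟩
    · rw [e2] at h1 e h3 ⊢
      refine ⟨h1, ⟨K, sub, e⟩, fun N hN => ?_⟩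
      rcases List.mem_cons.1 hN with rfl | hN
      · refine Or.inr (c.trans (sup_le_sup_right ?_ _))
        rw [e]; exact le_sup_left
      · exact h3 N hN
    · rw [e2] at h1 e h3 ⊢
      refine ⟨fun _ => h1 c, ⟨insert M.1 K, ?_, ?_⟩, fun N hN => ?_⟩
      · exact Set.insert_subset ⟨M, List.mem_cons_self, rfl⟩ sub
      · rw [e, sSup_insert, Grp.sup_val, sup_assoc]
      · rcases List.mem_cons.1 hN with rfl | hN
        · refine Or.inl ?_
          rw [e, Grp.sup_val]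
          exact le_sup_right.trans le_sup_left
        · exact h3 N hN

theorem fold_le {H : Grp} {T : SG} (Ns : List Grp) (P : Grp) (hP : P.1 ≤ T)
    (hN : ∀ N ∈ Ns, N.1 ≤ T) : (Ns.foldl (gstep H) P).1 ≤ T := by
  obtain ⟨K, hK, e⟩ := (fold_spec H Ns P).2.1
  rw [e]
  refine sup_le hP (sSup_le fun X hX => ?_)
  obtain ⟨A, hA, rfl⟩ := hK hX
  exact hN A hA

theorem fold_nm [M1] {H : Grp} {B : SG} (Ns : List Grp) : ∀ P : Grp, Nm B P.1 →
    (∀ N ∈ Ns, Nm B N.1) → Nm B (Ns.foldl (gstep H) P).1 := by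
  induction Ns with
  | nil => intro P hP _; exact hP
  | cons M t ih =>
    intro P hP hN
    rw [List.foldl_cons]
    refine ih _ ?_ fun N h => hN N (List.mem_cons_of_mem _ h)
    rcases gstep_cases H P M with ⟨_, e2⟩ | ⟨_, e2⟩ <;> rw [e2]
    · exact hP
    · exact M1.nm_sup hP (hN M List.mem_cons_self)

theorem le_Sy_sz [KG] {H : Grp} {m : ℕ} (h : sz H ≤ m) : H.1 ≤ Sy m :=
  Grp.bd_le.1 ((KG.gbd_le_sz H).trans h)

theorem pt_gr [KA] : PT fun p : Grp × List Grp × Grp => gr p.1 p.2.1 p.2.2 := by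
  refine PT.foldl (f := fun (a : Grp × List Grp × Grp) P N => gstep a.2.2 P N)
    (l := fun a => a.2.1) (i := fun a => a.1) ?_ (by fun_prop) (by fun_prop) SBp ?_
  · unfold gstep; fun_prop
  · rintro ⟨D, Ns, H⟩ k
    rw [eval_SBp]
    refine KG.sz_Grp (fold_le _ _ (le_Sy_sz ?_) fun N hN => le_Sy_sz ?_)
    · simp only [sz_pair]; omega
    · have := sz_le_of_mem (List.mem_of_mem_take hN)
      simp only [sz_pair] at this ⊢; omega

theorem ot_step [KA] (hi : S_inf) : OT step := by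
  have hg := pt_gr
  unfold S_inf at hi
  unfold step
  refine OT.cond (by fun_prop) (by fun_prop) (OT.prodMk (by fun_prop) (OT.prodMk ?_ ?_))
  · exact OT.comp (g := fun s : St => (s.2.1, gr s.1.1 s.1.2 s.2.1)) hi
      (OT.of_pt (PT.prodMk (by fun_prop)
        (PT.comp (g := fun s : St => (s.1.1, s.1.2, s.2.1)) hg (by fun_prop))))
  · exact OT.of_pt (PT.cons
      (PT.comp (g := fun s : St => (s.1.1, s.1.2, s.2.1)) hg (by fun_prop)) (by fun_prop))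

theorem pt_outp [KA] : PT fun p : List Grp × List Grp => outp p.1 p.2 := by
  unfold outp cand; fun_prop

theorem pr_le {n : ℕ} {B D P : SG} {Ns : Set SG} (v : MPok n B D Ns) (h : IsPr D Ns P) : P ≤ B := by
  obtain ⟨K, hK, _, rfl⟩ := h
  exact sup_le v.nD.1 (sSup_le fun X hX => (v.nN X (hK hX)).1)

theorem ex_max [M2] {n : ℕ} {B D : SG} {Ns : Set SG} (v : MPok n B D Ns) : ∀ (m : ℕ) (P : SG),
    IsPr D Ns P → P ≠ B → n * n ≤ len P + m → ∃ M ∈ MP B D Ns, P ≤ M := by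
  intro m
  induction m with
  | zero =>
    intro P hP hB hl
    refine ⟨P, ⟨hP, hB, fun Q hQ _ hle => ?_⟩, le_rfl⟩
    have h1 := (pr_le v hQ).trans v.le
    exact (M2.eq_of_len h1 hle ((M2.len_le h1).trans hl)).symm
  | succ m ih =>
    intro P hP hB hl
    by_cases hm : P ∈ MP B D Ns
    · exact ⟨P, hm, le_rfl⟩
    · have : ∃ Q, IsPr D Ns Q ∧ Q ≠ B ∧ P ≤ Q ∧ Q ≠ P := by
        by_contra hc
        exact hm ⟨hP, hB, fun Q h1 h2 h3 => by_contra fun h4 => hc ⟨Q, h1, h2, h3, h4⟩⟩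
      obtain ⟨Q, h1, h2, h3, h4⟩ := this
      have := M2.len_lt ((pr_le v h1).trans v.le) (lt_of_le_of_ne h3 h4.symm)
      obtain ⟨M, hM, hle⟩ := ih Q h1 h2 (by omega)
      exact ⟨M, hM, h3.trans hle⟩

/-- The loop invariant. -/
structure Inv (B D : Grp) (Ns : List Grp) (k : ℕ) (s : St) : Prop where
  e : s.1 = (D, Ns)
  ni : NI B.1 s.2.1.1
  rc : ∀ P ∈ s.2.2, P.1 ≤ B.1 ∧ P.1 ≠ B.1 ∧ ∃ K : Set SG, K ⊆ vals Ns ∧ P.1 = D.1 ⊔ sSup K
  ln : s.2.2.length ≤ k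
  dr : s.2.1.1 ≤ D.1 ∨ len s.2.1.1 + k ≤ len B.1
  mp : ∀ M ∈ MP B.1 D.1 (vals Ns), (∃ Q ∈ s.2.2, Q.1 = M) ∨ s.2.1.1 ⊔ M = B.1

theorem key [KA] {n : ℕ} {B D H G M : SG} {Ns : Set SG} (v : MPok n B D Ns) (hM : M ∈ MP B D Ns)
    (hH : NI B H) (hG : NI B G) (e : H ⊔ M = B) (hK : ∃ K : Set SG, K ⊆ Ns ∧ G = D ⊔ sSup K)
    (hN : ∀ N ∈ Ns, N ≤ G ∨ H ≤ G ⊔ N) : G = M ∨ (H ⊓ G) ⊔ M = B := by
  obtain ⟨b1, b2, b3, b4, _⟩ := M5.mp_basic v hM
  obtain ⟨K, hK, eG⟩ := hK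
  obtain ⟨⟨K', hK', ne, eM⟩, _, mx⟩ := hM
  by_cases hle : G ≤ M
  · refine Or.inl (le_antisymm hle ?_)
    have : D ⊔ sSup K' ≤ G := by
      refine sup_le (eG ▸ le_sup_left) (sSup_le fun N hN' => ?_)
      refine (hN N (hK' hN')).resolve_right fun h => b3 ?_
      have h1 : N ≤ M := eM ▸ (le_sSup hN').trans le_sup_right
      rw [← e]
      exact (sup_eq_right.2 (h.trans (sup_le hle h1))).symm
    exact eM ▸ this
  · refine Or.inr (le_antisymm (sup_le (inf_le_left.trans hH.1) b1.1) ?_)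
    have hp : IsPr D Ns (M ⊔ G) := by
      refine ⟨K' ∪ K, Set.union_subset hK' hK, ne.mono Set.subset_union_left, ?_⟩
      rw [sSup_union, eM, eG]
      exact (sup_sup_distrib_left _ _ _).symm
    have e2 : M ⊔ G = B := by
      by_contra hc
      exact hle (sup_eq_left.1 (mx _ hp hc le_sup_left))
    have := M1.comm_le b1 hH hG
    rw [sup_comm M H, e, e2] at this
    refine b4.trans (sup_le (this.trans ?_) le_sup_right)
    rw [sup_comm]

theorem inv_step [KA] {n k : ℕ} {B D : Grp} {Ns : List Grp} {s : St}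
    (v : MPok n B.1 D.1 (vals Ns)) (h : Inv B D Ns k s) : Inv B D Ns (k + 1) (step s) := by
  obtain ⟨a, H, R⟩ := s
  obtain ⟨e, ni, rc, ln, dr, mp⟩ := h
  dsimp only at e ni rc ln dr mp
  subst e
  unfold step
  dsimp only
  cases hc : Grp.le H D
  · have hc' : ¬ H.1 ≤ D.1 := by simpa using hc
    rw [cond_false]
    obtain ⟨f1, f2, f3⟩ := fold_spec H Ns D
    have g1 : ¬ H.1 ≤ (gr D Ns H).1 := f1 hc'
    have g2 : NI B.1 (gr D Ns H).1 :=
      ⟨fold_le _ _ v.nD.1 fun N hN => (v.nN _ ⟨N, hN, rfl⟩).1,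
        fold_nm _ _ v.nD.2 fun N hN => (v.nN _ ⟨N, hN, rfl⟩).2⟩
    refine ⟨rfl, ⟨inf_le_left.trans ni.1, M1.nm_inf ni.2 g2.2⟩, fun P hP => ?_, by simpa using ln,
      Or.inr ?_, fun M hM => ?_⟩
    · rcases List.mem_cons.1 hP with rfl | hP
      · exact ⟨g2.1, fun e => g1 (e ▸ ni.1), f2⟩
      · exact rc P hP
    · have h1 : H.1 ⊓ (gr D Ns H).1 < H.1 := inf_lt_left.2 g1
      have h2 := M2.len_lt (ni.1.trans v.le) h1
      have h3 := dr.resolve_left hc'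
      show len (H.1 ⊓ (gr D Ns H).1) + (k + 1) ≤ len B.1
      omega
    · rcases mp M hM with ⟨Q, hQ, eQ⟩ | e
      · exact Or.inl ⟨Q, List.mem_cons_of_mem _ hQ, eQ⟩
      · rcases key v hM ni g2 e f2 (by rintro _ ⟨N, hN, rfl⟩; exact f3 N hN) with e2 | e2
        · exact Or.inl ⟨_, List.mem_cons_self, e2⟩
        · exact Or.inr e2
  · rw [cond_true]
    exact ⟨rfl, ni, rc, Nat.le_succ_of_le ln, Or.inl (by simpa using hc), mp⟩

theorem inv_iter [KA] {n : ℕ} {B D : Grp} {Ns : List Grp} (v : MPok n B.1 D.1 (vals Ns)) (k : ℕ) :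
    Inv B D Ns k (step^[k] ((D, Ns), B, [])) := by
  induction k with
  | zero =>
    refine ⟨rfl, ⟨le_rfl, M1.nm_of_le le_rfl⟩, by simp, by simp, Or.inr le_rfl, fun M hM => ?_⟩
    exact Or.inr (sup_eq_left.2 (pr_le v hM.1))
  | succ k ih => rw [Function.iterate_succ_apply']; exact inv_step v ih

theorem out_spec [KA] {n : ℕ} {B D : Grp} {Ns : List Grp} {s : St} (v : MPok n B.1 D.1 (vals Ns))
    (h : Inv B D Ns (n * n + 1) s) (P : Grp) :
    P ∈ outp Ns s.2.2 ↔ P.1 ∈ MP B.1 D.1 (vals Ns) := by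
  have hD : s.2.1.1 ≤ D.1 := by
    refine h.dr.resolve_right fun hc => ?_
    have := M2.len_le v.le
    omega
  have mc : ∀ Q, Q ∈ cand Ns s.2.2 ↔ Q ∈ s.2.2 ∧ ∃ N ∈ Ns, N.1 ≤ Q.1 := fun Q => by
    simp [cand]
  have c1 : ∀ Q ∈ cand Ns s.2.2, IsPr D.1 (vals Ns) Q.1 ∧ Q.1 ≠ B.1 := fun Q hQ => by
    obtain ⟨h1, N, hN, hle⟩ := (mc Q).1 hQ
    obtain ⟨_, r2, K, hK, e⟩ := h.rc Q h1
    refine ⟨⟨insert N.1 K, Set.insert_subset ⟨N, hN, rfl⟩ hK, Set.insert_nonempty _ _, ?_⟩, r2⟩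
    rw [sSup_insert, sup_left_comm, ← e]
    exact (sup_eq_right.2 hle).symm
  have c2 : ∀ M ∈ MP B.1 D.1 (vals Ns), ∃ Q ∈ cand Ns s.2.2, Q.1 = M := fun M hM => by
    obtain ⟨_, b2, b3, _, _, ⟨N, hN, rfl⟩, hle⟩ := M5.mp_basic v hM
    obtain ⟨Q, hQ, e⟩ := (h.mp M hM).resolve_right fun e =>
      b3 ((sup_eq_right.2 (hD.trans b2)).symm.trans e)
    exact ⟨Q, (mc Q).2 ⟨hQ, N, hN, e ▸ hle⟩, e⟩
  have mo : P ∈ outp Ns s.2.2 ↔
      P ∈ cand Ns s.2.2 ∧ ∀ Q ∈ cand Ns s.2.2, P.1 ≤ Q.1 → Q = P := by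
    simp only [outp, mem_dedupB, List.mem_filter (as := cand Ns s.2.2), List.all_eq_true,
      Bool.or_eq_true, Bool.not_eq_true', Grp.le_false, eqb_iff, imp_iff_not_or (a := P.1 ≤ _)]
  rw [mo]
  constructor
  · rintro ⟨h1, h2⟩
    refine ⟨(c1 P h1).1, (c1 P h1).2, fun Q q1 q2 hle => ?_⟩
    obtain ⟨M, hM, hle2⟩ := ex_max v (n * n) Q q1 q2 (Nat.le_add_left _ _)
    obtain ⟨Q', hQ', rfl⟩ := c2 M hM
    rw [h2 Q' hQ' (hle.trans hle2)] at hle2
    exact le_antisymm hle2 hle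
  · intro hP
    obtain ⟨Q, hQ, e⟩ := c2 _ hP
    rw [Grp.ext e] at hQ
    exact ⟨hQ, fun Q' hQ' hle => Grp.ext (hP.2.2 _ (c1 Q' hQ').1 (c1 Q' hQ').2 hle)⟩

end MAX

open MAX in
theorem b_maxprod [KA] (h : Prim) : S_maxprod := by
  obtain ⟨g, hg, hs⟩ := KO.ot_iter (step := step)
    (n := fun a : ℕ × Grp × Grp × List Grp => a.1 * a.1 + 1)
    (s := fun a => ((a.2.2.1, a.2.2.2), a.2.1, ([] : List Grp)))
    (fun a => MPok a.1 a.2.1.1 a.2.2.1.1 (vals a.2.2.2))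
    (2 * X + 1 + (2 * SBp + 1 + (X * X + 1) * (2 * SBp + 1))) (ot_step h.inf) (by fun_prop)
    (by fun_prop) (by
      rintro ⟨n, B, D, Ns⟩ v i hi
      have I := inv_iter v i
      dsimp only at hi I ⊢
      generalize step^[i] ((D, Ns), B, []) = s at I
      obtain ⟨a, H, R⟩ := s
      have e := I.e
      dsimp only at e
      subst e
      generalize hm : sz (n, B, D, Ns) = m
      have h1 : n ≤ m := by rw [← hm]; simp only [sz_pair, sz_nat]; omega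
      have h2 : sz (D, Ns) ≤ m := by rw [← hm, sz_pair n, sz_pair B]; omega
      have h3 : sz H ≤ SB m := (KG.sz_Grp (I.ni.1.trans v.le)).trans (SB_mono h1)
      have h4 : sz R ≤ R.length * (2 * SB m + 1) := sz_le_of_forall fun P hP =>
        (KG.sz_Grp ((I.rc P hP).1.trans v.le)).trans (SB_mono h1)
      have h5 : R.length ≤ m * m + 1 :=
        (I.ln.trans hi).trans (Nat.succ_le_succ (Nat.mul_le_mul h1 h1))
      have h6 := Nat.mul_le_mul_right (2 * SB m + 1) h5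
      rw [sz_pair (D, Ns), sz_pair H]
      simp only [eval_add, eval_mul, eval_X, eval_one, eval_ofNat, eval_SBp]
      omega)
  have ho := pt_outp
  refine ⟨fun a => outp a.2.2.2 (g a).2.2, ?_, fun n B D Ns v => ⟨nodup_dedupB _, fun P => ?_⟩⟩
  · exact OT.comp (g := fun a : ℕ × Grp × Grp × List Grp => (a.2.2.2, (g a).2.2)) (OT.of_pt ho)
      (by fun_prop)
  · dsimp only
    rw [hs (n, B, D, Ns) v]
    exact out_spec v (inv_iter v _) P

end

end Pool.Agent.Lib.E6
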