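import Pool.Agent.Lib.E6.Spec

/-! E6 block PAB: transporting elementary abelian sections inside a soluble section. -/

namespace Pool.Agent.Lib.E6

open Equiv Pool.Agent.Lib.helper80 Pool.Agent.Lib.MP_e519cf_lc Polynomial

noncomputable section
open Classical

namespace PAB

set_option linter.unusedSectionVars false

variable [KA]

/-- The weight. -/
def pC (a : CI) : ℕ := (a.Y.len - a.D.len) ^ 2

theorem rep_TR {L X Z : Grp} (h : (TR L X Z).isE = false) :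
    (TR L X Z).rep ∈ L.1 ∧ cj (TR L X Z).rep X.1 = Z.1 := by
  obtain ⟨x, hx⟩ := Cos.isE_false.1 h
  exact mem_TR.1 (KG.rep_mem hx)

theorem lmul_emp (g : FP) : Cos.lmul g Cos.emp = Cos.emp :=
  Cos.ext fun x => by rw [M6.mem_lmul]; simp

theorem sol_mono {E D E' D' : SG} (h : Sol E D) (h1 : E' ≤ E) (h2 : D ≤ D') : Sol E' D' :=
  fun R k1 k2 => (h R (k1.trans h1) k2).trans h2

/-- The first stage. -/
theorem stage1 {n p : ℕ} {L D E X Z Y : SG} (v : VPab n p L D E X Z) (nY : NI L Y) (h1 : D ≤ Y)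
    (h2 : Y ≤ E) : VPab n p L Y E (X ⊔ Y) (Z ⊔ Y) :=
  ⟨v.le, v.pp, nY, v.nE, sup_le v.XE h2, sup_le v.ZE h2,
    M1.ea_sup v.eX (M1.nm_mono (v.XE.trans v.nE.1) nY.2) h1,
    M1.ea_sup v.eZ (M1.nm_mono (v.ZE.trans v.nE.1) nY.2) h1, sol_mono v.sol le_rfl h1⟩

/-- The second stage. -/
theorem stage2 {n p : ℕ} {L D E X Z Y L1 : SG} {l : FP} (v : VPab n p L D E X Z) (nY : NI L Y)
    (h1 : D ≤ Y) (h2 : Y ≤ E) (hl : l ∈ L) (g1 : ∀ h, h ∈ L1 ↔ h ∈ L ∧ cj h (X ⊔ Y) = X ⊔ Y) :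
    X ⊔ Y ≤ L1 ∧ EA p (cj l⁻¹ Z) D ∧ VPab n p L1 D Y (X ⊓ Y) (cj l⁻¹ Z ⊓ Y) := by
  have k1 : L1 ≤ L := fun h hh => ((g1 h).1 hh).1
  have k2 : X ⊔ Y ≤ L1 := fun h hh =>
    (g1 h).2 ⟨sup_le (v.XE.trans v.nE.1) nY.1 hh, M1.cj_of_mem hh⟩
  have k3 : EA p (cj l⁻¹ Z) D := by
    have := M1.ea_cj l⁻¹ v.eZ
    rwa [M1.cj_of_nm v.nD.2 (inv_mem hl)] at this
  have k4 : Y ≤ L1 := le_sup_right.trans k2
  exact ⟨k2, k3, k1.trans v.le, v.pp, ⟨h1.trans k4, M1.nm_mono k1 v.nD.2⟩,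
    ⟨k4, M1.nm_mono k1 nY.2⟩, inf_le_right, inf_le_right,
    M1.ea_mono v.eX inf_le_left le_rfl (le_inf v.eX.1 h1),
    M1.ea_mono k3 inf_le_left le_rfl (le_inf k3.1 h1), sol_mono v.sol h2 le_rfl⟩

/-- The final stage. -/
theorem stage3 {n p : ℕ} {L1 D Y X X1 L2 : SG} {l : FP} (le : L1 ≤ Sy n) (pp : p.Prime)
    (nD : Nm L1 D) (nY : Nm L1 Y) (nE : NI L1 (X ⊔ Y)) (DY : D ≤ Y) (eX : EA p X D)
    (eZ : EA p X1 D) (e1 : X1 ⊔ Y = X ⊔ Y) (sol : Sol Y D) (hl : l ∈ L1)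
    (e2 : cj l (X ⊓ Y) = X1 ⊓ Y) (g2 : ∀ h, h ∈ L2 ↔ h ∈ L1 ∧ cj h (X ⊓ Y) = X ⊓ Y) :
    VComp n p L2 (X ⊓ Y) (Y ⊓ L2) X (cj l⁻¹ X1) := by
  have k1 : L2 ≤ L1 := fun h hh => ((g2 h).1 hh).1
  have cY : ∀ h ∈ L1, cj h Y = Y := fun h hh => M1.cj_of_nm nY hh
  have a1 : cj l⁻¹ X1 ⊔ Y = X ⊔ Y := by
    rw [← cY _ (inv_mem hl), ← M1.cj_sup, e1, M1.cj_of_nm nE.2 (inv_mem hl), cY _ (inv_mem hl)]
  have a2 : cj l⁻¹ X1 ⊓ Y = X ⊓ Y := by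
    conv_lhs => rw [← cY _ (inv_mem hl), ← M1.cj_inf, ← e2, M1.cj_inv_cj]
  have a3 : EA p (cj l⁻¹ X1) D := by
    have := M1.ea_cj l⁻¹ eZ
    rwa [M1.cj_of_nm nD (inv_mem hl)] at this
  have b0 : ∀ A : SG, A ⊔ Y = X ⊔ Y → A ⊓ Y = X ⊓ Y → A ≤ L2 := fun A h1 h2 h hh => by
    have m : h ∈ L1 := nE.1 (h1 ▸ (le_sup_left : A ≤ A ⊔ Y) hh)
    refine (g2 h).2 ⟨m, ?_⟩
    rw [← h2, M1.cj_inf, M1.cj_of_mem hh, cY h m]
  have b1 : X ≤ L2 := b0 X rfl rfl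
  have b2 : cj l⁻¹ X1 ≤ L2 := b0 _ a1 a2
  have d1 : X ⊔ Y ⊓ L2 = (X ⊔ Y) ⊓ L2 := (M1.dedekind (M1.nm_mono (b1.trans k1) nY) b1).symm
  have d2 : cj l⁻¹ X1 ⊔ Y ⊓ L2 = (X ⊔ Y) ⊓ L2 := by
    rw [← a1]
    exact (M1.dedekind (M1.nm_mono (b2.trans k1) nY) b2).symm
  have DX : D ≤ X ⊓ Y := le_inf eX.1 DY
  refine ⟨k1.trans le, pp, ⟨inf_le_left.trans b1, M1.nm_of_cj fun h hh => ((g2 h).1 hh).2⟩,
    ⟨inf_le_right, M1.nm_inf (M1.nm_mono k1 nY) (M1.nm_of_le le_rfl)⟩,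
    le_inf inf_le_right (inf_le_left.trans b1), ?_, d2.trans d1.symm, ?_, ?_,
    M1.ea_mono eX le_rfl DX inf_le_left, M1.ea_mono a3 le_rfl DX (a2 ▸ inf_le_left),
    sol_mono sol inf_le_left DX⟩
  · rw [d1]
    exact ⟨inf_le_right, M1.nm_inf (M1.nm_mono k1 nE.2) (M1.nm_of_le le_rfl)⟩
  · rw [← inf_assoc]
    exact inf_eq_left.2 (inf_le_left.trans b1)
  · rw [← inf_assoc, a2]
    exact inf_eq_left.2 (inf_le_left.trans b1)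

omit [KA] in
theorem num {d y e : ℕ} (h1 : d < y) (h2 : y < e) :
    (e - y) ^ 2 + 1 + ((y - d) ^ 2 + 1) ≤ (e - d) ^ 2 := by
  obtain ⟨a, rfl⟩ := Nat.exists_eq_add_of_lt h1
  obtain ⟨b, rfl⟩ := Nat.exists_eq_add_of_lt h2
  rw [show d + a + 1 + b + 1 - (d + a + 1) = b + 1 by omega, show d + a + 1 - d = a + 1 by omega,
    show d + a + 1 + b + 1 - d = a + 1 + (b + 1) by omega]
  nlinarith [Nat.zero_le a, Nat.zero_le b, Nat.zero_le (a * b)]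

/-- The splitting node. -/
theorem split (h : Prim) (hc : S_comp) (y : CI → Grp) (U : CI → Prop) (hy : OT y)
    (hU : ∀ a, pV a → U a → NI a.L.1 (y a).1 ∧ a.D.1 < (y a).1 ∧ (y a).1 < a.Y.1) :
    Node pV cF cN pC U := by
  obtain ⟨cp, hcp, hs⟩ := hc
  have hi := h.inf
  unfold S_inf at hi
  refine KR.node_two
    (s := fun a => (a.1, a.2.1, a.L, y a, a.Y, a.X.sup (y a), a.Z.sup (y a)))
    (t := fun q => (q.1.1, q.1.2.1, q.2.grp, q.1.D, y q.1, q.1.X.inf (y q.1),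
      (Grp.cj q.2.rep⁻¹ q.1.Z).inf (y q.1)))
    (out := fun q => bif q.2.2.isE then Cos.emp else Cos.lmul q.2.1.rep (Cos.lmul q.2.2.rep
      (cp (q.1.1, q.1.2.1, q.2.2.grp, q.1.X.inf (y q.1), (y q.1).inf q.2.2.grp, q.1.X,
        Grp.cj q.2.2.rep⁻¹ (Grp.cj q.2.1.rep⁻¹ q.1.Z)))))
    (by fun_prop) (by fun_prop) (by fun_prop) fun a v u => ?_
  obtain ⟨nY, h1, h2⟩ := hU a v u
  obtain ⟨n, p, L, D, E, X, Z⟩ := a
  generalize y (n, p, L, D, E, X, Z) = Y at nY h1 h2 ⊢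
  replace v : VPab n p L.1 D.1 E.1 X.1 Z.1 := v
  replace nY : NI L.1 Y.1 := nY
  replace h1 : D.1 < Y.1 := h1
  replace h2 : Y.1 < E.1 := h2
  have En : E.1 ≤ Sy n := v.nE.1.trans v.le
  have cost := num (M2.len_lt (h2.le.trans En) h1) (M2.len_lt En h2)
  have sub1 : ∀ x ∈ TR L X Z, x ∈ TR L (X.sup Y) (Z.sup Y) := fun x hx =>
    mem_TR.2 ⟨hx.1, by
      rw [Grp.sup_val, Grp.sup_val, M1.cj_sup, (mem_TR.1 hx).2, M1.cj_of_nm nY.2 hx.1]⟩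
  refine ⟨stage1 v nY h1.le h2.le, le_rfl, fun e => ⟨le_trans (Nat.le_add_right _ _) cost,
    M6.ref_emp sub1 e⟩, fun e => ?_⟩
  change (TR L (X.sup Y) (Z.sup Y)).isE = false at e
  have r1 := rep_TR e
  have g1 : ∀ h, h ∈ (TR L (X.sup Y) (Z.sup Y)).grp.1 ↔ h ∈ L.1 ∧ cj h (X.1 ⊔ Y.1) = X.1 ⊔ Y.1 :=
    fun h => M6.grp_TR e
  have f1 := M6.ref sub1 (fun x hx => hx.1) e
  obtain ⟨k2, k3, v2⟩ := stage2 v nY h1.le h2.le r1.1 g1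
  refine ⟨v2, le_rfl, cost, ?_⟩
  change (bif (TR (TR L (X.sup Y) (Z.sup Y)).grp (X.inf Y)
      ((Grp.cj (TR L (X.sup Y) (Z.sup Y)).rep⁻¹ Z).inf Y)).isE then Cos.emp else
    Cos.lmul (TR L (X.sup Y) (Z.sup Y)).rep (Cos.lmul (TR (TR L (X.sup Y) (Z.sup Y)).grp (X.inf Y)
      ((Grp.cj (TR L (X.sup Y) (Z.sup Y)).rep⁻¹ Z).inf Y)).rep
      (cp (n, p, (TR (TR L (X.sup Y) (Z.sup Y)).grp (X.inf Y)
        ((Grp.cj (TR L (X.sup Y) (Z.sup Y)).rep⁻¹ Z).inf Y)).grp, X.inf Y,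
        Y.inf (TR (TR L (X.sup Y) (Z.sup Y)).grp (X.inf Y)
          ((Grp.cj (TR L (X.sup Y) (Z.sup Y)).rep⁻¹ Z).inf Y)).grp, X,
        Grp.cj (TR (TR L (X.sup Y) (Z.sup Y)).grp (X.inf Y)
          ((Grp.cj (TR L (X.sup Y) (Z.sup Y)).rep⁻¹ Z).inf Y)).rep⁻¹
          (Grp.cj (TR L (X.sup Y) (Z.sup Y)).rep⁻¹ Z))))) = TR L X Z
  rw [f1]
  have e1 : (Grp.cj (TR L (X.sup Y) (Z.sup Y)).rep⁻¹ Z).1 ⊔ Y.1 = X.1 ⊔ Y.1 := by
    have k := r1.2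
    rw [Grp.sup_val, Grp.sup_val] at k
    rw [Grp.cj_val, ← M1.cj_of_nm nY.2 (inv_mem r1.1), ← M1.cj_sup, ← k, M1.cj_inv_cj,
      M1.cj_of_nm nY.2 (inv_mem r1.1)]
  replace k3 : EA p (Grp.cj (TR L (X.sup Y) (Z.sup Y)).rep⁻¹ Z).1 D.1 := k3
  replace v2 : VPab n p (TR L (X.sup Y) (Z.sup Y)).grp.1 D.1 Y.1 (X.1 ⊓ Y.1)
    ((Grp.cj (TR L (X.sup Y) (Z.sup Y)).rep⁻¹ Z).1 ⊓ Y.1) := v2
  generalize Grp.cj (TR L (X.sup Y) (Z.sup Y)).rep⁻¹ Z = X1 at e1 k3 v2 ⊢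
  generalize (TR L (X.sup Y) (Z.sup Y)).grp = L1 at g1 k2 v2 ⊢
  generalize (TR L (X.sup Y) (Z.sup Y)).rep = l1
  have sub2 : ∀ x ∈ TR L1 X X1, x ∈ TR L1 (X.inf Y) (X1.inf Y) := fun x hx =>
    mem_TR.2 ⟨hx.1, by
      rw [Grp.inf_val, Grp.inf_val, M1.cj_inf, (mem_TR.1 hx).2, M1.cj_of_nm v2.nE.2 hx.1]⟩
  cases e2 : (TR L1 (X.inf Y) (X1.inf Y)).isE with
  | true => rw [cond_true, M6.ref_emp sub2 e2, lmul_emp]
  | false =>
    have r2 := rep_TR e2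
    rw [cond_false, M6.ref sub2 (fun x hx => hx.1) e2, hs]
    · rfl
    · exact stage3 v2.le v.pp v2.nD.2 v2.nE.2 ⟨k2, M1.nm_of_cj fun h hh => ((g1 h).1 hh).2⟩ h1.le
        v.eX k3 e1 v2.sol r2.1 r2.2 fun h => M6.grp_TR e2

theorem top_ne {n p : ℕ} {L D E X Z : SG} (v : VPab n p L D E X Z) (h : ¬ X ≤ D) : top E D ≠ E :=
  fun k => by
    have En : E ≤ Sy n := v.nE.1.trans v.le
    have DE : D ≤ E := v.eX.1.trans v.XE
    exact h (v.XE.trans (M2.sol_le En ⟨DE, M1.nm_mono v.nE.1 v.nD.2⟩ v.sol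
      ((M4.top_eq_iff En DE).1 k)))

theorem vemb {n p : ℕ} {L D E X Z : SG} (v : VPab n p L D E X Z) (h : ¬ X ≤ D)
    (h2 : top E D ≤ D) : VEmb n p L E D := by
  have En : E ≤ Sy n := v.nE.1.trans v.le
  have DE : D ≤ E := v.eX.1.trans v.XE
  have q := (M4.pq_prime En DE (top_ne v h)).1
  have e : EA (pq E D) E D := by
    have k := M4.yq_ea (pq E D) DE
    have k2 : yq (pq E D) E D = D := le_antisymm h2 (M4.le_yq _ _ _)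
    rwa [k2] at k
  have pq' : p = pq E D := by
    by_contra k
    exact h fun x hx => M1.mem_of_coprime ((Nat.coprime_primes v.pp q).2 k) (v.eX.2.2 x hx)
      (e.2.2 x (v.XE hx))
  exact ⟨v.le, v.pp, v.nE, v.nD, pq' ▸ e, fun k => h (v.XE.trans k)⟩

end PAB

open PAB in
theorem b_pabel [KA] (h : Prim) (he : S_embed) (hs : S_sub) (hc : S_comp) : S_pabel := by
  obtain ⟨em, hem, he⟩ := he
  obtain ⟨sb, hsb, hs⟩ := hs
  refine KR.rec2 (N := cN) (c := pC) (2 * X + 6 + 9 * SBp) ?_ fun a v => ?_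
  · refine KR.node_cond (b := fun a => a.X.le a.D) (by fun_prop) ?_ ?_
    · refine KR.node_leaf (g := fun a => bif a.Z.le a.D then Cos.lc 1 a.L else Cos.emp)
        (by fun_prop) fun a v u => ?_
      have e : a.X.1 = a.D.1 := le_antisymm (Grp.le_iff.1 u.2) v.eX.1
      cases k : a.Z.le a.D with
      | true =>
        rw [cond_true]
        exact (M6.TR_all (e ▸ v.nD.2) (Grp.ext (e ▸ le_antisymm (Grp.le_iff.1 k) v.eZ.1))).symm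
      | false =>
        rw [cond_false]
        refine Cos.ext fun x => ⟨fun m => (Cos.not_mem_emp x m).elim, fun m => ?_⟩
        have k2 := (mem_TR.1 m).2
        rw [e, M1.cj_of_nm v.nD.2 m.1] at k2
        exact (Grp.le_false.1 k k2.ge).elim
    refine KR.node_cond (b := fun a => (a.Y.top a.D).le a.D) (by fun_prop) ?_ ?_
    · refine KR.node_cond (b := fun a => (em (a.1, a.2.1, a.L, a.Y, a.D)).1) (by fun_prop) ?_ ?_
      · exact split h hc (fun a => (em (a.1, a.2.1, a.L, a.Y, a.D)).2.1) _ (by fun_prop)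
          fun a v u => (he _ _ _ _ _ (vemb v (Grp.le_false.1 u.1.1.2) (Grp.le_iff.1 u.1.2)) _
            rfl).1 u.2
      · refine KR.node_leaf (g := fun a => sb (a.1, a.D, a.X, a.Z,
          (em (a.1, a.2.1, a.L, a.Y, a.D)).2.1, (em (a.1, a.2.1, a.L, a.Y, a.D)).2.2))
          (by fun_prop) fun a v u => ?_
        obtain ⟨k1, k2⟩ := (he _ _ _ _ _ (vemb v (Grp.le_false.1 u.1.1.2) (Grp.le_iff.1 u.1.2)) _
          rfl).2 u.2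
        exact hs _ _ _ _ _ _ _ _ _ v.le v.pp v.nD v.nE v.eX.1 v.eZ.1 v.XE v.ZE k1 k2
    · refine split h hc (fun a => a.Y.top a.D) _ (by fun_prop) fun a v u => ?_
      have DE : a.D.1 ≤ a.Y.1 := v.eX.1.trans v.XE
      have k1 : top a.Y.1 a.D.1 ≤ a.Y.1 := M4.yq_le _ DE
      exact ⟨⟨k1.trans v.nE.1, M4.nm_top v.nE.2 v.nD.2⟩,
        lt_of_le_not_ge (M4.le_yq _ _ _) (Grp.le_false.1 u.2),
        lt_of_le_of_ne k1 (top_ne v (Grp.le_false.1 u.1.2))⟩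
  · obtain ⟨n, p, L, D, E, X', Z⟩ := a
    replace v : VPab n p L.1 D.1 E.1 X'.1 Z.1 := v
    have En : E.1 ≤ Sy n := v.nE.1.trans v.le
    have s1 := KG.sz_Grp v.le
    have s2 := KG.sz_Grp (v.nD.1.trans v.le)
    have s3 := KG.sz_Grp En
    have s4 := KG.sz_Grp (v.XE.trans En)
    have s5 := KG.sz_Grp (v.ZE.trans En)
    have s6 : sz (TR L X' Z) ≤ SB n := KG.sz_Cos fun x hx => v.le hx.1
    have s7 : SB n ≤ SB (n + p) := SB_mono (Nat.le_add_right _ _)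
    have s8 : (E.len - D.len) ^ 2 ≤ SB n := by
      have k : E.len - D.len ≤ n * n := (Nat.sub_le _ _).trans (M2.len_le En)
      refine (Nat.pow_le_pow_left k 2).trans ?_
      have : (n * n) ^ 2 ≤ (n + 1) ^ 4 := by
        rw [show (n * n) ^ 2 = n ^ 4 by ring]
        exact Nat.pow_le_pow_left (Nat.le_succ n) 4
      unfold SB
      omega
    change n + p ≤ _ ∧ _ ≤ eval (n + p) _ ∧ sz (TR L X' Z) ≤ eval (n + p) _ ∧
      (E.len - D.len) ^ 2 ≤ eval (n + p) _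
    simp only [sz_pair, sz_nat, eval_add, eval_mul, eval_X, eval_SBp, eval_ofNat]
    omega

end

end Pool.Agent.Lib.E6
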