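import Pool.Agent.Lib.E6.Spec

/-! E6, block STT: transporters of sets from the stabiliser oracle. -/

namespace Pool.Agent.Lib.E6

open Equiv Pool.Agent.Lib.helper80 Pool.Agent.Lib.MP_e519cf_lc Polynomial

noncomputable section
open Classical

set_option linter.unusedSectionVars false

namespace STT

/-- The wreath product with the exchange of the halves. -/
def wr (n : ℕ) (L : Grp) : Grp := (L.sup (Grp.cj (sw n) L)).sup (Grp.ofL [sw n])

/-- The set `S` on the left and `T` on the right. -/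
def un (n : ℕ) (S T : Finset ℕ) : Finset ℕ :=
  fil (2 * n) fun x => bif Nat.blt x n then smem x S else smem (x - n) T

/-- Generators that leave the left half. -/
def mv (n : ℕ) (N : Grp) : List FP := N.gens.filter fun c => Nat.ble n (c • 0)

def out (n : ℕ) (N H : Grp) : Cos :=
  bif (mv n N).isEmpty then Cos.emp else Cos.lc (lft n (sw n * (mv n N).headD 1)) H

def dg (p : Grp × Finset ℕ × Finset ℕ) : ℕ := p.1.bd + sz p.2.1 + sz p.2.2 + 1

variable [KA]

theorem sw_lt {n x : ℕ} (h : x < n) : sw n • x = x + n := by rw [M3.sw_smul, if_pos h]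

theorem sw_mid {n x : ℕ} (h : n ≤ x) (h2 : x < 2 * n) : sw n • x = x - n := by
  rw [M3.sw_smul, if_neg (by omega), if_pos h2]

theorem sw_ge {n x : ℕ} (h : 2 * n ≤ x) : sw n • x = x := by
  rw [M3.sw_smul, if_neg (by omega), if_neg (by omega)]

theorem sw_sw (n : ℕ) : sw n * sw n = 1 := by
  nth_rewrite 1 [← M3.sw_inv n]
  exact inv_mul_cancel _

theorem mem_un_lt {n x : ℕ} {S T : Finset ℕ} (h : x < n) : x ∈ un n S T ↔ x ∈ S := by
  have : Nat.blt x n = true := by simpa [Nat.blt_eq] using h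
  simp only [un, mem_fil, this, cond_true, smem_iff, and_iff_right_iff_imp]
  omega

theorem mem_un_add {n x : ℕ} {S T : Finset ℕ} (h : x < n) : x + n ∈ un n S T ↔ x ∈ T := by
  have : Nat.blt (x + n) n = false := by
    rw [← Bool.not_eq_true, Nat.blt_eq]; omega
  simp only [un, mem_fil, this, cond_false, smem_iff, Nat.add_sub_cancel, and_iff_right_iff_imp]
  omega

theorem mem_wr {n : ℕ} {L : Grp} {w : FP} (hw : w ∈ (wr n L).1) :
    w ∈ L.1 ⊔ cj (sw n) L.1 ∨ sw n * w ∈ L.1 ⊔ cj (sw n) L.1 := by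
  have hn : cj (sw n) (L.1 ⊔ cj (sw n) L.1) = L.1 ⊔ cj (sw n) L.1 := by
    rw [M1.cj_sup, ← M1.cj_mul, sw_sw, M1.cj_one, sup_comm]
  have hN : Nm (Subgroup.closure {x | x ∈ [sw n]}) (L.1 ⊔ cj (sw n) L.1) :=
    M1.nm_closure fun l hl => by
      have : l = sw n := by simpa using hl
      rw [this, hn]
  simp only [wr, Grp.sup_val, Grp.cj_val, Grp.ofL_val] at hw
  rw [sup_comm, M1.mem_sup_nm hN] at hw
  obtain ⟨a, ha, b, hb, rfl⟩ := hw
  have h1 : a = 1 ∨ a = sw n := by
    induction ha using Subgroup.closure_induction with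
    | mem x hx => exact Or.inr (by simpa using hx)
    | one => exact Or.inl rfl
    | mul x y _ _ hx hy =>
      rcases hx with rfl | rfl <;> rcases hy with rfl | rfl <;> simp [sw_sw]
    | inv x _ hx =>
      rcases hx with rfl | rfl
      · exact Or.inl inv_one
      · exact Or.inr (M3.sw_inv n)
  rcases h1 with rfl | rfl
  · exact Or.inl (by simpa using hb)
  · right
    rw [← mul_assoc, sw_sw, one_mul]
    exact hb

theorem prod_spec {n : ℕ} {L : Grp} (hL : L.1 ≤ Sy n) {b : FP}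
    (hb : b ∈ L.1 ⊔ cj (sw n) L.1) : b ∈ sst (Finset.range n : Finset ℕ) ∧ lft n b ∈ L.1 := by
  have h2 : cj (sw n) L.1 ≤ (symB n).1 := M1.cj_le_cj.2 hL
  have := (M3.mem_prod hL h2).1 hb
  exact ⟨this.2.1, this.2.2.1⟩

theorem good {n : ℕ} {L : Grp} {S T : Finset ℕ} (hn : 0 < n) (hL : L.1 ≤ Sy n)
    (hS : ∀ x ∈ S, x < n) (hT : ∀ x ∈ T, x < n) {c : FP}
    (hc : c ∈ ((wr n L).stab (un n S T)).1) (h0 : n ≤ c • 0) :
    lft n (sw n * c) ∈ stt L S T := by
  rw [Grp.stab_val, Subgroup.mem_inf] at hc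
  rcases mem_wr hc.1 with h | h
  · have := ((prod_spec hL h).1 0).2 (by simpa using hn)
    simp at this
    omega
  · obtain ⟨h1, h2⟩ := prod_spec hL h
    refine mem_stt.2 ⟨h2, fun x => ?_⟩
    by_cases hx : x < n
    · have e1 : lft n (sw n * c) • x = (sw n * c) • x := by
        rw [lft, M3.res_smul h1, if_pos (Finset.mem_range.2 hx)]
      have e2 : (sw n * c) • x < n := by
        have := (h1 x).2 (by simpa using hx)
        simpa using this
      have e3 : c • x = (sw n * c) • x + n := by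
        rw [← sw_lt e2, ← mul_smul, ← mul_assoc, sw_sw, one_mul]
      have e4 := hc.2 x
      rw [Finset.mem_coe, Finset.mem_coe, e3, mem_un_add e2, mem_un_lt hx] at e4
      rw [e1, e4]
    · rw [hL h2 x (not_lt.1 hx)]
      exact ⟨fun h => absurd (hS x h) hx, fun h => absurd (hT x h) hx⟩

theorem swap_mem {n : ℕ} {L : Grp} {S T : Finset ℕ} (hL : L.1 ≤ Sy n) {l : FP}
    (hl : l ∈ stt L S T) :
    sw n * (l * (sw n * l⁻¹ * sw n)) ∈ ((wr n L).stab (un n S T)).1 ∧
      ∀ x < n, (sw n * (l * (sw n * l⁻¹ * sw n))) • x = l • x + n := by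
  obtain ⟨h1, h2⟩ := mem_stt.1 hl
  have hs : l ∈ Sy n := hL h1
  have hs' : l⁻¹ ∈ Sy n := inv_mem hs
  have e1 : ∀ x < n, (sw n * (l * (sw n * l⁻¹ * sw n))) • x = l • x + n := by
    intro x hx
    simp only [mul_smul]
    rw [sw_lt hx, hs' (x + n) (Nat.le_add_left _ _), sw_mid (x := x + n) (by omega) (by omega),
      Nat.add_sub_cancel, sw_lt ((smul_lt hs).2 hx)]
  have e2 : ∀ x < n, (sw n * (l * (sw n * l⁻¹ * sw n))) • (x + n) = l⁻¹ • x := by
    intro x hx
    have h3 : l⁻¹ • x < n := (smul_lt hs').2 hx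
    simp only [mul_smul]
    rw [sw_mid (x := x + n) (by omega) (by omega), Nat.add_sub_cancel, sw_lt h3,
      hs (l⁻¹ • x + n) (Nat.le_add_left _ _), sw_mid (x := l⁻¹ • x + n) (by omega) (by omega),
      Nat.add_sub_cancel]
  refine ⟨?_, e1⟩
  rw [Grp.stab_val, Subgroup.mem_inf]
  constructor
  · simp only [wr, Grp.sup_val, Grp.cj_val, Grp.ofL_val]
    refine mul_mem (Subgroup.mem_sup_right (Subgroup.subset_closure (by simp)))
      (Subgroup.mem_sup_left (mul_mem (Subgroup.mem_sup_left h1) (Subgroup.mem_sup_right ?_)))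
    rw [mem_cj, M3.sw_inv, ← mul_assoc, ← mul_assoc, sw_sw, one_mul, mul_assoc, sw_sw, mul_one]
    exact inv_mem h1
  · intro x
    rw [Finset.mem_coe, Finset.mem_coe]
    by_cases hx : x < n
    · rw [e1 x hx, mem_un_add ((smul_lt hs).2 hx), mem_un_lt hx, h2]
    · by_cases hx2 : x < 2 * n
      · obtain ⟨y, rfl⟩ : ∃ y, x = y + n := ⟨x - n, by omega⟩
        have hy : y < n := by omega
        rw [e2 y hy, mem_un_add hy, mem_un_lt ((smul_lt hs').2 hy), h2, smul_inv_smul]
      · simp only [mul_smul]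
        have h3 : sw n • x = x := sw_ge (by omega)
        rw [h3, hs' x (not_lt.1 hx), h3, hs x (not_lt.1 hx), h3]

theorem stt_eq {L : Grp} {S T : Finset ℕ} {a : FP} (ha : a ∈ stt L S T) :
    Cos.lc a (L.stab S) = stt L S T := by
  obtain ⟨h1, h2⟩ := mem_stt.1 ha
  refine Cos.ext fun x => ?_
  rw [Cos.mem_lc, Grp.stab_val, Subgroup.mem_inf, mem_stt, mem_sst]
  constructor
  · rintro ⟨h3, h4⟩
    refine ⟨by simpa using mul_mem h1 h3, fun y => ?_⟩
    have := h4 y
    rw [Finset.mem_coe, Finset.mem_coe, h2, mul_smul, smul_inv_smul] at this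
    exact this.symm
  · rintro ⟨h3, h4⟩
    refine ⟨mul_mem (inv_mem h1) h3, fun y => ?_⟩
    rw [Finset.mem_coe, Finset.mem_coe, h2, mul_smul, smul_inv_smul, h4]

theorem out_eq {n : ℕ} {L : Grp} {S T : Finset ℕ} (hn : 0 < n) (hL : L.1 ≤ Sy n)
    (hS : ∀ x ∈ S, x < n) (hT : ∀ x ∈ T, x < n) :
    out n ((wr n L).stab (un n S T)) (L.stab S) = stt L S T := by
  unfold out
  cases h : mv n ((wr n L).stab (un n S T)) with
  | nil =>
    refine Cos.ext fun l => ⟨fun hl => absurd hl (Cos.not_mem_emp l), fun hl => ?_⟩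
    exfalso
    obtain ⟨h1, h2⟩ := swap_mem hL hl
    have h3 : ((wr n L).stab (un n S T)).1 ≤ sst (Finset.range n : Finset ℕ) := by
      rw [← KG.closure_gens, Subgroup.closure_le]
      intro c hc
      have hc1 : c ∈ ((wr n L).stab (un n S T)).1 := KG.mem_of_gens hc
      have hc2 : ¬ n ≤ c • 0 := fun h0 => by
        have : c ∈ mv n ((wr n L).stab (un n S T)) :=
          List.mem_filter.2 ⟨hc, by simpa [Nat.ble_eq] using h0⟩
        rw [h] at this
        simp at this
      rcases mem_wr (Subgroup.mem_inf.1 hc1).1 with h4 | h4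
      · exact (prod_spec hL h4).1
      · exfalso
        have e2 : (sw n * c) • 0 < n := by
          have := ((prod_spec hL h4).1 0).2 (by simpa using hn)
          simpa using this
        have e3 : c • 0 = (sw n * c) • 0 + n := by
          rw [← sw_lt e2, ← mul_smul, ← mul_assoc, sw_sw, one_mul]
        omega
    have h5 := (h3 h1 0).2 (by simpa using hn)
    rw [h2 0 hn] at h5
    simp at h5
  | cons c t =>
    have hc : c ∈ mv n ((wr n L).stab (un n S T)) := by rw [h]; simp
    obtain ⟨h1, h2⟩ := List.mem_filter.1 hc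
    exact stt_eq (good hn hL hS hT (KG.mem_of_gens h1) (by simpa [Nat.ble_eq] using h2))

theorem pt_dg : PT dg := by unfold dg; fun_prop

theorem pt_wr : PT fun p : ℕ × Grp => wr p.1 p.2 := by unfold wr; fun_prop

theorem pt_un : PT fun p : ℕ × Finset ℕ × Finset ℕ => un p.1 p.2.1 p.2.2 := by
  unfold un; fun_prop

theorem pt_mv : PT fun p : ℕ × Grp => mv p.1 p.2 := by unfold mv; fun_prop

theorem pt_out : PT fun p : ℕ × Grp × Grp => out p.1 p.2.1 p.2.2 := by
  have := pt_mv
  unfold out; fun_prop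

end STT

theorem b_stt [KA] : S_stt := by
  have h1 := STT.pt_dg
  have h2 := STT.pt_wr
  have h3 := STT.pt_un
  have h4 := STT.pt_out
  have h : OT fun p : Grp × Finset ℕ × Finset ℕ => STT.out (STT.dg p)
      ((STT.wr (STT.dg p) p.1).stab (STT.un (STT.dg p) p.2.1 p.2.2)) (p.1.stab p.2.1) := by
    fun_prop
  refine h.congr fun p => STT.out_eq (Nat.succ_pos _) ?_ (fun x hx => ?_) fun x hx => ?_
  · exact Grp.bd_le.1 (by unfold STT.dg; omega)
  · have := K1.lt_sz_FS hx
    unfold STT.dg; omega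
  · have := K1.lt_sz_FS hx
    unfold STT.dg; omega

end

end Pool.Agent.Lib.E6
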