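import Pool.Agent.Lib.E6.Spec

/-! E6 block T1: a faithful orbit. -/

namespace Pool.Agent.Lib.E6

open Equiv Pool.Agent.Lib.helper80 Pool.Agent.Lib.MP_e519cf_lc Polynomial

noncomputable section
open Classical

namespace T1

set_option linter.unusedSectionVars false

variable [KA]

def zz (a : TI) : ℕ := ((els a.W).filter fun z => Grp.le (a.G.fix (a.G.orb z)) a.D).headD 0

def OO (a : TI) : Finset ℕ := a.G.orb (zz a)

def st (a : TI) (r : ℕ) : Cos := stt a.L (OO a) (a.Z.orb r)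

def rs (a : TI) : List ℕ := (els a.W).filter fun r =>
  eqb (a.Z.rep r) r && (eqb (a.Z.orb r).card (OO a).card && !(st a r).isE)

def Gr (a : TI) (r : ℕ) : Grp := Grp.cj (st a r).rep⁻¹ a.Z

def cl (a : TI) (r : ℕ) : TI := (a.1, (a.L.stab (OO a)).fix {zz a}, a.D.fix {zz a}, a.G.fix {zz a},
  (Gr a r).fix {zz a}, (OO a).erase (zz a))

def trs (n : ℕ) (G : Grp) (z : ℕ) : List FP := (List.range n).map fun b => tr G z b

def piece (cf : ℕ × Grp × Grp × List FP × List FP → Cos) (a : TI) (r : ℕ) (C : Cos) : Cos :=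
  bif C.isE then Cos.emp else
    Cos.lmul (st a r).rep ((Cos.lmul C.rep (cf (a.1, C.grp, a.G.fix {zz a}, trs a.1 a.G (zz a),
      trs a.1 (Grp.cj C.rep⁻¹ (Gr a r)) (zz a)))).rmul a.G)

def out (cf : ℕ × Grp × Grp × List FP × List FP → Cos) (p : TI × List Cos) : Cos :=
  Cos.union ((List.range (rs p.1).length).map fun i =>
    piece cf p.1 ((rs p.1).getD i 0) (p.2.getD i Cos.emp))

@[fun_prop] theorem pt_zz : PT zz := by unfold zz; fun_prop
@[fun_prop] theorem pt_OO : PT OO := by unfold OO; fun_prop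
@[fun_prop] theorem pt_trs : PT fun p : ℕ × Grp × ℕ => trs p.1 p.2.1 p.2.2 := by unfold trs; fun_prop

theorem ot_st (h : S_stt) : OT fun p : TI × ℕ => st p.1 p.2 := by
  unfold S_stt at h; unfold st; fun_prop
theorem ot_rs (h : S_stt) : OT rs := by have := ot_st h; unfold rs; fun_prop
theorem ot_Gr (h : S_stt) : OT fun p : TI × ℕ => Gr p.1 p.2 := by
  have := ot_st h; unfold Gr; fun_prop
theorem ot_cl (h : S_stt) : OT fun p : TI × ℕ => cl p.1 p.2 := by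
  have := ot_Gr h; unfold cl; fun_prop
theorem ot_out (h : S_stt) {cf : ℕ × Grp × Grp × List FP × List FP → Cos} (hc : OT cf) :
    OT (out cf) := by
  have := ot_Gr h; have := ot_st h; have := ot_rs h
  unfold out piece; fun_prop

theorem mem_fix1 {G : Grp} {z : ℕ} {g : FP} : g ∈ (G.fix {z}).1 ↔ g ∈ G.1 ∧ g • z = z := by
  simp

theorem trs_getD {n b : ℕ} (G : Grp) (z : ℕ) (hb : b < n) : (trs n G z).getD b 1 = tr G z b := by
  rw [trs, List.getD_eq_getElem _ _ (by simpa using hb), List.getElem_map, List.getElem_range]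

theorem tr_one {G : Grp} {z b : ℕ} (h : ¬ So G.1 z b) : tr G z b = 1 :=
  KG.rep_emp (Cos.isE_iff.2 fun x hx => h ⟨x, (mem_trC.1 hx).1, (mem_trC.1 hx).2⟩)

theorem gen_tr {n z : ℕ} {G : Grp} (hG : G.1 ≤ Sy n) (hz : z < n) :
    G.1 = (G.fix {z}).1 ⊔ Subgroup.closure {y | ∃ b < n, (trs n G z).getD b 1 = y} := by
  refine le_antisymm (fun g hg => ?_) (sup_le inf_le_left ((Subgroup.closure_le _).2 ?_))
  · have hb : g • z < n := (smul_lt (hG hg)).2 hz
    have h1 : (tr G z (g • z))⁻¹ * g ∈ (G.fix {z}).1 :=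
      mem_fix1.2 ⟨mul_mem (inv_mem (KG.tr_mem _ _ _)) hg, by
        rw [mul_smul, inv_smul_eq_iff, KG.tr_smul ⟨g, hg, rfl⟩]⟩
    have h2 : tr G z (g • z) ∈ Subgroup.closure {y | ∃ b < n, (trs n G z).getD b 1 = y} :=
      Subgroup.subset_closure ⟨_, hb, trs_getD G z hb⟩
    simpa using mul_mem (Subgroup.mem_sup_right h2) (Subgroup.mem_sup_left h1)
  · rintro _ ⟨b, hb, rfl⟩
    rw [trs_getD G z hb]; exact KG.tr_mem _ _ _

/-- The climbing step. -/
theorem climb {cf : ℕ × Grp × Grp × List FP × List FP → Cos}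
    (hs : ∀ n (L K : Grp) gs hs, L.1 ≤ Sy n → K.1 ≤ Sy n → Nm L.1 K.1 → (∀ a ∈ gs, a ∈ Sy n) →
      (∀ a ∈ hs, a ∈ Sy n) → ∀ l, l ∈ cf (n, L, K, gs, hs) ↔
        l ∈ L.1 ∧ ∀ b < n, (hs.getD (l • b) 1)⁻¹ * (l * gs.getD b 1 * l⁻¹) ∈ K.1)
    {n z : ℕ} {L G Z : Grp} (hL : L.1 ≤ Sy n) (hG : G.1 ≤ Sy n) (hZ : Z.1 ≤ Sy n) (hz : z < n)
    (hf : ∀ l ∈ L.1, l • z = z) (hN : Nm L.1 (G.fix {z}).1) (e : Z.fix {z} = G.fix {z}) :
    cf (n, L, G.fix {z}, trs n G z, trs n Z z) = TR L G Z := by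
  have m : ∀ H : Grp, H.1 ≤ Sy n → ∀ a ∈ trs n H z, a ∈ Sy n := fun H hH a ha => by
    obtain ⟨b, -, rfl⟩ := List.mem_map.1 ha
    exact hH (KG.tr_mem _ _ _)
  refine Cos.ext fun l => ?_
  rw [hs n L _ _ _ hL (inf_le_left.trans hG) hN (m G hG) (m Z hZ), mem_TR]
  refine and_congr_right fun hl => ⟨fun h => ?_, fun h b hb => ?_⟩
  · exact M6.climb hL hN (gen_tr hG hz) (e ▸ gen_tr hZ hz) l hl h
  · have hb' : l • b < n := (smul_lt (hL hl)).2 hb
    have so : So Z.1 z (l • b) ↔ So G.1 z b := by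
      rw [← h, ← M3.so_cj l G.1 z b, hf l hl]
    rw [trs_getD Z z hb', trs_getD G z hb, ← e, mem_fix1]
    refine ⟨mul_mem (inv_mem (KG.tr_mem _ _ _)) ?_, ?_⟩
    · rw [← h, mem_cj]; simpa [mul_assoc] using KG.tr_mem G z b
    · rw [mul_smul, mul_smul, mul_smul, hf _ (inv_mem hl), inv_smul_eq_iff]
      by_cases hb : So G.1 z b
      · rw [KG.tr_smul hb, KG.tr_smul (so.2 hb)]
      · rw [tr_one hb, tr_one fun h => hb (so.1 h), one_smul, hf l hl]

section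
variable {a : TI} (v : tV a) (u : ∃ z ∈ a.W, a.G.1 ⊓ fx (a.G.orb z) ≤ a.D.1)
include v u

omit v in
theorem zz_spec : zz a ∈ a.W ∧ a.G.1 ⊓ fx (OO a) ≤ a.D.1 := by
  obtain ⟨z, hz, h⟩ := u
  have key : ∀ l : List ℕ, z ∈ l → l.headD 0 ∈ l := fun l hl => by
    cases l with
    | nil => simp at hl
    | cons b t => simp
  have := key ((els a.W).filter fun z => Grp.le (a.G.fix (a.G.orb z)) a.D)
    (List.mem_filter.2 ⟨mem_els.2 hz, Grp.le_iff.2 h⟩)
  rw [List.mem_filter, mem_els, Grp.le_iff] at this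
  exact this

theorem OO_sub : ∀ x ∈ OO a, x ∈ a.W := by
  intro x hx
  obtain ⟨g, hg, rfl⟩ := Grp.mem_orb.1 hx
  exact (v.inv (v.GlL hg) _).2 (zz_spec u).1

omit u in
theorem Gr_le (r : ℕ) : (Gr a r).1 ≤ a.L.1 :=
  M1.cj_le_of_mem (inv_mem (KG.rep_mem_of fun _ hx => (mem_stt.1 hx).1)) v.ZL

omit v u in
theorem Gr_sst {r : ℕ} (hr : (st a r).isE = false) : (Gr a r).1 ≤ sst (OO a) := by
  obtain ⟨x, hx⟩ := Cos.isE_false.1 hr
  have h := (mem_stt.1 (KG.rep_mem hx)).2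
  intro g hg x
  have := M3.le_sst_orb a.Z r (mem_cj.1 hg) ((st a r).rep • x)
  simp only [inv_inv, mul_smul, inv_smul_smul, Finset.mem_coe] at this ⊢
  rw [h, h]; exact this

theorem cl_ok {r : ℕ} (hr : (st a r).isE = false) : tV (cl a r) := by
  have nD : Nm a.L.1 a.D.1 := v.nD.2
  have GO : a.G.1 ≤ sst (OO a) := M3.le_sst_orb _ _
  have DO : a.D.1 ≤ sst (OO a) := v.DG.trans GO
  have hl : (st a r).rep ∈ a.L.1 := KG.rep_mem_of fun _ hx => (mem_stt.1 hx).1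
  refine ⟨inf_le_left.trans (inf_le_left.trans v.le), ⟨inf_le_inf_right _ (le_inf v.nD.1 DO), ?_⟩,
    inf_le_inf_right _ v.DG, inf_le_inf_right _ ?_, inf_le_inf_right _ (le_inf v.GlL GO),
    inf_le_inf_right _ (le_inf (Gr_le v r) (Gr_sst hr)),
    fun w hw => v.Wn w (OO_sub v u w (Finset.mem_of_mem_erase hw)), ?_, ?_⟩
  · exact M1.nm_inf (M1.nm_mono (inf_le_left.trans inf_le_left) nD) (M1.nm_of_le inf_le_right)
  · rw [← M1.cj_of_nm nD (inv_mem hl)]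
    exact M1.cj_le_cj.2 v.DZ
  · intro l hl x
    obtain ⟨h1, h2⟩ := mem_fix1.1 hl
    have h3 := h1.2 x
    simp only [cl, TI.W, Finset.mem_coe, Finset.mem_erase] at h3 ⊢
    rw [h3]
    refine and_congr_left fun _ => not_congr ⟨fun e => ?_, fun e => by rw [e, h2]⟩
    exact (smul_left_cancel_iff l).1 (e.trans h2.symm)
  · rintro g ⟨h1, h2⟩
    obtain ⟨h3, h4⟩ := mem_fix1.1 h1
    refine mem_fix1.2 ⟨(zz_spec u).2 ⟨h3, fun x hx => ?_⟩, h4⟩
    by_cases e : x = zz a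
    · rw [e, h4]
    · exact h2 x (Finset.mem_erase.2 ⟨e, hx⟩)

omit u in
theorem cl_len (r : ℕ) : (cl a r).G.len - (cl a r).D.len ≤ a.G.len - a.D.len := by
  have hG : a.G.1 ≤ Sy a.1 := v.GlL.trans v.le
  have h1 := M2.len_sup (A := (a.G.fix {zz a}).1) (B := a.D.1) (inf_le_left.trans hG)
    (v.DG.trans hG) (M1.nm_mono (inf_le_left.trans v.GlL) v.nD.2)
  have h2 := M2.len_mono (A := (a.G.fix {zz a}).1 ⊔ a.D.1) hG (sup_le inf_le_left v.DG)
  have h3 : (a.G.fix {zz a}).1 ⊓ a.D.1 = (a.D.fix {zz a}).1 := by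
    rw [Grp.fix_val, Grp.fix_val, inf_comm, ← inf_assoc, inf_eq_left.2 v.DG]
  rw [h3] at h1
  show len (a.G.fix {zz a}).1 - len (a.D.fix {zz a}).1 ≤ len a.G.1 - len a.D.1
  omega

omit u in
theorem rs_card : (rs a).length * (OO a).card ≤ a.W.card := by
  have hn : (rs a).Nodup := (nodup_els _).filter _
  have hm : ∀ r ∈ rs a, r ∈ a.W ∧ a.Z.rep r = r ∧ (a.Z.orb r).card = (OO a).card := fun r hr => by
    simp only [rs, List.mem_filter, mem_els, Bool.and_eq_true, eqb_iff] at hr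
    exact ⟨hr.1, hr.2.1, hr.2.2.1⟩
  rw [← List.toFinset_card_of_nodup hn, ← smul_eq_mul, ← Finset.sum_const,
    Finset.sum_congr rfl fun r hr => (hm r (List.mem_toFinset.1 hr)).2.2.symm,
    ← Finset.card_biUnion]
  · refine Finset.card_le_card fun x hx => ?_
    obtain ⟨r, hr, hx⟩ := Finset.mem_biUnion.1 hx
    obtain ⟨g, hg, rfl⟩ := Grp.mem_orb.1 hx
    exact (v.inv (v.ZL hg) _).2 (hm r (List.mem_toFinset.1 hr)).1
  · intro r hr s hs hne
    refine Finset.disjoint_left.2 fun x h1 h2 => hne ?_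
    rw [← (hm r (List.mem_toFinset.1 hr)).2.1, ← (hm s (List.mem_toFinset.1 hs)).2.1,
      M3.rep_eq (Grp.mem_orb.1 h1), M3.rep_eq (Grp.mem_orb.1 h2)]

theorem piece_eq {cf : ℕ × Grp × Grp × List FP × List FP → Cos}
    (hs : ∀ n (L K : Grp) gs hs, L.1 ≤ Sy n → K.1 ≤ Sy n → Nm L.1 K.1 → (∀ a ∈ gs, a ∈ Sy n) →
      (∀ a ∈ hs, a ∈ Sy n) → ∀ l, l ∈ cf (n, L, K, gs, hs) ↔
        l ∈ L.1 ∧ ∀ b < n, (hs.getD (l • b) 1)⁻¹ * (l * gs.getD b 1 * l⁻¹) ∈ K.1) (r : ℕ) :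
    piece cf a r (tF (cl a r)) = Cos.lmul (st a r).rep (TR (a.L.stab (OO a)) a.G (Gr a r)) := by
  have GO : a.G.1 ≤ sst (OO a) := M3.le_sst_orb _ _
  have hz : zz a < a.1 := v.Wn _ (zz_spec u).1
  have e1 : TR (a.L.stab (OO a)) a.G (Gr a r) =
      (TR ((a.L.stab (OO a)).fix {zz a}) a.G (Gr a r)).rmul a.G := by
    refine M6.up_TR inf_le_left (le_inf v.GlL GO) (M1.nm_of_le le_rfl) (fun s _ e y hy => ?_)
      fun s hs => ?_
    · rw [← e, mem_cj]; simpa [mul_assoc] using hy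
    · have h1 := (mem_TR.1 hs).1
      have h2 : s⁻¹ • zz a ∈ OO a := ((sst _).inv_mem h1.2 _).2 (Grp.mem_orb.2 (M3.so_refl _ _))
      obtain ⟨g, hg, e⟩ := Grp.mem_orb.1 h2
      exact ⟨s * g, mem_fix1.2 ⟨mul_mem h1 ⟨v.GlL hg, GO hg⟩, by rw [mul_smul, e, smul_inv_smul]⟩,
        g⁻¹, inv_mem hg, by simp⟩
  have cf1 : ∀ (l : FP) (H : Grp), l • zz a = zz a →
      cj l (H.fix {zz a}).1 = ((Grp.cj l H).fix {zz a}).1 := fun l H hl => by
    ext g
    rw [mem_cj, mem_fix1, mem_fix1, Grp.cj_val, mem_cj, mul_smul, mul_smul, hl, inv_smul_eq_iff, hl]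
  have e2 : ∀ x ∈ TR ((a.L.stab (OO a)).fix {zz a}) a.G (Gr a r), x ∈ tF (cl a r) := by
    intro x hx
    obtain ⟨h1, h2⟩ := mem_TR.1 hx
    refine mem_TR.2 ⟨h1, (cf1 x a.G (mem_fix1.1 h1).2).trans ?_⟩
    rw [show Grp.cj x a.G = Gr a r from Grp.ext h2]; rfl
  have e3 : ∀ x ∈ tF (cl a r), x ∈ ((a.L.stab (OO a)).fix {zz a}).1 := fun x hx => (mem_TR.1 hx).1
  rw [piece, e1]
  cases hC : (tF (cl a r)).isE
  · obtain ⟨x, hx⟩ := Cos.isE_false.1 hC
    have h1 := mem_TR.1 (KG.rep_mem hx)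
    have h2 := KG.grp_le e3
    have hL : ((a.L.stab (OO a)).fix {zz a}).1 ≤ a.L.1 := inf_le_left.trans inf_le_left
    rw [cond_false, M6.ref e2 e3 hC, climb hs (h2.trans (hL.trans v.le)) (v.GlL.trans v.le)
      ((M1.cj_le_of_mem (inv_mem (hL h1.1)) (Gr_le v r)).trans v.le) hz
      (fun l hl => (mem_fix1.1 (h2 hl)).2) (M1.nm_of_cj fun l hl => ((M6.grp_TR hC).1 hl).2)]
    refine Grp.ext ?_
    refine (cf1 _ _ (mem_fix1.1 (inv_mem h1.1)).2).symm.trans ?_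
    exact (congrArg (cj _) h1.2.symm).trans (M1.cj_inv_cj _ _)
  · rw [cond_true, M6.ref_emp e2 hC]
    have : Cos.emp.isE = true := Cos.isE_iff.2 Cos.not_mem_emp
    rw [Cos.rmul, this, cond_true, Cos.lmul, this, cond_true]

theorem cover (x : FP) : x ∈ tF a ↔
    ∃ r ∈ rs a, x ∈ Cos.lmul (st a r).rep (TR (a.L.stab (OO a)) a.G (Gr a r)) := by
  have hl : ∀ r, (st a r).rep ∈ a.L.1 := fun r => KG.rep_mem_of fun _ hx => (mem_stt.1 hx).1
  simp only [M6.mem_lmul, tF, mem_TR]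
  constructor
  · rintro ⟨h1, h2⟩
    have so : ∀ y, So a.Z.1 (a.Z.rep (x • zz a)) (x • y) ↔ So a.G.1 (zz a) y := fun y => by
      rw [← M3.so_cj x a.G.1, h2]
      exact ⟨fun h => M3.so_trans (Grp.so_rep _ _) h, fun h => M3.so_trans (M3.so_symm (Grp.so_rep _ _)) h⟩
    have hx : x ∈ st a (a.Z.rep (x • zz a)) := mem_stt.2 ⟨h1, fun y => by
      rw [OO, Grp.mem_orb, Grp.mem_orb, so]⟩
    have hE : (st a (a.Z.rep (x • zz a))).isE = false := Cos.isE_false.2 ⟨x, hx⟩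
    refine ⟨a.Z.rep (x • zz a), ?_, ?_, ?_⟩
    · simp only [rs, List.mem_filter, mem_els, Bool.and_eq_true, eqb_iff, hE, Bool.not_false,
        and_true]
      refine ⟨?_, (M3.rep_eq (Grp.so_rep _ _)).symm, ?_⟩
      · obtain ⟨g, hg, e⟩ := Grp.so_rep a.Z (x • zz a)
        rw [← e]
        exact (v.inv (v.ZL hg) _).2 ((v.inv h1 _).2 (zz_spec u).1)
      · refine (Finset.card_bij (fun y _ => x • y) (fun y hy => ((mem_stt.1 hx).2 y).1 hy)
          (fun y _ z _ e => (smul_left_cancel_iff x).1 e) fun y hy => ⟨x⁻¹ • y, ?_, by simp⟩).symm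
        rw [(mem_stt.1 hx).2, smul_inv_smul]; exact hy
    · rw [← M6.grp_stt hE]; exact (KG.mem_cos hE).1 hx
    · rw [M1.cj_mul, h2]; rfl
  · rintro ⟨r, -, h1, h2⟩
    refine ⟨by simpa using mul_mem (hl r) h1.1, ?_⟩
    rw [M1.cj_mul] at h2
    exact M1.cj_inj.1 h2

end

end T1

open T1 in
theorem b_t1 [KA] (h : Prim) : S_t1 := by
  obtain ⟨cf, hcf, hs⟩ := h.cf
  have h1 := ot_cl h.stt
  have h2 := ot_rs h.stt
  refine KR.node_list (s := fun a => (rs a).map fun r => cl a r) (by fun_prop) (ot_out h.stt hcf)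
    fun a v ⟨u0, u⟩ => ⟨?_, ?_, ?_⟩
  · intro b hb
    obtain ⟨r, hr, rfl⟩ := List.mem_map.1 hb
    simp only [rs, List.mem_filter, Bool.and_eq_true, Bool.not_eq_eq_eq_not, Bool.not_true] at hr
    exact ⟨cl_ok v u hr.2.2.2, le_rfl⟩
  · have hx : 1 ≤ a.G.len - a.D.len := by
      have := M2.len_lt (v.GlL.trans v.le) (lt_of_le_of_ne v.DG fun e => u0 e.ge)
      show 1 ≤ len a.G.1 - len a.D.1
      omega
    have hz : zz a ∈ OO a := Grp.mem_orb.2 (M3.so_refl _ _)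
    have hs : 1 ≤ (OO a).card := Finset.card_pos.2 ⟨_, hz⟩
    have h3 : ∀ y ∈ ((rs a).map fun r => cl a r).map fun b => tC b + 1,
        y ≤ 2 * (OO a).card * (a.G.len - a.D.len) ^ 3 := by
      intro y hy
      simp only [List.map_map, List.mem_map, Function.comp] at hy
      obtain ⟨r, -, rfl⟩ := hy
      have h4 := Nat.pow_le_pow_left (cl_len v r) 3
      have h5 : (cl a r).W.card = (OO a).card - 1 := Finset.card_erase_of_mem hz
      have h6 : 1 ≤ (a.G.len - a.D.len) ^ 3 := Nat.one_le_pow _ _ hx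
      rw [tC, h5]
      obtain ⟨s, hs⟩ := Nat.exists_eq_add_of_le' hs
      rw [hs, Nat.add_sub_cancel]
      nlinarith
    refine (List.sum_le_card_nsmul _ _ h3).trans ?_
    have := rs_card v
    simp only [List.length_map, smul_eq_mul, tC]
    nlinarith [Nat.zero_le ((a.G.len - a.D.len) ^ 3)]
  · refine M6.union_eq fun x => ?_
    rw [cover v u]
    simp only [List.mem_map, List.mem_range, List.map_map]
    constructor
    · rintro ⟨r, hr, hx⟩
      obtain ⟨i, hi, rfl⟩ := List.getElem_of_mem hr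
      refine ⟨_, ⟨i, hi, rfl⟩, ?_⟩
      rw [List.getD_eq_getElem _ _ hi, List.getD_eq_getElem _ _ (by simpa using hi),
        List.getElem_map, Function.comp, piece_eq v u hs]
      exact hx
    · rintro ⟨_, ⟨i, hi, rfl⟩, hx⟩
      rw [List.getD_eq_getElem _ _ hi, List.getD_eq_getElem _ _ (by simpa using hi),
        List.getElem_map, Function.comp, piece_eq v u hs] at hx
      exact ⟨_, List.getElem_mem hi, hx⟩

end

end Pool.Agent.Lib.E6
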