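import Pool.Agent.Lib.E6.Spec

/-! E6, block T2: the abelian top layer and the intersection of the maximal products. -/

namespace Pool.Agent.Lib.E6

open Equiv Pool.Agent.Lib.helper80 Pool.Agent.Lib.MP_e519cf_lc Polynomial

noncomputable section
open Classical

set_option linter.unusedSectionVars false

namespace T2

theorem cost1 {f x y : ℕ} (h : x < y) : (f + 1) * x ^ 3 + 1 ≤ (f + 1) * y ^ 3 := by
  have h1 : x ^ 3 + 1 ≤ y ^ 3 := Nat.pow_lt_pow_left h (by norm_num)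
  nlinarith [Nat.zero_le f]

theorem cost2 {f x y : ℕ} (hx : 1 ≤ x) (hy : 1 ≤ y) :
    (f + 1) * x ^ 3 + 1 + ((f + 1) * y ^ 3 + 1) ≤ (f + 1) * (x + y) ^ 3 := by
  have h1 : 1 ≤ x * y := Nat.mul_pos hx hy
  have h2 : x ^ 3 + y ^ 3 + 2 ≤ (x + y) ^ 3 := by nlinarith [Nat.mul_le_mul h1 hx]
  nlinarith [Nat.zero_le f]

variable [KA]

/-- The first call in the case of an abelian top layer. -/
def s2 (a : TI) : TI :=
  (a.1, a.L, a.D, Grp.yq (Grp.pq a.G a.D) a.G a.D, Grp.yq (Grp.pq a.G a.D) a.Z a.D, a.W)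

theorem pt_s2 : PT s2 := by unfold s2; fun_prop

theorem cj_yq_of {q : ℕ} {L E D : SG} {h : FP} (hD : NI L D) (hL : h ∈ L) (hE : h ∈ E) :
    cj h (yq q E D) = yq q E D := by
  rw [M4.cj_yq, M1.cj_of_mem hE, M1.cj_of_nm hD.2 hL]

theorem vals_mp {n : ℕ} {B D : Grp} {Ns : Set SG} {l : List Grp} (h : MPok n B.1 D.1 Ns)
    (hl : ∀ P, P ∈ l ↔ P.1 ∈ MP B.1 D.1 Ns) : vals l = MP B.1 D.1 Ns := by
  ext H
  constructor
  · rintro ⟨A, hA, rfl⟩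
    exact (hl A).1 hA
  · intro hH
    exact ⟨⟨H, n, (M5.mp_basic h hH).1.1.trans h.le⟩, (hl _).2 hH, rfl⟩

theorem le_jj {n : ℕ} {G D : Grp} {W : Finset ℕ} (h : MPok n G.1 D.1 (vals (kers G W))) :
    D.1 ≤ JJ G D W :=
  le_inf h.nD.1 (le_sInf fun _ hP => (M5.mp_basic h hP).2.1)

theorem cj_jj {L : SG} {G Z D : Grp} {W : Finset ℕ} {h : FP} (hD : NI L D.1) (hW : L ≤ sst W)
    (hL : h ∈ L) (hG : cj h G.1 = Z.1) : cj h (JJ G D W) = JJ Z D W := by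
  have e1 : Grp.cj h G = Z := Grp.ext hG
  have e2 : Grp.cj h D = D := Grp.ext (M1.cj_of_nm hD.2 hL)
  rw [← M5.jj_cj (hW hL), e1, e2]

end T2

theorem b_t2 [KA] (h : Prim) (ha : S_abel) : S_t2 := by
  obtain ⟨g, hg, hs⟩ := ha
  have h2 := T2.pt_s2
  refine KR.node_one (s := T2.s2) (out := fun p : TI × Cos => bif p.2.isE then Cos.emp else
    Cos.lmul p.2.rep (g (p.1.1, Grp.pq p.1.G p.1.D, p.2.grp, (T2.s2 p.1).G, p.1.G,
      Grp.cj p.2.rep⁻¹ p.1.Z))) (by fun_prop) (by fun_prop) ?_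
  rintro ⟨n, L, D, G, Z, W⟩ hV hU
  change VTr n L.1 D.1 G.1 Z.1 W at hV
  change top G.1 D.1 ≠ G.1 at hU
  have hG : G.1 ≤ Sy n := hV.GlL.trans hV.le
  have hq := (M4.pq_prime hG hV.DG hU).1
  set q := pq G.1 D.1 with hqd
  have hYG : yq q G.1 D.1 ≤ G.1 := M4.yq_le q hV.DG
  have hYZ : yq q Z.1 D.1 ≤ Z.1 := M4.yq_le q hV.DZ
  refine ⟨?_, le_rfl, ?_, ?_⟩
  · change VTr n L.1 D.1 (yq q G.1 D.1) (yq q Z.1 D.1) W
    exact ⟨hV.le, hV.nD, M4.le_yq _ _ _, M4.le_yq _ _ _, hYG.trans hV.GlL, hYZ.trans hV.ZL,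
      hV.Wn, hV.inv, (inf_le_inf_right _ hYG).trans hV.fai⟩
  · change (2 * W.card + 1) * (len (yq q G.1 D.1) - len D.1) ^ 3 + 1 ≤
      (2 * W.card + 1) * (len G.1 - len D.1) ^ 3
    have h3 : len (yq q G.1 D.1) < len G.1 := M2.len_lt hG (lt_of_le_of_ne hYG hU)
    have h4 : len D.1 ≤ len (yq q G.1 D.1) := M2.len_mono (hYG.trans hG) (M4.le_yq _ _ _)
    exact T2.cost1 (by omega)
  · change (bif (TR L (Grp.yq q G D) (Grp.yq q Z D)).isE then Cos.emp else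
      Cos.lmul (TR L (Grp.yq q G D) (Grp.yq q Z D)).rep
        (g (n, q, (TR L (Grp.yq q G D) (Grp.yq q Z D)).grp, Grp.yq q G D, G,
          Grp.cj (TR L (Grp.yq q G D) (Grp.yq q Z D)).rep⁻¹ Z))) = TR L G Z
    set C := TR L (Grp.yq q G D) (Grp.yq q Z D) with hC
    have hsub : ∀ x ∈ TR L G Z, x ∈ C := fun x hx => by
      obtain ⟨h1, h3⟩ := mem_TR.1 hx
      refine mem_TR.2 ⟨h1, ?_⟩
      rw [Grp.yq_val, Grp.yq_val, M4.cj_yq, h3, M1.cj_of_nm hV.nD.2 h1]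
    have hCL : ∀ x ∈ C, x ∈ L.1 := fun x hx => (mem_TR.1 hx).1
    cases hE : C.isE with
    | true => exact (M6.ref_emp hsub hE).symm
    | false =>
      obtain ⟨x, hx⟩ := Cos.isE_false.1 hE
      obtain ⟨hr1, hr2⟩ := mem_TR.1 (KG.rep_mem hx)
      have hri : C.rep⁻¹ ∈ L.1 := inv_mem hr1
      have hD : cj C.rep⁻¹ D.1 = D.1 := M1.cj_of_nm hV.nD.2 hri
      have hY : yq q (cj C.rep⁻¹ Z.1) D.1 = yq q G.1 D.1 := by
        have := congrArg (cj C.rep⁻¹) hr2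
        rw [M1.cj_inv_cj, Grp.yq_val, Grp.yq_val, M4.cj_yq, hD] at this
        exact this.symm
      have hZL : cj C.rep⁻¹ Z.1 ≤ L.1 := M1.cj_le_of_mem hri hV.ZL
      have hDZ : D.1 ≤ cj C.rep⁻¹ Z.1 := by
        rw [← hD]; exact M1.cj_le_cj.2 hV.DZ
      have hgr : ∀ y, y ∈ C.grp.1 ↔ y ∈ L.1 ∧ cj y (yq q G.1 D.1) = yq q G.1 D.1 :=
        fun y => M6.grp_TR hE
      have hGC : G.1 ≤ C.grp.1 := fun y hy =>
        (hgr y).2 ⟨hV.GlL hy, T2.cj_yq_of hV.nD (hV.GlL hy) hy⟩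
      have hv : VAb n q C.grp.1 (Grp.yq q G D).1 G.1 (Grp.cj C.rep⁻¹ Z).1 := by
        refine ⟨(KG.grp_le hCL).trans hV.le, hq,
          ⟨hYG.trans hGC, M1.nm_of_cj fun y hy => ((hgr y).1 hy).2⟩, hGC, fun y hy => ?_,
          M4.yq_ea q hV.DG, ?_⟩
        · refine (hgr y).2 ⟨hZL hy, ?_⟩
          rw [← hY]
          exact T2.cj_yq_of hV.nD (hZL hy) hy
        · rw [Grp.yq_val, Grp.cj_val, ← hY]
          exact M4.yq_ea q hDZ
      rw [cond_false, hs _ _ _ _ _ _ hv]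
      exact (M6.ref hsub hCL hE).symm

theorem b_t3a [KA] (h : Prim) (hm : S_maxprod) : S_t3a := by
  obtain ⟨g, hg, hs⟩ := hm
  have hi := h.infL
  unfold S_infL at hi
  let jj : ℕ × Grp × Grp × Finset ℕ → Grp := fun p =>
    infL p.2.1 (g (p.1, p.2.1, p.2.2.1, kers p.2.1 p.2.2.2))
  have hj : OT jj := by unfold jj; fun_prop
  have hjv : ∀ n (G D : Grp) W, MPok n G.1 D.1 (vals (kers G W)) →
      (jj (n, G, D, W)).1 = JJ G D W := fun n G D W hk => by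
    change (infL G (g (n, G, D, kers G W))).1 = _
    rw [M6.infL_val, T2.vals_mp hk (hs n G D _ hk).2, JJ]
  clear_value jj
  refine KR.node_two
    (s := fun a : TI => (a.1, a.L, a.D, jj (a.1, a.G, a.D, a.W), jj (a.1, a.Z, a.D, a.W), a.W))
    (t := fun p : TI × Cos => (p.1.1, p.2.grp, jj (p.1.1, p.1.G, p.1.D, p.1.W), p.1.G,
      Grp.cj p.2.rep⁻¹ p.1.Z, p.1.W))
    (out := fun p : TI × Cos × Cos => Cos.lmul p.2.1.rep p.2.2) (by fun_prop) (by fun_prop)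
    (by fun_prop) ?_
  rintro ⟨n, L, D, G, Z, W⟩ hV ⟨⟨hU1, -, hU3, hU4, -⟩, hU⟩
  change VTr n L.1 D.1 G.1 Z.1 W at hV
  change JJ G D W ≠ D.1 at hU
  change ¬ G.1 ≤ D.1 at hU1
  change G.1 ≤ ⁅G.1, G.1⁆ ⊔ D.1 at hU3
  change Z.1 ≤ ⁅Z.1, Z.1⁆ ⊔ D.1 at hU4
  have hG : G.1 ≤ Sy n := hV.GlL.trans hV.le
  have hZ : Z.1 ≤ Sy n := hV.ZL.trans hV.le
  have nG : NI G.1 D.1 := ⟨hV.DG, M1.nm_mono hV.GlL hV.nD.2⟩
  have nZ : NI Z.1 D.1 := ⟨hV.DZ, M1.nm_mono hV.ZL hV.nD.2⟩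
  have kG := M5.kers_ok W hG nG hU3
  have kZ := M5.kers_ok W hZ nZ hU4
  have eG := hjv n G D W kG
  have eZ := hjv n Z D W kZ
  set J := jj (n, G, D, W) with hJ
  set J' := jj (n, Z, D, W) with hJ'
  have hJG : J.1 ≤ G.1 := by rw [eG]; exact inf_le_left
  have hJZ : J'.1 ≤ Z.1 := by rw [eZ]; exact inf_le_left
  have hDJ : D.1 ≤ J.1 := by rw [eG]; exact T2.le_jj kG
  have hDJ' : D.1 ≤ J'.1 := by rw [eZ]; exact T2.le_jj kZ
  have l1 : len D.1 < len J.1 :=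
    M2.len_lt (hJG.trans hG) (lt_of_le_of_ne hDJ fun e => hU (by rw [← eG, e]))
  have l2 : len J.1 < len G.1 :=
    M2.len_lt hG (lt_of_le_of_ne hJG (by rw [eG]; exact M5.jj_ne hG nG hU3 hV.fai hU1))
  have hsub : ∀ x ∈ TR L G Z, x ∈ TR L J J' := fun x hx => by
    obtain ⟨h1, h3⟩ := mem_TR.1 hx
    refine mem_TR.2 ⟨h1, ?_⟩
    rw [eG, eZ]
    exact T2.cj_jj hV.nD hV.inv h1 h3
  refine ⟨?_, le_rfl, fun hE => ⟨?_, M6.ref_emp hsub hE⟩, fun hE => ?_⟩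
  · change VTr n L.1 D.1 J.1 J'.1 W
    exact ⟨hV.le, hV.nD, hDJ, hDJ', hJG.trans hV.GlL, hJZ.trans hV.ZL, hV.Wn, hV.inv,
      (inf_le_inf_right _ hJG).trans hV.fai⟩
  · change (2 * W.card + 1) * (len J.1 - len D.1) ^ 3 + 1 ≤
      (2 * W.card + 1) * (len G.1 - len D.1) ^ 3
    exact T2.cost1 (by omega)
  · change (TR L J J').isE = false at hE
    set C := TR L J J' with hC
    have hCL : ∀ x ∈ C, x ∈ L.1 := fun x hx => (mem_TR.1 hx).1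
    obtain ⟨x, hx⟩ := Cos.isE_false.1 hE
    obtain ⟨hr1, hr2⟩ := mem_TR.1 (KG.rep_mem hx)
    have hri : C.rep⁻¹ ∈ L.1 := inv_mem hr1
    have hY : cj C.rep⁻¹ J'.1 = J.1 := by rw [← hr2, M1.cj_inv_cj]
    have hY' : JJ (Grp.cj C.rep⁻¹ Z) D W = J.1 := by
      rw [← hY, eZ]
      exact (T2.cj_jj hV.nD hV.inv hri rfl).symm
    have hZL : cj C.rep⁻¹ Z.1 ≤ L.1 := M1.cj_le_of_mem hri hV.ZL
    have hgr : ∀ y, y ∈ C.grp.1 ↔ y ∈ L.1 ∧ cj y J.1 = J.1 := fun y => M6.grp_TR hE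
    have hGC : G.1 ≤ C.grp.1 := fun y hy => (hgr y).2 ⟨hV.GlL hy, by
      rw [eG]; exact T2.cj_jj hV.nD hV.inv (hV.GlL hy) (M1.cj_of_mem hy)⟩
    refine ⟨?_, le_rfl, ?_, (M6.ref hsub hCL hE).symm⟩
    · change VTr n C.grp.1 J.1 G.1 (cj C.rep⁻¹ Z.1) W
      refine ⟨(KG.grp_le hCL).trans hV.le,
        ⟨hJG.trans hGC, M1.nm_of_cj fun y hy => ((hgr y).1 hy).2⟩, hJG, ?_, hGC, fun y hy => ?_,
        hV.Wn, (KG.grp_le hCL).trans hV.inv, hV.fai.trans hDJ⟩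
      · rw [← hY]; exact M1.cj_le_cj.2 hJZ
      · refine (hgr y).2 ⟨hZL hy, ?_⟩
        rw [← hY']
        exact T2.cj_jj hV.nD hV.inv (hZL hy) (M1.cj_of_mem hy)
    · change (2 * W.card + 1) * (len J.1 - len D.1) ^ 3 + 1 +
        ((2 * W.card + 1) * (len G.1 - len J.1) ^ 3 + 1) ≤
        (2 * W.card + 1) * (len G.1 - len D.1) ^ 3
      have e : len G.1 - len D.1 = (len J.1 - len D.1) + (len G.1 - len J.1) := by omega
      rw [e]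
      exact T2.cost2 (by omega) (by omega)

end

end Pool.Agent.Lib.E6
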