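import Pool.Agent.Lib.MP_e519cf_lc.Lists

/-! E6: canonical data for permutation groups, cosets, and oracle polynomial time. -/

namespace Pool.Agent.Lib.E6

open Equiv Pool.Agent.Lib.helper80 Pool.Agent.Lib.MP_e519cf_lc Polynomial

noncomputable section
open Classical

/-! ### Finitary permutations -/

/-- Finitary permutations of `ℕ`. -/
def FPs : Subgroup (Perm ℕ) where
  carrier := {g | ∃ n, ∀ i, n ≤ i → g i = i}
  one_mem' := ⟨0, fun _ _ => rfl⟩
  mul_mem' := by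
    rintro a b ⟨n, hn⟩ ⟨m, hm⟩
    exact ⟨n + m, fun i hi => by rw [Perm.mul_apply, hm i (by omega), hn i (by omega)]⟩
  inv_mem' := by
    rintro a ⟨n, hn⟩
    exact ⟨n, fun i hi => by rw [Perm.inv_eq_iff_eq, hn i hi]⟩

abbrev FP : Type := ↥FPs
abbrev SG : Type := Subgroup FP

instance : DecidableEq FP := Classical.decEq _

theorem FP.ext {g h : FP} (e : ∀ x : ℕ, g • x = h • x) : g = h := Subtype.ext (Equiv.ext e)

/-- Pointwise stabiliser of a set. -/
def fx (S : Set ℕ) : SG where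
  carrier := {g | ∀ x ∈ S, g • x = x}
  one_mem' := fun x _ => one_smul _ x
  mul_mem' := fun ha hb x hx => by rw [mul_smul, hb x hx, ha x hx]
  inv_mem' := fun ha x hx => by rw [inv_smul_eq_iff, ha x hx]

@[simp] theorem mem_fx {S : Set ℕ} {g : FP} : g ∈ fx S ↔ ∀ x ∈ S, g • x = x := Iff.rfl

/-- Setwise stabiliser of a set. -/
def sst (S : Set ℕ) : SG where
  carrier := {g | ∀ x, g • x ∈ S ↔ x ∈ S}
  one_mem' := fun x => by rw [one_smul]
  mul_mem' := fun ha hb x => by rw [mul_smul, ha, hb]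
  inv_mem' := fun {a} ha x => by rw [← ha, smul_inv_smul]

@[simp] theorem mem_sst {S : Set ℕ} {g : FP} : g ∈ sst S ↔ ∀ x, g • x ∈ S ↔ x ∈ S := Iff.rfl

/-- The symmetric group on `0, ..., n-1`. -/
def Sy (n : ℕ) : SG := fx {x | n ≤ x}

theorem mem_Sy {n : ℕ} {g : FP} : g ∈ Sy n ↔ ∀ x, n ≤ x → g • x = x := Iff.rfl

theorem Sy_mono {n m : ℕ} (h : n ≤ m) : Sy n ≤ Sy m := fun _ hg x hx => hg x (h.trans hx)

theorem smul_lt {n : ℕ} {g : FP} (hg : g ∈ Sy n) {x : ℕ} : g • x < n ↔ x < n := by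
  constructor
  · intro h; by_contra hx; rw [hg x (not_lt.1 hx)] at h; exact hx h
  · intro h; by_contra hx
    have := hg _ (not_lt.1 hx)
    rw [smul_left_cancel_iff] at this
    exact hx (this.symm ▸ h)

theorem exists_Sy (g : FP) : ∃ n, g ∈ Sy n := g.2

/-- Least degree of a finitary permutation. -/
def bd (g : FP) : ℕ := Nat.find (exists_Sy g)

theorem mem_Sy_bd (g : FP) : g ∈ Sy (bd g) := Nat.find_spec (exists_Sy g)

theorem bd_le {g : FP} {n : ℕ} : bd g ≤ n ↔ g ∈ Sy n :=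
  ⟨fun h => Sy_mono h (mem_Sy_bd g), fun h => Nat.find_min' _ h⟩

/-- Table of images. -/
def tb (g : FP) : List ℕ := (List.range (bd g)).map fun i => g • i

instance encFP : Enc FP := ⟨fun g => enc (tb g)⟩

/-- Elements of a finite set in increasing order. -/
def els (S : Finset ℕ) : List ℕ := S.sort (· ≤ ·)

@[simp] theorem mem_els {S : Finset ℕ} {x : ℕ} : x ∈ els S ↔ x ∈ S := Finset.mem_sort _
theorem nodup_els (S : Finset ℕ) : (els S).Nodup := Finset.sort_nodup _ _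
@[simp] theorem length_els (S : Finset ℕ) : (els S).length = S.card := Finset.length_sort _

instance encFS : Enc (Finset ℕ) := ⟨fun S => enc (els S)⟩

def fil (n : ℕ) (p : ℕ → Bool) : Finset ℕ := (Finset.range n).filter fun x => p x = true

@[simp] theorem mem_fil {n x : ℕ} {p : ℕ → Bool} : x ∈ fil n p ↔ x < n ∧ p x = true := by
  simp [fil]

def smem (x : ℕ) (S : Finset ℕ) : Bool := decide (x ∈ S)

@[simp] theorem smem_iff {x : ℕ} {S : Finset ℕ} : smem x S = true ↔ x ∈ S := by simp [smem]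
@[simp] theorem smem_false {x : ℕ} {S : Finset ℕ} : smem x S = false ↔ x ∉ S := by simp [smem]

/-- `f` permutes `0, ..., n-1`. -/
def OkP (n : ℕ) (f : ℕ → ℕ) : Prop := (∀ x < n, f x < n) ∧ ∀ x < n, ∀ y < n, f x = f y → x = y

theorem OkP.ex {n : ℕ} {f : ℕ → ℕ} (h : OkP n f) :
    ∃ g : FP, ∀ x, g • x = if x < n then f x else x := by
  let e : Fin n → Fin n := fun x => ⟨f x, h.1 x x.2⟩
  have he : Function.Injective e := fun x y hxy =>
    Fin.ext (h.2 x x.2 y y.2 (congrArg Fin.val hxy))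
  have hb : Function.Bijective fun x => if x < n then f x else x := by
    constructor
    · intro x y hxy
      by_cases hx : x < n <;> by_cases hy : y < n <;> simp only [hx, hy, if_true, if_false] at hxy
      · exact h.2 x hx y hy hxy
      · have := h.1 x hx; omega
      · have := h.1 y hy; omega
      · exact hxy
    · intro y
      by_cases hy : y < n
      · obtain ⟨x, hx⟩ := (Finite.injective_iff_surjective.1 he) ⟨y, hy⟩
        exact ⟨x, by simpa [x.2, e, Fin.ext_iff] using hx⟩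
      · exact ⟨y, by simp [hy]⟩
  exact ⟨⟨Equiv.ofBijective _ hb, n, fun i hi => by simp [not_lt.2 hi]⟩, fun _ => rfl⟩

/-- The permutation with the values `f x` below `n` (the identity if there is none). -/
def mkP (n : ℕ) (f : ℕ → ℕ) : FP := if h : OkP n f then h.ex.choose else 1

theorem mkP_smul {n : ℕ} {f : ℕ → ℕ} (h : OkP n f) (x : ℕ) :
    mkP n f • x = if x < n then f x else x := by
  rw [mkP, dif_pos h]; exact h.ex.choose_spec x

theorem mkP_mem (n : ℕ) (f : ℕ → ℕ) : mkP n f ∈ Sy n := by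
  by_cases h : OkP n f
  · intro x hx; rw [mkP_smul h, if_neg (not_lt.2 hx)]
  · rw [mkP, dif_neg h]; exact one_mem _

/-- Transposition. -/
def swp (x y : ℕ) : FP :=
  ⟨Equiv.swap x y, x + y + 1, fun i hi => Equiv.swap_apply_of_ne_of_ne (by omega) (by omega)⟩

theorem swp_smul (x y z : ℕ) : swp x y • z = Equiv.swap x y z := rfl

/-- Exchange of the halves `[0,n)` and `[n,2n)`. -/
def sw (n : ℕ) : FP := mkP (2 * n) fun x => bif Nat.blt x n then x + n else x - n

/-- Restriction to an invariant set. -/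
def res (S : Finset ℕ) (g : FP) : FP := mkP (bd g) fun x => bif smem x S then g • x else x

/-- The action on pairs `(a, b)`, coded `a * N + b`. -/
def prP (N : ℕ) (g : FP) : FP := mkP (N * N) fun c => (g • (c / N)) * N + g • (c % N)

/-- A permutation of `Fin n` as a finitary permutation. -/
def up {n : ℕ} (σ : Perm (Fin n)) : FP := mkP n fun x => app (tab σ) x

/-! ### Subgroup vocabulary -/

/-- `g H g⁻¹`. -/
def cj (g : FP) (H : SG) : SG := H.comap (MulAut.conj g⁻¹).toMonoidHom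

@[simp] theorem mem_cj {g x : FP} {H : SG} : x ∈ cj g H ↔ g⁻¹ * x * g ∈ H := by
  simp [cj, Subgroup.mem_comap]

/-- `L` normalises `D`. -/
def Nm (L D : SG) : Prop := ∀ l ∈ L, ∀ d ∈ D, l * d * l⁻¹ ∈ D

/-- `D` is a normal subgroup of `L`. -/
def NI (L D : SG) : Prop := D ≤ L ∧ Nm L D

/-- `X / D` is an elementary abelian `p`-group. -/
def EA (p : ℕ) (X D : SG) : Prop :=
  D ≤ X ∧ (∀ a ∈ X, ∀ b ∈ X, a * b * a⁻¹ * b⁻¹ ∈ D) ∧ ∀ a ∈ X, a ^ p ∈ D

/-- Every perfect subgroup of `E` lies in `D`. -/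
def Sol (E D : SG) : Prop := ∀ R : SG, R ≤ E → R ≤ ⁅R, R⁆ → R ≤ D

/-- Number of prime factors of the order. -/
def len (H : SG) : ℕ := ArithmeticFunction.cardFactors (Nat.card H)

def yq (q : ℕ) (E D : SG) : SG := ⁅E, E⁆ ⊔ Subgroup.closure {x | ∃ e ∈ E, e ^ q = x} ⊔ D

def pq (E D : SG) : ℕ := if h : ∃ q, 2 ≤ q ∧ yq q E D ≠ E then Nat.find h else 0

def top (E D : SG) : SG := yq (pq E D) E D

/-- Same orbit. -/
def So (H : SG) (x y : ℕ) : Prop := ∃ h ∈ H, h • x = y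

/-- `g` permutes the orbits of `H`. -/
def Po (H : SG) (g : FP) : Prop := ∀ x y, So H x y ↔ So H (g • x) (g • y)

/-- `g` is the lexicographically least element of `g H`. -/
def Rd (H : SG) (g : FP) : Prop := ∀ k : ℕ, ∀ h ∈ H, (∀ i < k, h • i = i) → g • k ≤ g • h • k

def cm (S : Set FP) (H : SG) : FP := if h : ∃ g ∈ S, Rd H g then h.choose else 1

/-! ### Bounded groups as data -/

structure Grp where
  val : SG
  property : ∃ n, val ≤ Sy n

instance : DecidableEq Grp := Classical.decEq _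

namespace Grp

theorem ext {A B : Grp} (h : A.1 = B.1) : A = B := by
  cases A; cases B; cases h; rfl

def bd (H : Grp) : ℕ := Nat.find H.2

theorem le_bd (H : Grp) : H.1 ≤ Sy H.bd := Nat.find_spec H.2

theorem bd_le {H : Grp} {n : ℕ} : H.bd ≤ n ↔ H.1 ≤ Sy n :=
  ⟨fun h => H.le_bd.trans (Sy_mono h), fun h => Nat.find_min' _ h⟩

/-- Canonical strong generators. -/
def gens (H : Grp) : List FP :=
  (List.range H.bd).flatMap fun i =>
    ((List.range H.bd).filter fun j =>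
        decide (i < j ∧ ∃ h ∈ H.1, (∀ k < i, h • k = k) ∧ h • i = j)).map
      fun j => cm {h | h ∈ H.1 ∧ (∀ k < i, h • k = k) ∧ h • i = j} (H.1 ⊓ fx {k | k ≤ i})

instance encGrp : Enc Grp := ⟨fun H => enc H.gens⟩

theorem list_bd (l : List FP) : Subgroup.closure {x | x ∈ l} ≤ Sy (l.map E6.bd).sum := by
  rw [Subgroup.closure_le]
  intro x hx
  exact E6.bd_le.1 (List.single_le_sum (fun _ _ => Nat.zero_le _) _ (List.mem_map_of_mem hx))

def ofL (l : List FP) : Grp := ⟨Subgroup.closure {x | x ∈ l}, _, list_bd l⟩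
def bot : Grp := ⟨⊥, 0, bot_le⟩
def sy (n : ℕ) : Grp := ⟨Sy n, n, le_rfl⟩
def sup (A B : Grp) : Grp := ⟨A.1 ⊔ B.1, A.bd + B.bd,
  sup_le (bd_le.1 (Nat.le_add_right _ _)) (bd_le.1 (Nat.le_add_left _ _))⟩
/-- Intersection with an arbitrary subgroup. -/
def cut (A : Grp) (K : SG) : Grp := ⟨A.1 ⊓ K, A.bd, inf_le_left.trans A.le_bd⟩
def inf (A B : Grp) : Grp := A.cut B.1
def stab (A : Grp) (S : Finset ℕ) : Grp := A.cut (sst S)
def fix (A : Grp) (S : Finset ℕ) : Grp := A.cut (fx S)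
def cj (g : FP) (A : Grp) : Grp := ⟨E6.cj g A.1, E6.bd g + A.bd, fun x hx => by
  have h1 : g ∈ Sy (E6.bd g + A.bd) := E6.bd_le.1 (Nat.le_add_right _ _)
  have h2 := bd_le.1 (Nat.le_add_left A.bd (E6.bd g)) (mem_cj.1 hx)
  simpa [mul_assoc] using mul_mem (mul_mem h1 h2) (inv_mem h1)⟩
def comm (A B : Grp) : Grp := ⟨⁅A.1, B.1⁆, (A.sup B).bd, (Subgroup.commutator_le.2 fun _ ha _ hb => by
  have h1 := (le_sup_left : A.1 ≤ A.1 ⊔ B.1) ha
  have h2 := (le_sup_right : B.1 ≤ A.1 ⊔ B.1) hb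
  exact mul_mem (mul_mem (mul_mem h1 h2) (inv_mem h1)) (inv_mem h2)).trans (A.sup B).le_bd⟩
def yq (q : ℕ) (E D : Grp) : Grp := ⟨E6.yq q E.1 D.1, (E.sup D).bd,
  (sup_le (sup_le ((Subgroup.commutator_le.2 fun _ ha _ hb =>
      mul_mem (mul_mem (mul_mem ha hb) (inv_mem ha)) (inv_mem hb)).trans le_sup_left)
    ((Subgroup.closure_le _).2 (by
      rintro _ ⟨e, he, rfl⟩
      exact (le_sup_left : E.1 ≤ E.1 ⊔ D.1) (pow_mem he q)))) le_sup_right).trans (E.sup D).le_bd⟩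
def pq (E D : Grp) : ℕ := E6.pq E.1 D.1
def top (E D : Grp) : Grp := yq (pq E D) E D
def len (H : Grp) : ℕ := E6.len H.1
def mem (g : FP) (H : Grp) : Bool := decide (g ∈ H.1)
def le (A B : Grp) : Bool := decide (A.1 ≤ B.1)
/-- Test for `EA p X D`. -/
def ea (p : ℕ) (X D : Grp) : Bool := decide (EA p X.1 D.1)
def orb (H : Grp) (x : ℕ) : Finset ℕ := fil (H.bd + x + 1) fun y => decide (So H.1 x y)
def rep (H : Grp) (x : ℕ) : ℕ := Nat.find (⟨x, 1, one_mem _, one_smul _ _⟩ : ∃ y, So H.1 x y)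
def reps (H : Grp) (n : ℕ) : Finset ℕ := fil n fun x => eqb (H.rep x) x
/-- Constituent on an invariant set. -/
def con (S : Finset ℕ) (H : Grp) : Grp := ofL (H.gens.map fun g => res S g)
/-- Product of the constituents of `H` on the orbits of `X`. -/
def hat (X H : Grp) : Grp :=
  ofL ((List.range X.bd).flatMap fun a => H.gens.map fun g => res (X.orb a) g)
/-- Normaliser in `Sy m` of an elementary abelian `p`-group with orbits of size at most `p`. -/
def enorm (m : ℕ) (X : Grp) : Grp :=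
  if X.1 ≤ Sy m ∧ ∃ p, p.Prime ∧ EA p X.1 ⊥ ∧ ∀ x, (X.orb x).card ≤ p then
    (sy m).cut (Subgroup.normalizer (X.1 : Set FP))
  else bot

@[simp] theorem ofL_val (l : List FP) : (ofL l).1 = Subgroup.closure {x | x ∈ l} := rfl
@[simp] theorem bot_val : bot.1 = ⊥ := rfl
@[simp] theorem sy_val (n : ℕ) : (sy n).1 = Sy n := rfl
@[simp] theorem sup_val (A B : Grp) : (A.sup B).1 = A.1 ⊔ B.1 := rfl
@[simp] theorem cut_val (A : Grp) (K : SG) : (A.cut K).1 = A.1 ⊓ K := rfl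
@[simp] theorem inf_val (A B : Grp) : (A.inf B).1 = A.1 ⊓ B.1 := rfl
@[simp] theorem stab_val (A : Grp) (S : Finset ℕ) : (A.stab S).1 = A.1 ⊓ sst S := rfl
@[simp] theorem fix_val (A : Grp) (S : Finset ℕ) : (A.fix S).1 = A.1 ⊓ fx S := rfl
@[simp] theorem cj_val (g : FP) (A : Grp) : (cj g A).1 = E6.cj g A.1 := rfl
@[simp] theorem comm_val (A B : Grp) : (A.comm B).1 = ⁅A.1, B.1⁆ := rfl
@[simp] theorem yq_val (q : ℕ) (E D : Grp) : (yq q E D).1 = E6.yq q E.1 D.1 := rfl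
@[simp] theorem top_val (E D : Grp) : (top E D).1 = E6.top E.1 D.1 := rfl
@[simp] theorem mem_iff {g : FP} {H : Grp} : mem g H = true ↔ g ∈ H.1 := by simp [mem]
@[simp] theorem mem_false {g : FP} {H : Grp} : mem g H = false ↔ g ∉ H.1 := by simp [mem]
@[simp] theorem le_iff {A B : Grp} : le A B = true ↔ A.1 ≤ B.1 := by simp [le]
@[simp] theorem le_false {A B : Grp} : le A B = false ↔ ¬ A.1 ≤ B.1 := by simp [le]
@[simp] theorem ea_iff {p : ℕ} {A B : Grp} : ea p A B = true ↔ EA p A.1 B.1 := by simp [ea]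
@[simp] theorem ea_false {p : ℕ} {A B : Grp} : ea p A B = false ↔ ¬ EA p A.1 B.1 := by simp [ea]

@[simp] theorem mem_orb {H : Grp} {x y : ℕ} : y ∈ H.orb x ↔ So H.1 x y := by
  simp only [orb, mem_fil, decide_eq_true_eq, and_iff_right_iff_imp]
  rintro ⟨h, hh, rfl⟩
  by_cases hx : x < H.bd
  · have := (smul_lt (H.le_bd hh)).2 hx; omega
  · rw [H.le_bd hh x (not_lt.1 hx)]; omega

theorem so_rep (H : Grp) (x : ℕ) : So H.1 x (H.rep x) := Nat.find_spec (p := So H.1 x) _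
theorem rep_le {H : Grp} {x y : ℕ} (h : So H.1 x y) : H.rep x ≤ y := Nat.find_min' _ h
@[simp] theorem mem_reps {H : Grp} {n x : ℕ} : x ∈ H.reps n ↔ x < n ∧ H.rep x = x := by
  simp [reps]

end Grp

/-! ### Cosets as data -/

def IsCos (S : Set FP) : Prop :=
  (∃ n, ∀ x ∈ S, x ∈ Sy n) ∧ ∀ x ∈ S, ∀ y ∈ S, ∀ z ∈ S, x * y⁻¹ * z ∈ S

/-- The empty set or a left coset of a bounded group. -/
structure Cos where
  val : Set FP
  property : IsCos val

instance : Membership FP Cos := ⟨fun C x => x ∈ C.1⟩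
instance : DecidableEq Cos := Classical.decEq _

namespace Cos

theorem ext {C D : Cos} (h : ∀ x, x ∈ C ↔ x ∈ D) : C = D := by
  have e : C.1 = D.1 := Set.ext h
  cases C; cases D; cases e; rfl

def emp : Cos := ⟨∅, ⟨0, fun _ h => h.elim⟩, fun _ h => h.elim⟩

@[simp] theorem not_mem_emp (x : FP) : x ∉ emp := fun h => h

def of (S : Set FP) : Cos := if h : IsCos S then ⟨S, h⟩ else emp

theorem mem_of {S : Set FP} (h : IsCos S) {x : FP} : x ∈ of S ↔ x ∈ S := by
  rw [of, dif_pos h]; rfl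

def grp (C : Cos) : Grp :=
  ⟨{ carrier := {h | h = 1 ∨ ∃ x ∈ C, ∃ y ∈ C, h = x⁻¹ * y}
     one_mem' := Or.inl rfl
     mul_mem' := by
       rintro a b (rfl | ⟨x, hx, y, hy, rfl⟩) hb
       · simpa using hb
       rcases hb with rfl | ⟨z, hz, w, hw, rfl⟩
       · exact Or.inr ⟨x, hx, y, hy, by simp⟩
       · exact Or.inr ⟨x, hx, _, C.2.2 y hy z hz w hw, by group⟩
     inv_mem' := by
       rintro a (rfl | ⟨x, hx, y, hy, rfl⟩)
       · exact Or.inl inv_one
       · exact Or.inr ⟨y, hy, x, hx, by group⟩ }, by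
    obtain ⟨n, hn⟩ := C.2.1
    refine ⟨n, ?_⟩
    rintro a (rfl | ⟨x, hx, y, hy, rfl⟩)
    · exact one_mem _
    · exact mul_mem (inv_mem (hn x hx)) (hn y hy)⟩

theorem mem_grp {C : Cos} {h : FP} : h ∈ C.grp.1 ↔ h = 1 ∨ ∃ x ∈ C, ∃ y ∈ C, h = x⁻¹ * y := Iff.rfl

def rep (C : Cos) : FP := cm C.1 C.grp.1
def isE (C : Cos) : Bool := decide (∀ x, x ∉ C)

@[simp] theorem isE_iff {C : Cos} : C.isE = true ↔ ∀ x, x ∉ C := by simp [isE]
@[simp] theorem isE_false {C : Cos} : C.isE = false ↔ ∃ x, x ∈ C := by simp [isE]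

def toL (C : Cos) : List (Grp × FP) := bif C.isE then [] else [(C.grp, C.rep)]

instance encCos : Enc Cos := ⟨fun C => enc C.toL⟩

/-- The coset `g H`. -/
def lc (g : FP) (H : Grp) : Cos := ⟨{x | g⁻¹ * x ∈ H.1}, ⟨bd g + H.bd, fun x hx => by
    have h1 : g ∈ Sy (bd g + H.bd) := bd_le.1 (Nat.le_add_right _ _)
    simpa using mul_mem h1 (Grp.bd_le.1 (Nat.le_add_left H.bd (bd g)) hx)⟩,
  fun x hx y hy z hz => by
    have := H.1.mul_mem (H.1.mul_mem hx (H.1.inv_mem hy)) hz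
    simpa [mul_assoc] using this⟩

@[simp] theorem mem_lc {g x : FP} {H : Grp} : x ∈ lc g H ↔ g⁻¹ * x ∈ H.1 := Iff.rfl

/-- `g C`. -/
def lmul (g : FP) (C : Cos) : Cos := bif C.isE then emp else lc (g * C.rep) C.grp
/-- `C A` when the group of `C` normalises `A`. -/
def rmul (C : Cos) (A : Grp) : Cos := bif C.isE then emp else lc C.rep (C.grp.sup A)
/-- Image of `C` under restriction to `S`, when `C` preserves `S`. -/
def con (S : Finset ℕ) (C : Cos) : Cos := bif C.isE then emp else lc (res S C.rep) (C.grp.con S)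
/-- The least coset containing all members of a list. -/
def union (l : List Cos) : Cos :=
  lcases (l.filter fun C => !C.isE) emp fun C t =>
    lc C.rep (Grp.ofL (C.grp.gens ++ t.flatMap fun B => (C.rep⁻¹ * B.rep) :: B.grp.gens))
def inter (C : Cos) (H : Grp) : Cos := ⟨{x | x ∈ C ∧ x ∈ H.1}, ⟨H.bd, fun _ hx => H.le_bd hx.2⟩,
  fun x hx y hy z hz => ⟨C.2.2 x hx.1 y hy.1 z hz.1, mul_mem (mul_mem hx.2 (inv_mem hy.2)) hz.2⟩⟩

@[simp] theorem mem_inter {C : Cos} {H : Grp} {x : FP} : x ∈ C.inter H ↔ x ∈ C ∧ x ∈ H.1 := Iff.rfl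

/-- Elements of `L` with a property that is stable under `x y⁻¹ z`. -/
def sel (L : Grp) (P : FP → Prop) (h : ∀ x y z, P x → P y → P z → P (x * y⁻¹ * z)) : Cos :=
  ⟨{x | x ∈ L.1 ∧ P x}, ⟨L.bd, fun _ hx => L.le_bd hx.1⟩, fun x hx y hy z hz =>
    ⟨mul_mem (mul_mem hx.1 (inv_mem hy.1)) hz.1, h x y z hx.2 hy.2 hz.2⟩⟩

end Cos

/-- Transporter of points. -/
def trC (H : Grp) (x y : ℕ) : Cos := Cos.sel H (fun h => h • x = y) fun a b c ha hb hc => by
  rw [mul_smul, mul_smul, hc, ← hb, inv_smul_smul, ha, hb]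

@[simp] theorem mem_trC {H : Grp} {x y : ℕ} {g : FP} : g ∈ trC H x y ↔ g ∈ H.1 ∧ g • x = y := Iff.rfl

def tr (H : Grp) (x y : ℕ) : FP := (trC H x y).rep

/-- Transporter of sets. -/
def stt (L : Grp) (S T : Finset ℕ) : Cos := Cos.sel L (fun l => ∀ x, x ∈ S ↔ l • x ∈ T)
  fun a b c ha hb hc x => by rw [mul_smul, mul_smul, ← ha, hb (b⁻¹ • c • x), smul_inv_smul, hc]

@[simp] theorem mem_stt {L : Grp} {S T : Finset ℕ} {g : FP} :
    g ∈ stt L S T ↔ g ∈ L.1 ∧ ∀ x, x ∈ S ↔ g • x ∈ T := Iff.rfl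

/-- Transporter of orbit partitions. -/
def partt (L X Z : Grp) : Cos := Cos.sel L (fun l => ∀ x y, So X.1 x y ↔ So Z.1 (l • x) (l • y))
  fun a b c ha hb hc x y => by
    rw [mul_smul, mul_smul, mul_smul, mul_smul, ← ha, hb (b⁻¹ • c • x), smul_inv_smul, smul_inv_smul, hc]

@[simp] theorem mem_partt {L X Z : Grp} {g : FP} :
    g ∈ partt L X Z ↔ g ∈ L.1 ∧ ∀ x y, So X.1 x y ↔ So Z.1 (g • x) (g • y) := Iff.rfl

/-- Transporter of subgroups. -/
def TR (L X Z : Grp) : Cos := Cos.sel L (fun l => cj l X.1 = Z.1) fun a b c ha hb hc => by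
  ext w
  have h1 := SetLike.ext_iff.1 ha w
  have h2 := SetLike.ext_iff.1 hb (b * a⁻¹ * w * a * b⁻¹)
  have h3 := SetLike.ext_iff.1 hc (b * a⁻¹ * w * a * b⁻¹)
  simp only [mem_cj, mul_inv_rev, inv_inv, mul_assoc, inv_mul_cancel_left, inv_mul_cancel,
    mul_one] at h1 h2 h3 ⊢
  rw [h3, ← h2, h1]

@[simp] theorem mem_TR {L X Z : Grp} {g : FP} : g ∈ TR L X Z ↔ g ∈ L.1 ∧ cj g X.1 = Z.1 := Iff.rfl

/-! ### Triples -/

@[ext] structure Tri where
  p : FP
  a : ℕ → FP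
  l : FP

instance : Group Tri where
  mul s t := ⟨s.p * t.p, fun i => s.a (t.p • i) * t.a i, s.l * t.l⟩
  one := ⟨1, fun _ => 1, 1⟩
  inv t := ⟨t.p⁻¹, fun i => (t.a (t.p⁻¹ • i))⁻¹, t.l⁻¹⟩
  mul_assoc s t u := Tri.ext (mul_assoc _ _ _) (funext fun i => by
    show s.a ((t.p * u.p) • i) * t.a (u.p • i) * u.a i = s.a ((t.p * u.p) • i) * (t.a (u.p • i) * u.a i)
    rw [mul_assoc]) (mul_assoc _ _ _)
  one_mul t := Tri.ext (one_mul _) (funext fun _ => one_mul _) (one_mul _)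
  mul_one t := Tri.ext (mul_one _) (funext fun i => by
    show t.a ((1 : FP) • i) * 1 = t.a i
    rw [one_smul, mul_one]) (mul_one _)
  inv_mul_cancel t := Tri.ext (inv_mul_cancel _) (funext fun i => by
    show (t.a (t.p⁻¹ • t.p • i))⁻¹ * t.a i = 1
    rw [inv_smul_smul, inv_mul_cancel]) (inv_mul_cancel _)

@[simp] theorem Tri.mul_p (s t : Tri) : (s * t).p = s.p * t.p := rfl
@[simp] theorem Tri.mul_a (s t : Tri) (i : ℕ) : (s * t).a i = s.a (t.p • i) * t.a i := rfl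
@[simp] theorem Tri.mul_l (s t : Tri) : (s * t).l = s.l * t.l := rfl
@[simp] theorem Tri.one_p : (1 : Tri).p = 1 := rfl
@[simp] theorem Tri.one_a (i : ℕ) : (1 : Tri).a i = 1 := rfl
@[simp] theorem Tri.one_l : (1 : Tri).l = 1 := rfl
@[simp] theorem Tri.inv_p (t : Tri) : t⁻¹.p = t.p⁻¹ := rfl
@[simp] theorem Tri.inv_a (t : Tri) (i : ℕ) : t⁻¹.a i = (t.a (t.p⁻¹ • i))⁻¹ := rfl
@[simp] theorem Tri.inv_l (t : Tri) : t⁻¹.l = t.l⁻¹ := rfl

abbrev TriD : Type := FP × List FP × FP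

def toTri (t : TriD) : Tri := ⟨t.1, fun i => t.2.1.getD i 1, t.2.2⟩

/-- The group generated by a list of triples. -/
def triG (gs : List TriD) : Subgroup Tri := Subgroup.closure {t | ∃ d ∈ gs, toTri d = t}

def OkT (n m : ℕ) (gs : List TriD) : Prop :=
  ∀ d ∈ gs, d.1 ∈ Sy m ∧ (∀ a ∈ d.2.1, a ∈ Sy n) ∧ d.2.2 ∈ Sy n

/-- The group of tuples generated by a list of lists. -/
def tupG (us : List (List FP)) : Subgroup (ℕ → FP) :=
  Subgroup.closure {u | ∃ d ∈ us, (fun i => d.getD i 1) = u}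

/-! ### Products of normal subgroups, links -/

/-- `P` is the join of `D` with a nonempty subfamily of `Ns`. -/
def IsPr (D : SG) (Ns : Set SG) (P : SG) : Prop :=
  ∃ K : Set SG, K ⊆ Ns ∧ K.Nonempty ∧ P = D ⊔ sSup K

/-- Maximal proper products. -/
def MP (B D : SG) (Ns : Set SG) : Set SG :=
  {P | IsPr D Ns P ∧ P ≠ B ∧ ∀ P', IsPr D Ns P' → P' ≠ B → P ≤ P' → P' = P}

/-- Hypotheses on a family of normal subgroups with perfect quotients. -/
structure MPok (n : ℕ) (B D : SG) (Ns : Set SG) : Prop where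
  le : B ≤ Sy n
  nD : NI B D
  nN : ∀ N ∈ Ns, NI B N
  perf : ∀ N ∈ Ns, B ≤ ⁅B, B⁆ ⊔ N ⊔ D

/-- Kernels of `G` on the orbits of the points of `W`. -/
def kers (G : Grp) (W : Finset ℕ) : List Grp := (els W).map fun w => G.fix (G.orb w)

/-- The values of a list of groups. -/
def vals (l : List Grp) : Set SG := {H | ∃ A ∈ l, A.1 = H}

def lft (n : ℕ) (g : FP) : FP := res (Finset.range n) g
/-- The right half `[n, 2n)`. -/
def RH (n : ℕ) : Finset ℕ := fil (2 * n) fun x => Nat.ble n x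
def rgt (n : ℕ) (g : FP) : FP := res (RH n) g

/-- The invariant of the embedding procedure. -/
structure Lk (n : ℕ) (L K1 K2 LL LA : Grp) : Prop where
  le : LL.1 ≤ Sy (2 * n)
  pres : LL.1 ≤ sst (Finset.range n)
  ni : NI LL.1 LA.1
  covL : (LL.con (Finset.range n)).1 ⊔ K2.1 = L.1
  covK : (LA.con (Finset.range n)).1 ⊔ K2.1 = K1.1
  ker : ∀ g ∈ LA.1, rgt n g = 1 → lft n g ∈ K2.1

/-- The element of the constituent of `J` on the orbit of `b` used to move `rep b` to `b`. -/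
def gb (J : Grp) (b : ℕ) : FP := res (J.orb b) (tr J (J.rep b) b)

/-- Intersection of `B` with the members of a list. -/
def infL (B : Grp) (l : List Grp) : Grp := l.foldl Grp.inf B

/-- Intersection of `B` with the members of `l` other than `P`. -/
def aP (B : Grp) (l : List Grp) (P : Grp) : Grp := infL B (l.filter fun Q => !eqb Q P)

/-- The intersection of the maximal proper products of orbit kernels. -/
def JJ (G D : Grp) (W : Finset ℕ) : SG := G.1 ⊓ sInf (MP G.1 D.1 (vals (kers G W)))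

/-- The symmetric group on `[n, 2n)`. -/
def symB (n : ℕ) : Grp := Grp.cj (sw n) (Grp.sy n)

/-- The potential of the embedding procedure. -/
def pot (n : ℕ) (M : Grp) : ℕ :=
  ((Finset.range (2 * n)).sum fun x => (M.orb x).card) * (4 * n * n + 1) + M.len

/-- The part of `LA` lying over `J`. -/
def ovr (n : ℕ) (LA J : Grp) : Grp := LA.inf ((Grp.sy n).sup J)

/-- The uniform size bound for data of degree `n`. -/
def SB (n : ℕ) : ℕ := 100 * (n + 1) ^ 4

/-! ### Oracle polynomial time -/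

abbrev Qy : Type := Bool × ℕ × Grp × Finset ℕ

/-- The two oracles, with canonical answers. -/
def orc (q : Qy) : Grp := bif q.1 then q.2.2.1.stab q.2.2.2 else Grp.enorm q.2.1 q.2.2.1

@[fun_prop]
def OT {α β : Type} [Enc α] [Enc β] (f : α → β) : Prop :=
  ∃ (σ : Type) (_ : Enc σ) (init : α → σ) (qry : σ → Qy) (upd : σ × Grp → σ) (out : σ → β)
    (P : ℕ[X]), PT init ∧ PT qry ∧ PT upd ∧ PT out ∧ ∀ a,
      (∀ k, sz ((fun s => upd (s, orc (qry s)))^[k] (init a)) ≤ P.eval (sz a)) ∧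
      ∀ k, P.eval (sz a) ≤ k → out ((fun s => upd (s, orc (qry s)))^[k] (init a)) = f a

/-- One node of a two-stage recursion for `F` on the valid inputs `V`, in the case `U`. -/
def Node {α β : Type} [Enc α] [Enc β] (V : α → Prop) (F : α → β) (N c : α → ℕ) (U : α → Prop) :
    Prop :=
  ∃ (c1 : α → List α) (c2 : α × List β → List α) (out : α × List β × List β → β),
    OT c1 ∧ OT c2 ∧ OT out ∧ ∀ a, V a → U a →
      (∀ b ∈ c1 a ++ c2 (a, (c1 a).map F), V b ∧ N b ≤ N a) ∧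
      ((c1 a ++ c2 (a, (c1 a).map F)).map fun b => c b + 1).sum ≤ c a ∧
      out (a, (c1 a).map F, (c2 (a, (c1 a).map F)).map F) = F a

end

end Pool.Agent.Lib.E6
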