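import Pool.Agent.Lib.MP_e519cf_lc.Defs

/-! Definitions used in the statement of the reduction of normalisers. -/

namespace Pool.Agent.Lib.E6

open Equiv Pool.Agent.Lib.MP_e519cf_lc Pointwise

/-- Inputs `(n, generators of G, generators of H)`. -/
abbrev NIn : Type := ℕ × Tabs × Tabs

def codeNI : NIn → List Bool := codeP codeN (codeP codeT codeT)

/-- Queries `(kind, degree, generators, points)`. -/
abbrev Qr : Type := Bool × ℕ × Tabs × List ℕ

def codeQ : Qr → List Bool :=
  codeP (fun b => [b]) (codeP codeN (codeP codeT (codeL codeN)))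

/-- `a` is a correct answer to the query `q`: for kind `true`, generators of a setwise
stabiliser; for kind `false` and commuting generators of exponent a prime `p` with all orbits of
size at most `p`, generators of the normaliser in the symmetric group. -/
def Ans (q : Qr) (a : Tabs) : Prop :=
  (∀ (m : ℕ) (gs : List (Perm (Fin m))) (Δ : List (Fin m)),
    q = (true, m, gs.map tab, Δ.map Fin.val) →
      ∃ ns : List (Perm (Fin m)), a = ns.map tab ∧
        gen ns = gen gs ⊓ MulAction.stabilizer (Perm (Fin m)) {x | x ∈ Δ}) ∧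
  ∀ (m : ℕ) (gs : List (Perm (Fin m))) (p : ℕ), q = (false, m, gs.map tab, []) → p.Prime →
    (∀ g ∈ gs, ∀ h ∈ gs, g * h = h * g) → (∀ g ∈ gs, g ^ p = 1) →
    (∀ x : Fin m, (MulAction.orbit (gen gs) x).ncard ≤ p) →
      ∃ ns : List (Perm (Fin m)), a = ns.map tab ∧
        gen ns = Subgroup.normalizer (gen gs : Set (Perm (Fin m)))

end Pool.Agent.Lib.E6
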